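import Pool.Agent.N561.V.Edk
import Pool.Agent.TH563.V.KidV

/-!
# Small vertices: a large or encircled child of a small vertex
-/

set_option autoImplicit false
set_option maxHeartbeats 1000000

namespace Pool.Agent.N561

open Finset Filter Topology Metric
open Pool.Agent.W711.HT hiding XX
open Pool.Agent.TH563.UV
open Pool.Agent.TH563.V
open Pool.Agent.TH563.Z (Md XB xb_ub upp_all ev_mul)
open Pool.Agent.W85.HT (ker_diff)
open Pool.Agent.W293.HT (zero_mem_Rc)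
open Pool.Agent.TH219.J139 (Ub Ub_diff Ub_even)
open Pool.Agent.TH929.J29 (UN_diff)
open scoped Real

/-- a combination of the coefficients of a step -/
lemma sum_md (a : ℤ) (X : ℕ → ℂ → ℂ) (hX : ∀ N, Differentiable ℂ (X N)) (N : ℕ) (co : ℕ → ℂ) :
    ∑ d ∈ range N, co d * Md a X N d =
      upp (1 / N) fun ψ => Ea a N ψ * (X N ψ * ∑ d ∈ range N, co d * Rp N d ψ) * kr N ψ := by
  rcases Nat.eq_zero_or_pos N with h0 | hN
  · subst h0
    simp [upp]
  have e1 : (fun ψ => Ea a N ψ * (X N ψ * ∑ d ∈ range N, co d * Rp N d ψ) * kr N ψ) = fun ψ =>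
      ∑ d ∈ range N, co d * (Ea a N ψ * X N ψ * Rp N d ψ * kr N ψ) := by
    funext ψ
    rw [Finset.mul_sum, Finset.mul_sum, Finset.sum_mul]
    refine Finset.sum_congr rfl fun d _ => ?_
    ring
  rw [e1, Pool.Agent.W366.AX.upp_expand a (X N) (hX N) N hN]
  rfl

lemma half_le (N : ℕ) : (N + 1) / 2 ≤ N := by omega

lemma k0_sum (N : ℕ) (ψ φ : ℂ) : k0 N ψ φ = ∑ d ∈ range N,
    (if d < (N + 1) / 2 then Rp N d φ / (Sd N d : ℂ) ^ 4 else 0) * Rp N d ψ := by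
  unfold k0
  rw [← Finset.sum_subset (Finset.range_mono (half_le N))]
  · refine Finset.sum_congr rfl fun d hd => ?_
    rw [if_pos (Finset.mem_range.1 hd)]
    ring
  · intro d _ hd
    rw [Finset.mem_range] at hd
    rw [if_neg hd, zero_mul]

lemma ker_sum (N : ℕ) (ψ φ : ℂ) : Pool.Agent.W711.HT.ker N ψ φ = ∑ d ∈ range N,
    (Rp N d φ / (Sd N d : ℂ) ^ 4) * Rp N d ψ := by
  unfold Pool.Agent.W711.HT.ker
  refine Finset.sum_congr rfl fun d _ => ?_
  ring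

/-- the lower part of a step -/
noncomputable def st0 (a : ℤ) (X : ℕ → ℂ → ℂ) (N : ℕ) (φ : ℂ) : ℂ :=
  ∑ d ∈ range N, (if d < (N + 1) / 2 then Rp N d φ / (Sd N d : ℂ) ^ 4 else 0) * Md a X N d

lemma st0_diff (a : ℤ) (X : ℕ → ℂ → ℂ) (N : ℕ) : Differentiable ℂ (st0 a X N) := by
  unfold st0
  apply Differentiable.fun_sum
  intro d _
  split_ifs
  · exact ((rp_diff N d).div_const _).mul_const _
  · exact (differentiable_const _).mul_const _

lemma st0_eq (a : ℤ) (X : ℕ → ℂ → ℂ) (hX : ∀ N, Differentiable ℂ (X N)) (N : ℕ) (φ : ℂ) :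
    st0 a X N φ = upp (1 / N) fun ψ => Ea a N ψ * (X N ψ * k0 N ψ φ) * kr N ψ := by
  unfold st0
  rw [sum_md a X hX]
  congr 1
  funext ψ
  rw [k0_sum]

lemma st0_stk (a : ℤ) (X : ℕ → ℂ → ℂ) (hX : ∀ N, Differentiable ℂ (X N)) :
    st0 a X = stk a X k0 := by
  funext N φ
  exact st0_eq a X hX N φ

lemma st_sub (a : ℤ) (X : ℕ → ℂ → ℂ) (hX : ∀ N, Differentiable ℂ (X N)) (N : ℕ) (φ : ℂ) :
    stp a X N φ - st0 a X N φ = upp (1 / N) fun ψ => Ea a N ψ *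
      (X N ψ * (Pool.Agent.W711.HT.ker N ψ φ - k0 N ψ φ)) * kr N ψ := by
  have h1 : stp a X N φ = ∑ d ∈ range N, (Rp N d φ / (Sd N d : ℂ) ^ 4) * Md a X N d :=
    Pool.Agent.W398.HT.stp_eq a X hX N φ
  rw [h1]
  unfold st0
  rw [← Finset.sum_sub_distrib]
  have h2 : ∑ d ∈ range N, (Rp N d φ / (Sd N d : ℂ) ^ 4 * Md a X N d -
      (if d < (N + 1) / 2 then Rp N d φ / (Sd N d : ℂ) ^ 4 else 0) * Md a X N d) =
      ∑ d ∈ range N, (Rp N d φ / (Sd N d : ℂ) ^ 4 -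
        (if d < (N + 1) / 2 then Rp N d φ / (Sd N d : ℂ) ^ 4 else 0)) * Md a X N d :=
    Finset.sum_congr rfl fun d _ => by ring
  rw [h2, sum_md a X hX]
  congr 1
  funext ψ
  congr 3
  rw [ker_sum, k0_sum, ← Finset.sum_sub_distrib]
  refine Finset.sum_congr rfl fun d _ => ?_
  ring

section

variable {a : ℤ} {X : ℕ → ℂ → ℂ} {f : ℝ}

lemma st0_rb (hX : ∀ N, Differentiable ℂ (X N)) (hB : XB X f) {x₁ τ₁ ε₂ : ℝ} (hε : 0 < ε₂)
    (hr : RBk x₁ τ₁ ε₂) : ∀ᶠ N : ℕ in atTop, ∀ x y : ℝ, x₁ ≤ |x| → |x| ≤ π → |y| ≤ τ₁ →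
      ‖st0 a X N (x + y * Complex.I)‖ ≤ Real.exp (N * (f + (sx x₁ + ε₂))) := by
  obtain ⟨C, hC, h⟩ := upp_all a
  filter_upwards [h, hB (ε₂ / 8) (by positivity), hr,
    ev_mul C (V := f + (sx x₁ + ε₂)) (A := f + ε₂ / 8 + (sx x₁ + ε₂ / 2)) (κ := ε₂ / 4)
      (by positivity) (by linarith)] with N h1 h2 h3 h4 x y hx hx' hy
  rw [st0_eq a X hX]
  refine (h1 (fun ψ => X N ψ * k0 N ψ (x + y * Complex.I))
    (Real.exp (N * (f + ε₂ / 8 + (sx x₁ + ε₂ / 2))))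
    ((hX N).continuous.mul (k0_diff N _).continuous) ?_).trans h4
  intro x' y' hx1 hy1
  rw [norm_mul, mul_add, Real.exp_add]
  exact mul_le_mul (h2 x' y' hx1 hy1) (h3 x y x' y' hx hx' hy hx1 hy1) (norm_nonneg _)
    (Real.exp_pos _).le

lemma st0_gl (hX : ∀ N, Differentiable ℂ (X N)) (hB : XB X f) (hR : S_RB) {ε : ℝ} (hε : 0 < ε) :
    ∀ᶠ N : ℕ in atTop, ∀ x y : ℝ, |x| ≤ π → |y| ≤ 1 / N →
      ‖stp a X N (x + y * Complex.I)‖ ≤ Real.exp (N * (f + 2 * bet + ε)) ∧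
      ‖st0 a X N (x + y * Complex.I)‖ ≤ Real.exp (N * (f + 2 * bet + ε)) ∧
      ‖stp a X N (x + y * Complex.I) - st0 a X N (x + y * Complex.I)‖ ≤
        Real.exp (N * (f + ε)) := by
  obtain ⟨C, hC, h⟩ := upp_all a
  obtain ⟨τ, hτ, hk⟩ := hR.2 (ε / 4) (by positivity)
  filter_upwards [h, hB (ε / 4) (by positivity), hk, inv_ev hτ,
    ev_mul C (V := f + 2 * bet + ε) (A := f + ε / 4 + (2 * bet + ε / 4)) (κ := ε / 4)
      (by positivity) (by linarith),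
    ev_mul C (V := f + ε) (A := f + ε / 4 + ε / 4) (κ := ε / 4)
      (by positivity) (by linarith)] with N h1 h2 h3 h4 h5 h6 x y hx hy
  have hkey : ∀ x' y' : ℝ, |x'| ≤ π → |y'| ≤ 1 / N → _ := fun x' y' hx' hy' =>
    h3 x y x' y' hx (hy.trans h4.le) hx' (hy'.trans h4.le)
  refine ⟨?_, ?_, ?_⟩
  · rw [Pool.Agent.W85.HT.stp_eq]
    refine (h1 (fun ψ => X N ψ * Pool.Agent.W711.HT.ker N ψ (x + y * Complex.I))
      (Real.exp (N * (f + ε / 4 + (2 * bet + ε / 4))))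
      ((hX N).continuous.mul (ker_diff N _).continuous) ?_).trans h5
    intro x' y' hx1 hy1
    rw [norm_mul, mul_add, Real.exp_add]
    exact mul_le_mul (h2 x' y' hx1 hy1) (hkey x' y' hx1 hy1).1 (norm_nonneg _)
      (Real.exp_pos _).le
  · rw [st0_eq a X hX]
    refine (h1 (fun ψ => X N ψ * k0 N ψ (x + y * Complex.I))
      (Real.exp (N * (f + ε / 4 + (2 * bet + ε / 4))))
      ((hX N).continuous.mul (k0_diff N _).continuous) ?_).trans h5
    intro x' y' hx1 hy1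
    rw [norm_mul, mul_add, Real.exp_add]
    exact mul_le_mul (h2 x' y' hx1 hy1) (hkey x' y' hx1 hy1).2.1 (norm_nonneg _)
      (Real.exp_pos _).le
  · rw [st_sub a X hX]
    refine (h1 (fun ψ => X N ψ * (Pool.Agent.W711.HT.ker N ψ (x + y * Complex.I) -
        k0 N ψ (x + y * Complex.I)))
      (Real.exp (N * (f + ε / 4 + ε / 4)))
      ((hX N).continuous.mul ((ker_diff N _).continuous.sub (k0_diff N _).continuous)) ?_).trans h6
    intro x' y' hx1 hy1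
    rw [norm_mul, mul_add, Real.exp_add]
    exact mul_le_mul (h2 x' y' hx1 hy1) (hkey x' y' hx1 hy1).2.2 (norm_nonneg _)
      (Real.exp_pos _).le

end

/-- a large or encircled child of a small vertex -/
theorem kids (hVF : S_VF) (hVT : S_VT) (hR : S_RB) : S_KIDS := by
  intro U x₁ τ₁ ε₁ ε₂ ρ τ κ c C hx₁ hx₁' hτ₁ hε₁ hε₂ hUG hE hrb r₀ κ₁ c₁ C₁ hr₀ hκ₁ hc₁ hC₁
  have hρ0 := hE.hρ.1
  have hτ0 := hE.hτ.1
  obtain ⟨K, hK0, hcp⟩ := hVF ρ τ κ c C U k0 sg hE κ₁ c₁ C₁ hκ₁ hc₁ hC₁ r₀ ε₁ hr₀ hε₁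
  refine ⟨K, hK0, ?_⟩
  intro t X F hX b a hbig
  have hB : XB X (F 0).re := xb_gv hρ0 hτ0 hκ₁.le hc₁.le hC₁.le hX
  have hY : stpb b a X = stp a (fun N ψ => Ub b N ψ * X N ψ) := by
    funext N ψ
    exact Pool.Agent.TH219.J139.stpb_eq b a X N ψ
  obtain ⟨X', hX'⟩ : ∃ X' : ℕ → ℂ → ℂ, X' = fun N ψ => Ub b N ψ * X N ψ := ⟨_, rfl⟩
  have hB' : XB X' (F 0).re := by rw [hX']; exact xb_ub b hB
  have hXd : ∀ N, Differentiable ℂ (X' N) := by
    intro N
    rw [hX']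
    exact (Ub_diff b N).mul (hX.an N)
  obtain ⟨st1, st2⟩ := Pool.Agent.W398.HT.t_STPE a X' hXd
  rw [hY, ← hX']
  have hrb' := st0_rb (a := a) hXd hB' hε₂ hrb
  have hgl' := fun ε hε => st0_gl (a := a) hXd hB' hR (ε := ε) hε
  have hst := st0_stk a X' hXd
  -- the parts of `PSm` common to both cases
  have key : ∀ (f₀ : ℂ) (F' : ℂ → ℂ), f₀.re = (F 0).re → DifferentiableOn ℂ F' U →
      (∀ φ ∈ U, ‖F' φ - f₀ - sg 0 φ‖ ≤ ε₁) → (∀ V ⊆ U, IsCompact V → MW (stk a X' k0) F' V) →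
      PSm U x₁ τ₁ ε₁ ε₂ 1 (stp a X') (st0 a X') f₀ F' := by
    intro f₀ F' e1 e2 e3 e4
    refine ⟨st1, st0_diff a X', by rw [e1]; exact hX.pos, e2, ?_, ?_, ?_, ?_⟩
    · intro φ hφ
      rw [Nat.cast_one, Nat.cast_one, one_mul, one_mul]
      exact e3 φ hφ
    · intro V hV hVc
      rw [hst]
      exact e4 V hV hVc
    · rw [e1, Nat.cast_one, one_mul]
      exact hrb'
    · intro ε hε
      rw [e1, Nat.cast_one, one_mul, sub_self, zero_mul, add_zero]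
      exact hgl' ε hε
  cases b with
  | false =>
    have hXX : X' = X := by
      rw [hX']
      funext N ψ
      show (1 : ℂ) * X N ψ = X N ψ
      rw [one_mul]
    obtain ⟨F', zs, hF1, hz1, hF2, -, hF3, hmw⟩ := hcp t X F hX a (hbig rfl)
    refine ⟨st0 a X', F 0, F', zs, key (F 0) F' rfl hF1 hF2 ?_, ?_⟩
    · intro V hV hVc
      rw [hXX]
      exact hmw V hVc hV
    · intro φ hφ
      obtain ⟨p1, p2, p3, p4, p5⟩ := hF3 φ hφ
      refine ⟨rc_mono' (by linarith) (by linarith) p1.mem, p1.sm, fun h => absurd h (by simp),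
        fun _ => ⟨p1, p3⟩, ?_, p5⟩
      rw [p4]
      simp [vt, qq]
  | true =>
    have hXX : X' = fun N ψ => UN N ψ * X N ψ := by
      rw [hX']
      rfl
    have h00 : (0 : ℂ) ∈ Rc (3 * ρ) (3 * τ) := zero_mem_Rc (by linarith) (by linarith)
    have hf0 : (F 0 + π * Complex.I).re = (F 0).re := by
      rw [Complex.add_re]
      simp
    have hsd : DifferentiableOn ℂ (fun φ => sg 0 φ) U := by
      have h1 : DifferentiableOn ℂ (fun w : ℂ => ((0 : ℂ), w)) U :=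
        ((differentiable_const _).prodMk differentiable_id).differentiableOn
      have h2 : DifferentiableOn ℂ ((fun p : ℂ × ℂ => sg p.1 p.2) ∘ fun w : ℂ => ((0 : ℂ), w)) U :=
        hE.san.comp h1 (fun w hw => ⟨h00, hw⟩)
      exact h2
    refine ⟨st0 a X', F 0 + π * Complex.I, fun φ => F 0 + π * Complex.I + sg 0 φ, fun _ => 0,
      key _ _ hf0 ?_ ?_ ?_, ?_⟩
    · exact (differentiableOn_const _).add hsd
    · intro φ _
      have e : F 0 + π * Complex.I + sg 0 φ - (F 0 + π * Complex.I) - sg 0 φ = 0 := by ring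
      rw [e, norm_zero]
      exact hε₁.le
    · intro V hV hVc
      rw [hXX]
      exact hVT ρ τ κ c C U k0 sg hE κ₁ c₁ C₁ hκ₁ hc₁ hC₁ t X F hX a V hVc hV
    · intro φ hφ
      refine ⟨h00, by rw [norm_zero]; exact hr₀.le,
        fun _ => rfl, fun h => absurd h (by simp), ?_, ?_⟩
      · show F 0 + π * Complex.I + sg 0 φ = vt true a 0 + F 0 + sg 0 φ
        simp only [vt, if_true]
        ring
      · have h1 : HasDerivAt (fun w => sg 0 w) (deriv (fun w => sg 0 w) φ) φ :=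
          (hsd.differentiableAt (hE.hU.mem_nhds hφ)).hasDerivAt
        exact h1.const_add _

end Pool.Agent.N561
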