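import Pool.Agent.N561.V.Defs

/-!
# Small vertices of all types: packages

`KPG` is everything the induction over the tree needs to know about a type `(n, a)` of small
vertices.  It is proved for `a ≤ 0`, `4 ≤ n - a` (`S_SMALL`, `S_KIDS`), and for the hub `(3, 0)`
(`S_HUB3`); the mirror image gives `a ≥ 0` (`S_MIR`).  A clasp, that is a vertex with one neighbour
and weight `±2`, is a leaf, and needs less (`S_CLASP`).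
-/

set_option autoImplicit false

namespace Pool.Agent.N561

open Finset Filter Topology Metric
open Pool.Agent.W711.HT hiding XX
open Pool.Agent.TH563.UV
open Pool.Agent.TH563.V
open scoped Real

/-- a type of small vertices: `n` neighbours, weight `a`, critical point near `z₀`, potential `S` of
the edges.  `P j X Φ` says that `X` is a product over `j` neighbours with the potential `Φ`, and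
`C Y Φ` that `Y` belongs to one neighbour. -/
structure KPG (n : ℕ) (a : ℤ) (z₀ : ℂ) (g : ℝ) (S : ℂ → ℂ → ℂ) (U : Set ℂ)
    (P : ℕ → (ℕ → ℂ → ℂ) → (ℂ → ℂ) → Prop) (C : (ℕ → ℂ → ℂ) → (ℂ → ℂ) → Prop)
    (r₂ c₁ C₁ : ℝ) : Prop where
  hr₂ : 0 < r₂
  hc₁ : 0 < c₁
  hC₁ : 0 < C₁
  zero : P 0 (fun _ _ => 1) (fun _ => 0)
  succ : ∀ (j : ℕ) (X Y : ℕ → ℂ → ℂ) (Φ Φ' : ℂ → ℂ), P j X Φ → C Y Φ' →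
    P (j + 1) (fun N φ => X N φ * Y N φ) (fun φ => Φ φ + Φ' φ)
  step : ∀ a₀ b₀ : ℝ, 0 < b₀ → b₀ ≤ a₀ → 3 * a₀ ≤ r₂ → ∃ κ₁ : ℝ, 0 < κ₁ ∧
    ∀ (X : ℕ → ℂ → ℂ) (Φ : ℂ → ℂ), P (n - 1) X Φ → ∃ F zs : ℂ → ℂ,
      GoodV a₀ b₀ κ₁ c₁ C₁ 1 (stp a X) F ∧
      ∀ ψ ∈ Rc (3 * a₀) (3 * b₀), ‖zs ψ - z₀‖ ≤ g ∧ zs ψ ∈ U ∧
        Complex.I * a * zs ψ / (2 * π) + Complex.I + deriv Φ (zs ψ) +
          deriv (fun w => S ψ w) (zs ψ) = 0 ∧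
        F ψ = qq a Φ (zs ψ) + S ψ (zs ψ) ∧
        HasDerivAt F (deriv (fun w => S w (zs ψ)) ψ) ψ
  kid : ∀ e r₀ κ₁ c C' : ℝ, 0 < e → 3 * e ≤ r₂ → 0 < r₀ → 0 < κ₁ → 0 < c → 0 < C' →
    ∃ K : ℝ, 0 < K ∧ ∀ (t : ℕ) (X : ℕ → ℂ → ℂ) (F : ℂ → ℂ), GoodV e e κ₁ c C' t X F →
    ∀ (b : Bool) (a' : ℤ), (b = false → K ^ 2 ≤ ((t + 1 : ℕ) : ℝ) ^ 2 + (a' : ℝ) ^ 2) →
    ∃ F' zs : ℂ → ℂ, C (stpb b a' X) F' ∧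
      ∀ φ ∈ U, zs φ ∈ Rc (3 * e) (3 * e) ∧ ‖zs φ‖ ≤ r₀ ∧ (b = true → zs φ = 0) ∧
        (b = false → CPu e e r₀ (zs φ) ∧ Complex.I * a' * zs φ / (2 * π) + Complex.I +
          deriv F (zs φ) + deriv (fun w => S w φ) (zs φ) = 0) ∧
        F' φ = vt b a' (zs φ) + F (zs φ) + S (zs φ) φ ∧
        HasDerivAt F' (deriv (fun w => S (zs φ) w) φ) φ

/-- the last step at a small vertex -/
def RTG (n : ℕ) (a : ℤ) (z₀ : ℂ) (g : ℝ) (U : Set ℂ)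
    (P : ℕ → (ℕ → ℂ → ℂ) → (ℂ → ℂ) → Prop) : Prop :=
  ∀ (X : ℕ → ℂ → ℂ) (Φ : ℂ → ℂ), P n X Φ →
    ∃ z : ℂ, ‖z - z₀‖ ≤ g ∧ z ∈ U ∧ Complex.I * a * z / (2 * π) + Complex.I + deriv Φ z = 0 ∧
      Tendsto (fun N : ℕ => Real.log ‖upp (1 / N) fun φ => Ea a N φ * X N φ * kr N φ‖ / N) atTop
        (𝓝 (qq a Φ z).re)

/-- a leaf: everything that is needed about a vertex with one neighbour and weight `a` -/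
def LPG (a : ℤ) (z₀ : ℂ) (g : ℝ) (S : ℂ → ℂ → ℂ) (r₂ c₁ C₁ : ℝ) : Prop :=
  ∀ a₀ b₀ : ℝ, 0 < b₀ → b₀ ≤ a₀ → 3 * a₀ ≤ r₂ → ∃ κ₁ : ℝ, 0 < κ₁ ∧ ∃ F zs : ℂ → ℂ,
      GoodV a₀ b₀ κ₁ c₁ C₁ 1 (stp a fun _ _ => 1) F ∧
      ∀ ψ ∈ Rc (3 * a₀) (3 * b₀), ‖zs ψ - z₀‖ ≤ g ∧
        Complex.I * a * zs ψ / (2 * π) + Complex.I + deriv (fun w => S ψ w) (zs ψ) = 0 ∧
        F ψ = qq a (fun _ => 0) (zs ψ) + S ψ (zs ψ) ∧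
        HasDerivAt F (deriv (fun w => S w (zs ψ)) ψ) ψ

/-- the potential `S` has the geometric meaning near `(0, z₀)` -/
def GEOS (z₀ : ℂ) (S : ℂ → ℂ → ℂ) : Prop := ∃ g : ℝ, 0 < g ∧ ∀ ψ φ : ℂ, ‖ψ‖ ≤ g → ‖φ - z₀‖ ≤ g →
  ∃ δ : ℂ, EFW S ψ φ δ

/-- the type `(n, a)` is settled -/
def KOK (n : ℕ) (a : ℤ) : Prop := ∃ (z₀ : ℂ) (S : ℂ → ℂ → ℂ), GEOS z₀ S ∧ ∀ g : ℝ, 0 < g →
  ∃ (U : Set ℂ) (P : ℕ → (ℕ → ℂ → ℂ) → (ℂ → ℂ) → Prop) (C : (ℕ → ℂ → ℂ) → (ℂ → ℂ) → Prop)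
    (r₂ c₁ C₁ : ℝ), KPG n a z₀ g S U P C r₂ c₁ C₁

/-- the type `(n, a)` is settled, also as the root -/
def KRK (n : ℕ) (a : ℤ) : Prop := ∃ (z₀ : ℂ) (S : ℂ → ℂ → ℂ), GEOS z₀ S ∧ ∀ g : ℝ, 0 < g →
  ∃ (U : Set ℂ) (P : ℕ → (ℕ → ℂ → ℂ) → (ℂ → ℂ) → Prop) (C : (ℕ → ℂ → ℂ) → (ℂ → ℂ) → Prop)
    (r₂ c₁ C₁ : ℝ), KPG n a z₀ g S U P C r₂ c₁ C₁ ∧ RTG n a z₀ g U P

/-- the leaf of weight `a` is settled -/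
def LOK (a : ℤ) : Prop := ∃ (z₀ : ℂ) (S : ℂ → ℂ → ℂ), GEOS z₀ S ∧ ∀ g : ℝ, 0 < g →
  ∃ r₂ c₁ C₁ : ℝ, 0 < r₂ ∧ 0 < c₁ ∧ 0 < C₁ ∧ LPG a z₀ g S r₂ c₁ C₁

/-- the small vertices with `a ≤ 0`, `4 ≤ n - a` -/
def S_KRK : Prop := ∀ (n : ℕ) (a : ℤ), 1 ≤ n → a ≤ 0 → 4 ≤ (n : ℤ) - a → KRK n a

/-- job X1: mirror images -/
def S_MIR : Prop := (∀ (n : ℕ) (a : ℤ), KRK n a → KRK n (-a)) ∧ ∀ a : ℤ, LOK a → LOK (-a)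

/-- job X2: the hub with three neighbours -/
def S_HUB3 : Prop := KOK 3 0

/-- job X3: the clasp -/
def S_CLASP : Prop := LOK (-2)

end Pool.Agent.N561
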