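import Pool.Agent.N561.V.ArbE
import Pool.Agent.N592.VS.Hub3

/-!
# Arborescent links with large and small vertices: the growth rate
-/

set_option autoImplicit false

namespace Pool.Agent.N561.Arb

open Finset Filter Topology
open Pool.Agent.TH563.UV.Arb

/-- the growth rate -/
theorem main : ∃ K : ℕ, ∀ s : Tree, 1 ≤ s.children → Fine K s →
    ∃ V : ℝ, IsGreatest {W : ℝ | ∃ y : AngleTree, y.tree = s ∧ IsAngle y ∧ vol y = W} V ∧
      ∀ t : Tree, (t = s ∨ t = s.mirror) → (∀ N : ℕ, ContinuousAt (jones t N) (root N)) ∧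
      ∀ e f : ℤ,
        Tendsto (fun N : ℕ => 2 * Real.pi * (Real.log ‖kashaev e f t N‖ / N)) atTop (𝓝 V) := by
  have hF : S_FIN2 Small Small := by
    refine main2 f_vf f_vt (fun n a h hn => ?_) f_root f_geog
    rcases h with ⟨h1, h2⟩ | ⟨rfl, rfl⟩
    · rw [abs_of_nonpos h1] at h2
      exact tok_of_krk (f_krk n a hn h1 (by linarith))
    · exact tok_of_krk (Pool.Agent.N592.VS.krk_hub le_rfl)
  obtain ⟨K, hK⟩ := arb hF
  exact ⟨K, fun s hc hs => hK s hc (fine_neat (fun _ _ h => h) (fun _ _ h => h) K s hs)⟩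

end Pool.Agent.N561.Arb
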