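import Pool.Agent.N561.V.Main2
import Pool.Agent.TH563.Z.ArbXD
import Pool.Agent.TH563.Z.ArbZ

/-!
# Arborescent links with large and small vertices

Weighted planar trees as in `Pool.Agent.TH563.UV.Arb`.
-/

set_option autoImplicit false

namespace Pool.Agent.N561

open Finset Filter Topology
open Pool.Agent.TH563.UV.Arb
open Pool.Agent.TH563.Z.Arb
open Pool.Agent.TH563.UV (Tb JT ngb)
open Pool.Agent.TH219.J139 (ne_ngb)
open scoped Real

section

variable (Ty Rt : ℕ → ℤ → Prop)

/-- Every vertex other than the root is large, or it has no crossing circle and one of the types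
`Ty`; and of two neighbouring vertices at least one is large.  `g` says that the root is large. -/
def NeatBelow (K : ℕ) : Prop → Tree → Prop
  | _, .single _ _ => True
  | g, .join t c => NeatBelow K g t ∧
      NeatBelow K (Tree.Big K c.circle (c.children + 1) c.weight) c ∧
      (Tree.Big K c.circle (c.children + 1) c.weight ∨
        (g ∧ c.circle = false ∧ Ty (c.children + 1) c.weight))

/-- Every vertex is large, or it has no crossing circle and one of the types `Ty`, the root one of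
the types `Rt`; and of two neighbouring vertices at least one is large. -/
def Neat (K : ℕ) (t : Tree) : Prop :=
  (Tree.Big K t.circle t.children t.weight ∨
    (t.circle = false ∧ Ty t.children t.weight ∧ Rt t.children t.weight)) ∧
    NeatBelow Ty K (Tree.Big K t.circle t.children t.weight) t

variable {Ty Rt}

lemma neatBelow_ok (K : ℕ) (t : Tree) : ∀ (g : Prop) (gb : Bool), (g → gb = true) →
    NeatBelow Ty K g t → OkT2 Ty (K : ℝ) gb (toTb t) := by
  induction t with
  | single b a => intro g gb _ _; trivial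
  | join t c iht ihc =>
    rintro g gb hg ⟨h1, h2, h3⟩
    refine ⟨iht g gb hg h1, ?_⟩
    rw [bl_to, nc_to, wt_to]
    by_cases hbig : Tree.Big K c.circle (c.children + 1) c.weight
    · exact Or.inl ⟨big_to hbig, ihc _ true (fun _ => rfl) h2⟩
    · rcases h3 with h3 | ⟨h3, h4⟩
      · exact absurd h3 hbig
      · exact Or.inr ⟨hg h3, h4, ihc _ false (fun h => absurd h hbig) h2⟩

lemma neat_ok (K : ℕ) (t : Tree) (h : Neat Ty Rt K t) : OkR2 Ty Rt (K : ℝ) (toTb t) := by
  obtain ⟨h1, h2⟩ := h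
  unfold OkR2
  rw [bl_to, nc_to, wt_to]
  by_cases hbig : Tree.Big K t.circle t.children t.weight
  · exact Or.inl ⟨big_to hbig, neatBelow_ok K t _ true (fun _ => rfl) h2⟩
  · rcases h1 with h1 | h1
    · exact absurd h1 hbig
    · exact Or.inr ⟨h1, neatBelow_ok K t _ false (fun h => absurd h hbig) h2⟩

lemma bigV_mono {K K' : ℝ} (h0 : 0 ≤ K) (hK : K ≤ K') {b : Bool} {n : ℕ} {a : ℤ}
    (h : Tb.BigV K' b n a) : Tb.BigV K b n a := by
  intro hb
  have h1 := h hb
  nlinarith

lemma okT2_mono {K K' : ℝ} (h0 : 0 ≤ K) (hK : K ≤ K') (t : Tb) : ∀ g : Bool,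
    OkT2 Ty K' g t → OkT2 Ty K g t := by
  induction t with
  | vx b a => intro g _; trivial
  | br t c iht ihc =>
    rintro g ⟨h1, h2⟩
    refine ⟨iht g h1, ?_⟩
    rcases h2 with ⟨h2, h3⟩ | ⟨h2, h3, h4⟩
    · exact Or.inl ⟨bigV_mono h0 hK h2, ihc true h3⟩
    · exact Or.inr ⟨h2, h3, ihc false h4⟩

lemma okR2_mono {K K' : ℝ} (h0 : 0 ≤ K) (hK : K ≤ K') (t : Tb) (h : OkR2 Ty Rt K' t) :
    OkR2 Ty Rt K t := by
  rcases h with ⟨h1, h2⟩ | ⟨h1, h2⟩
  · exact Or.inl ⟨bigV_mono h0 hK h1, okT2_mono h0 hK t true h2⟩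
  · exact Or.inr ⟨h1, okT2_mono h0 hK t false h2⟩

lemma ngb_ngb (t : Tb) : ngb (ngb t) = t := by
  induction t with
  | vx b a => simp [ngb]
  | br t c ht hc => simp only [ngb, ht, hc]

/-- the modulus of the iterated integral of the mirror image -/
lemma norm_JT_ngb (t : Tb) (N : ℕ) : ‖JT (ngb t) N‖ = ‖JT t N‖ := by
  have h := conj_JT t N
  have h1 : ‖(starRingEnd ℂ) (JT t N)‖ = ‖JT (ngb t) N‖ := by
    rw [h, norm_mul, norm_pow, norm_neg, norm_one, one_pow, one_mul]
  rw [← h1]
  exact Complex.norm_conj _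

/-- from the iterated integrals to the Kashaev invariants -/
theorem arb (hF : S_FIN2 Ty Rt) : ∃ K : ℕ, ∀ s : Tree, 1 ≤ s.children → Neat Ty Rt K s →
    ∃ V : ℝ, IsGreatest {W : ℝ | ∃ y : AngleTree, y.tree = s ∧ IsAngle y ∧ vol y = W} V ∧
      ∀ t : Tree, (t = s ∨ t = s.mirror) → (∀ N : ℕ, ContinuousAt (jones t N) (root N)) ∧
      ∀ e f : ℤ,
        Tendsto (fun N : ℕ => 2 * Real.pi * (Real.log ‖kashaev e f t N‖ / N)) atTop (𝓝 V) := by
  obtain ⟨K, hK0, hM⟩ := hF
  refine ⟨⌈K⌉₊, fun s hc hs => ?_⟩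
  have hl := okR2_mono hK0.le (Nat.le_ceil K) _ (neat_ok _ s hs)
  obtain ⟨V, h1, h2⟩ := hM (toTb s) hl (by rw [nc_to]; exact hc)
  refine ⟨V, ?_, fun t hts => ⟨fun N => ?_, fun e f => ?_⟩⟩
  · rw [volume_eq]
    exact h1
  · have hj : ∀ N, jones t N = Pool.Agent.TH563.UV.jt (toTb t) N := fun N => jones_to t N
    rw [hj]
    exact Pool.Agent.TH639.J28.cnt _ _
  · have h3 : Tendsto (fun N : ℕ => 2 * π * (Real.log ‖JT (toTb t) N‖ / N)) atTop (𝓝 V) := by
      rcases hts with rfl | rfl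
      · exact h2
      · refine h2.congr fun N => ?_
        rw [mirror_toTb, norm_JT_ngb]
    have h4 := Pool.Agent.TH563.Z.log_jt (toTb t) h3
    have hj : ∀ N, jones t N = Pool.Agent.TH563.UV.jt (toTb t) N := fun N => jones_to t N
    have hroot : ∀ N : ℕ, root N = Pool.Agent.W711.HT.vN N := fun N => rfl
    refine h4.congr fun N => ?_
    rw [norm_kashaev, hj, hroot]

end

end Pool.Agent.N561
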