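import Pool.Agent.N561.V.Fin
import Pool.Agent.N561.V.Arb

/-!
# The types of the small vertices
-/

set_option autoImplicit false

namespace Pool.Agent.N561

open Pool.Agent.TH563.V

/-- The types of the small vertices in the first version: weight `a ≤ 0`, `n + |a| ≥ 4`. -/
def TyB (n : ℕ) (a : ℤ) : Prop := a ≤ 0 ∧ 4 ≤ (n : ℤ) - a

theorem fin_b : S_FIN2 TyB TyB :=
  main2 f_vf f_vt (fun n a h hn => tok_of_krk (f_krk n a hn h.1 h.2)) f_root f_geog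

/-- The types of the small vertices: weight `a ≤ 0` and `n + |a| ≥ 4`, or weight `0` and `n = 3`, or
weight `-2` and `n = 1` (a clasp), or weight `a > 0` and `n + a ≥ 5`. -/
def TyE (n : ℕ) (a : ℤ) : Prop :=
  (a ≤ 0 ∧ 4 ≤ (n : ℤ) - a) ∨ (n = 3 ∧ a = 0) ∨ (n = 1 ∧ a = -2) ∨ (0 < a ∧ 5 ≤ (n : ℤ) + a)

/-- The types of the root: all but the clasp. -/
def RtE (n : ℕ) (a : ℤ) : Prop := ¬ (n = 1 ∧ a = -2)

theorem fin_e (hH : KRK 3 0) (hC : S_CLASP) (hP : S_POSK) :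
    S_FIN2 TyE RtE := by
  refine main2 f_vf f_vt (fun n a h hn => ?_) f_root f_geog
  rcases h with ⟨h1, h2⟩ | ⟨rfl, rfl⟩ | ⟨rfl, rfl⟩ | ⟨h1, h2⟩
  · exact tok_of_krk (f_krk n a hn h1 h2)
  · exact tok_of_krk hH
  · exact tok_of_lok hC (fun h => h ⟨rfl, rfl⟩)
  · exact tok_of_krk (hP n a hn h1 h2)

end Pool.Agent.N561
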