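import Pool.Agent.N561.V.Defs2

/-!
# Small vertices with positive weights: statements

The mirror image of a function `f` is `ψ ↦ conj (f (- conj ψ))`.
-/

set_option autoImplicit false

namespace Pool.Agent.N561

open Finset Filter Topology Metric
open Pool.Agent.W711.HT hiding XX
open Pool.Agent.TH563.UV
open Pool.Agent.TH563.V
open scoped Real

/-- the mirror image -/
noncomputable def mir (f : ℂ → ℂ) (ψ : ℂ) : ℂ := (starRingEnd ℂ) (f (-(starRingEnd ℂ) ψ))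

/-- the mirror image of a potential -/
noncomputable def mir2 (S : ℂ → ℂ → ℂ) (ψ φ : ℂ) : ℂ :=
  (starRingEnd ℂ) (S (-(starRingEnd ℂ) ψ) (-(starRingEnd ℂ) φ))

/-- the type `(n, a)` is settled with the point `z₀` and the potential `S`, also as the root, apart
from the geometric meaning of `S` -/
def KPR (n : ℕ) (a : ℤ) (z₀ : ℂ) (S : ℂ → ℂ → ℂ) : Prop := ∀ g : ℝ, 0 < g →
  ∃ (U : Set ℂ) (P : ℕ → (ℕ → ℂ → ℂ) → (ℂ → ℂ) → Prop) (C : (ℕ → ℂ → ℂ) → (ℂ → ℂ) → Prop)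
    (r₂ c₁ C₁ : ℝ), KPG n a z₀ g S U P C r₂ c₁ C₁ ∧ RTG n a z₀ g U P

/-- job M1: mirror images of packages -/
def S_MIRK : Prop := ∀ (n : ℕ) (a : ℤ) (z₀ : ℂ) (S : ℂ → ℂ → ℂ), KPR n a z₀ S →
  KPR n (-a) (-(starRingEnd ℂ) z₀) (mir2 S)

/-- job M2: the geometric meaning of the mirror image of the potential -/
def S_MIRG : Prop := ∀ z₀ ∈ GG, 0 ≤ z₀.re → Real.exp (z₀.im / 2) * Real.sin (z₀.re / 2) < 1 →
  GEOS (-(starRingEnd ℂ) z₀) (mir2 sg)

/-- job M3: the inequality for the critical points -/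
def S_MIRZ : Prop := ∀ (n : ℕ) (a : ℤ) (z : ℂ), 1 ≤ n → a < 0 → 5 ≤ (n : ℤ) - a → z ∈ GG →
  0 ≤ z.re → Complex.I * a * z / (2 * π) + Complex.I - n / π * gdi (z / 2) = 0 →
  Real.exp (z.im / 2) * Real.sin (z.re / 2) < 1

/-- small vertices with positive weights -/
def S_POSK : Prop := ∀ (n : ℕ) (a : ℤ), 1 ≤ n → 0 < a → 5 ≤ (n : ℤ) + a → KRK n a

end Pool.Agent.N561
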