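import Pool.Agent.N561.V.Fin
import Pool.Agent.N561.V.Ext
import Pool.Agent.N561.V.ArbF
import Pool.Agent.N494.M1.Mirk
import Pool.Agent.N592.VS.Mirg
import Pool.Agent.N592.VS.Hub3
import Pool.Agent.N868.VS.MzFin
import Pool.Agent.N803.VS.Cex
import Pool.Agent.N525.VS.Cq
import Pool.Agent.N720.VS.CNear
import Pool.Agent.N186.VS.CV
import Pool.Agent.N821.VK.Real
import Pool.Agent.N207.VS.Rect
import Pool.Agent.N170.VS.Fin
import Pool.Agent.N683.VS.CF
import Pool.Agent.N194.VS.K7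
import Pool.Agent.N402.VK.CGeo
import Pool.Agent.N566.VS.K9
import Pool.Agent.N886.VS.Clasp
import Pool.Agent.W688.HT.Fin

/-!
# Small vertices: the extended types together
-/

set_option autoImplicit false

namespace Pool.Agent.N561

theorem f_csg : S_CSG := Pool.Agent.N194.VS.csg

theorem f_cq : S_CQ := Pool.Agent.N525.VS.cq

theorem f_cfar : S_CFAR :=
  Pool.Agent.N170.VS.cfar Pool.Agent.N207.VS.lapl Pool.Agent.N207.VS.Rect.rect
    (Pool.Agent.N821.VK.creal Pool.Agent.N186.VS.cv) f_cq Pool.Agent.W688.HT.b0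
    Pool.Agent.W583.HT.seq

theorem f_clasp : S_CLASP :=
  Pool.Agent.N886.VS.clasp Pool.Agent.N803.VS.cex (Pool.Agent.N720.VS.cnear f_cq) f_cfar f_cq
    Pool.Agent.N683.VS.cf (Pool.Agent.N402.VK.cgeo f_csg) (Pool.Agent.N566.VS.ccr f_csg)

theorem f_posk' : S_POSK :=
  f_posk Pool.Agent.N494.M1.mirk (Pool.Agent.N592.VS.mirg f_sgp) (Pool.Agent.N868.VS.mirz f_sf)

theorem f_hub3 : KRK 3 0 := Pool.Agent.N592.VS.krk_hub le_rfl

theorem f_fine : S_FIN2 TyE RtE := fin_e f_hub3 f_clasp f_posk'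

end Pool.Agent.N561
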