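import Pool.Agent.N561.V.Main
import Pool.Agent.N561.V.Defs2

/-!
# Small vertices of all types: proof of the main theorem from the packages
-/

set_option autoImplicit false
set_option maxHeartbeats 1000000

namespace Pool.Agent.N561

open Finset Filter Topology Metric
open Pool.Agent.W711.HT hiding XX
open Pool.Agent.TH563.UV
open Pool.Agent.TH563.V
open Pool.Agent.TH563.Z (shape_nc kd_kappa)
open Pool.Agent.W293.HT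
open scoped Real

/-! ### The kinds -/

/-- code of an integer -/
def zcode (a : ℤ) : ℕ := 2 * a.natAbs + if a < 0 then 1 else 0

/-- decode -/
def zd (m : ℕ) : ℤ := if m % 2 = 1 then -((m / 2 : ℕ) : ℤ) else ((m / 2 : ℕ) : ℤ)

lemma zd_zcode (a : ℤ) : zd (zcode a) = a := by
  unfold zd zcode
  split_ifs <;> omega

/-- the valence of a kind -/
def nk2 (k : ℕ) : ℕ := (Nat.unpair (k - 1)).1

/-- the weight of a kind -/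
def ak2 (k : ℕ) : ℤ := zd (Nat.unpair (k - 1)).2

section

variable (Ty : ℕ → ℤ → Prop)

open Classical in
/-- the kind of a vertex -/
noncomputable def kf2 (K₀ : ℝ) (b : Bool) (n : ℕ) (a : ℤ) : ℕ :=
  if b = false ∧ Ty n a ∧ 1 ≤ n ∧ (n : ℝ) ^ 2 + (a : ℝ) ^ 2 < K₀ ^ 2 then Nat.pair n (zcode a) + 1
  else 0

lemma kf2_true (K₀ : ℝ) (n : ℕ) (a : ℤ) : kf2 Ty K₀ true n a = 0 := by
  unfold kf2
  rw [if_neg]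
  rintro ⟨h, -⟩
  exact absurd h (by simp)

variable {Ty}

lemma kf2_spec {K₀ : ℝ} {b : Bool} {n : ℕ} {a : ℤ} (h : kf2 Ty K₀ b n a ≠ 0) :
    b = false ∧ nk2 (kf2 Ty K₀ b n a) = n ∧ ak2 (kf2 Ty K₀ b n a) = a ∧ Ty n a ∧ 1 ≤ n := by
  unfold kf2 at h ⊢
  split_ifs at h ⊢ with h1
  · obtain ⟨h2, h3, h4, -⟩ := h1
    refine ⟨h2, ?_, ?_, h3, h4⟩
    · unfold nk2
      rw [Nat.add_sub_cancel, Nat.unpair_pair]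
    · unfold ak2
      rw [Nat.add_sub_cancel, Nat.unpair_pair]
      exact zd_zcode a
  · exact absurd rfl h

lemma kf2_lt (K₀ : ℝ) : ∃ D : ℕ, 0 < D ∧ ∀ b n a, kf2 Ty K₀ b n a < D := by
  obtain ⟨M, hM⟩ := exists_nat_gt |K₀|
  refine ⟨(2 * M + 1) ^ 2 + 1, by positivity, fun b n a => ?_⟩
  unfold kf2
  split_ifs with h
  · obtain ⟨-, -, -, h⟩ := h
    have hM2 : K₀ ^ 2 ≤ (M : ℝ) ^ 2 := by
      rw [← sq_abs K₀]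
      exact pow_le_pow_left₀ (abs_nonneg _) hM.le 2
    have h1 : (n : ℝ) ^ 2 < (M : ℝ) ^ 2 := by
      have := sq_nonneg (a : ℝ)
      linarith
    have h2 : ((a.natAbs : ℕ) : ℝ) ^ 2 < (M : ℝ) ^ 2 := by
      have e : ((a.natAbs : ℕ) : ℝ) ^ 2 = (a : ℝ) ^ 2 := by simp
      rw [e]
      have := sq_nonneg (n : ℝ)
      linarith
    have h3 : n < M := by
      have := lt_of_pow_lt_pow_left₀ 2 (Nat.cast_nonneg M) h1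
      exact_mod_cast this
    have h4 : a.natAbs < M := by
      have := lt_of_pow_lt_pow_left₀ 2 (Nat.cast_nonneg M) h2
      exact_mod_cast this
    have h4' : zcode a < 2 * M := by
      unfold zcode
      split_ifs <;> omega
    have h5 := Nat.pair_lt_max_add_one_sq n (zcode a)
    have h6 : max n (zcode a) + 1 ≤ 2 * M + 1 := by
      have := max_lt (by omega : n < 2 * M) h4'
      omega
    have h7 : (max n (zcode a) + 1) ^ 2 ≤ (2 * M + 1) ^ 2 := Nat.pow_le_pow_left h6 2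
    omega
  · positivity

lemma kf2_big {K₀ K : ℝ} (h0 : 0 ≤ K₀) (hK : K₀ ≤ K) {b : Bool} {n : ℕ} {a : ℤ}
    (h : Tb.BigV K b n a) : kf2 Ty K₀ b n a = 0 := by
  unfold kf2
  rw [if_neg]
  rintro ⟨h2, -, -, h3⟩
  have h4 := h h2
  have h5 : K₀ ^ 2 ≤ K ^ 2 := pow_le_pow_left₀ h0 hK 2
  linarith

lemma kf2_med {K₀ : ℝ} {b : Bool} {n : ℕ} {a : ℤ} (hb : b = false) (hs : Ty n a) (hn : 1 ≤ n)
    (h : kf2 Ty K₀ b n a = 0) : K₀ ^ 2 ≤ (n : ℝ) ^ 2 + (a : ℝ) ^ 2 := by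
  unfold kf2 at h
  split_ifs at h with h1
  by_contra h2
  exact h1 ⟨hb, hs, hn, not_le.1 h2⟩

end

/-! ### Trees -/

section

variable (Ty Rt : ℕ → ℤ → Prop)

/-- the vertices other than the root are big or small of the types `Ty`; every edge has a big end.
`g` says that the root is used as a big vertex -/
def OkT2 (K : ℝ) : Bool → Tb → Prop
  | _, .vx _ _ => True
  | g, .br t c => OkT2 K g t ∧ ((Tb.BigV K c.bl (c.nc + 1) c.wt ∧ OkT2 K true c) ∨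
      (g = true ∧ (c.bl = false ∧ Ty (c.nc + 1) c.wt) ∧ OkT2 K false c))

/-- all vertices are big or small of the types `Ty`; every edge has a big end; if the root is small
then its type is in `Rt` -/
def OkR2 (K : ℝ) (t : Tb) : Prop :=
  (Tb.BigV K t.bl t.nc t.wt ∧ OkT2 Ty K true t) ∨
    ((t.bl = false ∧ Ty t.nc t.wt ∧ Rt t.nc t.wt) ∧ OkT2 Ty K false t)

/-- the growth rate is the maximal volume of the angle structures -/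
def S_FIN2 : Prop := ∃ K : ℝ, 0 < K ∧ ∀ t : Tb, OkR2 Ty Rt K t → 1 ≤ t.nc → ∃ V : ℝ,
  IsGreatest {W : ℝ | ∃ y : AB, y.shape = t ∧ y.IsAng ∧ y.vol = W} V ∧
  Tendsto (fun N : ℕ => 2 * π * (Real.log ‖JT t N‖ / N)) atTop (𝓝 V)

/-- everything about a type -/
def TOK (n : ℕ) (a : ℤ) : Prop := ∃ (z₀ : ℂ) (S : ℂ → ℂ → ℂ), GEOS z₀ S ∧ ∀ g : ℝ, 0 < g →
  ∃ (U : Set ℂ) (P : ℕ → (ℕ → ℂ → ℂ) → (ℂ → ℂ) → Prop) (C : (ℕ → ℂ → ℂ) → (ℂ → ℂ) → Prop)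
    (r₂ c₁ C₁ : ℝ), 0 < r₂ ∧ 0 < c₁ ∧ 0 < C₁ ∧
    (KPG n a z₀ g S U P C r₂ c₁ C₁ ∨ (n = 1 ∧ LPG a z₀ g S r₂ c₁ C₁)) ∧
    (Rt n a → KPG n a z₀ g S U P C r₂ c₁ C₁ ∧ RTG n a z₀ g U P)

end

variable {Ty Rt : ℕ → ℤ → Prop}

lemma tok_of_krk {n : ℕ} {a : ℤ} (h : KRK n a) : TOK Rt n a := by
  obtain ⟨z₀, S, h1, h2⟩ := h
  refine ⟨z₀, S, h1, fun g hg => ?_⟩
  obtain ⟨U, P, C, r₂, c₁, C₁, h3, h4⟩ := h2 g hg
  exact ⟨U, P, C, r₂, c₁, C₁, h3.hr₂, h3.hc₁, h3.hC₁, Or.inl h3, fun _ => ⟨h3, h4⟩⟩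

lemma tok_of_kok {n : ℕ} {a : ℤ} (h : KOK n a) (hr : ¬ Rt n a) : TOK Rt n a := by
  obtain ⟨z₀, S, h1, h2⟩ := h
  refine ⟨z₀, S, h1, fun g hg => ?_⟩
  obtain ⟨U, P, C, r₂, c₁, C₁, h3⟩ := h2 g hg
  exact ⟨U, P, C, r₂, c₁, C₁, h3.hr₂, h3.hc₁, h3.hC₁, Or.inl h3, fun h => absurd h hr⟩

lemma tok_of_lok {a : ℤ} (h : LOK a) (hr : ¬ Rt 1 a) : TOK Rt 1 a := by
  obtain ⟨z₀, S, h1, h2⟩ := h
  refine ⟨z₀, S, h1, fun g hg => ?_⟩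
  obtain ⟨r₂, c₁, C₁, h3, h4, h5, h6⟩ := h2 g hg
  exact ⟨∅, fun _ _ _ => True, fun _ _ => True, r₂, c₁, C₁, h3, h4, h5, Or.inr ⟨rfl, h6⟩,
    fun h => absurd h hr⟩

/-! ### The induction -/

/-- the induction, abstract -/
theorem main_ind2 {Ty : ℕ → ℤ → Prop} {kf : Bool → ℕ → ℤ → ℕ} {K : ℝ}
    {Pv Pu Hv Hu : Tb → Prop} {Pz Hz : ℕ → Tb → Prop}
    (v0 : ∀ b a, Pv (.vx b a)) (u0 : ∀ b a, Pu (.vx b a))
    (z0 : ∀ k b a, Pz k (.vx b a))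
    (v1 : ∀ t c, Pv t → Hv c → Pv (.br t c))
    (u1 : ∀ t c, Pu t → Hu c → Pu (.br t c))
    (z1 : ∀ k t c, Pz k t → Hz k c → Pz k (.br t c))
    (uv : ∀ c, Hu c → Hv c)
    (ub : ∀ c : Tb, Tb.BigV K c.bl (c.nc + 1) c.wt → Pv c → Hu c)
    (uh : ∀ c : Tb, c.bl = false → Ty (c.nc + 1) c.wt → kf c.bl (c.nc + 1) c.wt = 0 →
      Pu c → Hu c)
    (kb : ∀ k, (∃ b n a, kf b n a = k) → k ≠ 0 → ∀ c : Tb, Tb.BigV K c.bl (c.nc + 1) c.wt →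
      Pv c → Hz k c)
    (vh : ∀ c : Tb, c.bl = false → Ty (c.nc + 1) c.wt → kf c.bl (c.nc + 1) c.wt ≠ 0 →
      Pz (kf c.bl (c.nc + 1) c.wt) c → Hv c) (t : Tb) :
    (OkT2 Ty K true t → Pv t) ∧ (OkT2 Ty K false t → Pu t) ∧
      ∀ k, (∃ b n a, kf b n a = k) → k ≠ 0 → OkT2 Ty K false t → Pz k t := by
  induction t with
  | vx b a => exact ⟨fun _ => v0 b a, fun _ => u0 b a, fun k _ _ _ => z0 k b a⟩
  | br t c iht ihc =>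
    refine ⟨?_, ?_, ?_⟩
    · rintro ⟨h1, h2⟩
      refine v1 t c (iht.1 h1) ?_
      rcases h2 with ⟨h3, h4⟩ | ⟨-, ⟨h4, h4'⟩, h5⟩
      · exact uv c (ub c h3 (ihc.1 h4))
      · by_cases h6 : kf c.bl (c.nc + 1) c.wt = 0
        · exact uv c (uh c h4 h4' h6 (ihc.2.1 h5))
        · exact vh c h4 h4' h6 (ihc.2.2 _ ⟨_, _, _, rfl⟩ h6 h5)
    · rintro ⟨h1, h2⟩
      refine u1 t c (iht.2.1 h1) ?_
      rcases h2 with ⟨h3, h4⟩ | ⟨h3, -, -⟩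
      · exact ub c h3 (ihc.1 h4)
      · exact absurd h3 (by simp)
    · rintro k hk hk0 ⟨h1, h2⟩
      refine z1 k t c (iht.2.2 k hk hk0 h1) ?_
      rcases h2 with ⟨h3, h4⟩ | ⟨h3, -, -⟩
      · exact kb k hk hk0 c h3 (ihc.1 h4)
      · exact absurd h3 (by simp)

section

variable {kf : Bool → ℕ → ℤ → ℕ} {cen : ℕ → ℂ} {S : ℕ → ℂ → ℂ → ℂ} {s : ℂ → ℂ → ℂ} {q : CQ}

/-- a large child or a child with a circle of a vertex near `0` -/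
lemma hu_big2 {K r₀ : ℝ} (hr₀ : r₀ ≤ 1 / 10) (ha : q.a₀ ≤ q.ρ₀) (hb : q.b₀ ≤ q.τ₀)
    (hkid : ∀ (t : ℕ) (X : ℕ → ℂ → ℂ) (F : ℂ → ℂ),
      GoodV q.a₀ q.b₀ q.κ₁ q.c₁ q.C₁ t X F →
      ∀ (b : Bool) (a : ℤ), (b = false → K ^ 2 ≤ ((t + 1 : ℕ) : ℝ) ^ 2 + (a : ℝ) ^ 2) →
      ∃ (F' zs : ℂ → ℂ),
        GoodU q.ρ₀ q.τ₀ q.κ₀ q.ε₀ s 1 (stpb b a X) F' ∧
        ∀ ψ ∈ Rc (3 * q.ρ₀) (3 * q.τ₀), zs ψ ∈ Rc (3 * q.a₀) (3 * q.b₀) ∧ ‖zs ψ‖ ≤ r₀ ∧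
          (b = true → zs ψ = 0) ∧
          (b = false → CPu q.a₀ q.b₀ r₀ (zs ψ) ∧ Complex.I * a * zs ψ / (2 * π) + Complex.I +
            deriv F (zs ψ) + deriv (fun w => s w ψ) (zs ψ) = 0) ∧
          F' ψ = vt b a (zs ψ) + F (zs ψ) + s (zs ψ) ψ ∧
          HasDerivAt F' (deriv (fun w => s (zs ψ) w) ψ) ψ) {c : Tb}
    (hk : kf c.bl (c.nc + 1) c.wt = 0)
    (hbig : Tb.BigV K c.bl (c.nc + 1) c.wt) (hv : QV kf cen S s q c) :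
    HU kf cen S s q c := by
  obtain ⟨F, a1, a2⟩ := hv
  obtain ⟨F', zs, b1, b2⟩ := hkid c.nc (XX c) F a1 c.bl c.wt hbig
  refine ⟨F', b1, fun ψ hψ => ?_⟩
  obtain ⟨c1, c2, c3, c4, c5, c6⟩ := b2 ψ hψ
  exact cfc_00' hk (a2 _ c1) c3 (fun hf => ⟨cpu_mono (c4 hf).1 ha hb hr₀, (c4 hf).2⟩) c5 c6

/-- the root is near `0` -/
lemma rt_02 {t : Tb} (hk : kf t.bl t.nc t.wt = 0) {F : ℂ → ℂ} {z : ℂ}
    (hcf : CfP' kf cen S s q.ρ₀ q.τ₀ q.g 0 t F z) (h1 : t.bl = true → z = 0)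
    (h2 : t.bl = false → CPu q.ρ₀ q.τ₀ (1 / 10) z ∧
      Complex.I * t.wt * z / (2 * π) + Complex.I + deriv F z = 0) :
    ∃ p : PB, p.shape = t ∧
      CG kf cen S s q.ρ₀ q.τ₀ q.g (kf p.bl p.nc p.wt) p ∧
      VCG cen q.ρ₀ q.τ₀ q.g (kf p.bl p.nc p.wt) p.bl p.wt p.rz
        (gg kf S s (kf p.bl p.nc p.wt) p) ∧
      vt p.bl p.wt p.rz + vg kf S s (kf p.bl p.nc p.wt) p = vt t.bl t.wt z + F z := by
  obtain ⟨p, q1, q2, q3, q4, q5⟩ := hcf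
  have ew : p.wt = t.wt := by rw [← pb_wt p, q1]
  have eb : p.bl = t.bl := by rw [← pb_bl p, q1]
  have en : p.nc = t.nc := by rw [← shape_nc p, q1]
  have e1 : kf p.bl p.nc p.wt = 0 := by rw [ew, eb, en, hk]
  refine ⟨p, q1, ?_, ?_, ?_⟩
  · rw [e1]
    exact q3
  · rw [e1, eb, ew, q2]
    refine ⟨fun _ => ⟨h1, fun hb => ⟨(h2 hb).1, ?_⟩⟩, fun h => absurd rfl h⟩
    rw [← q5.deriv]
    exact (h2 hb).2
  · rw [e1, eb, ew, q2, ← q4]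

/-- the root is small -/
lemma rt_k2 {t : Tb} {k : ℕ} (hk0 : k ≠ 0) (hk : kf t.bl t.nc t.wt = k) (hb : t.bl = false)
    {Φ : ℂ → ℂ} {z : ℂ}
    (hcf : CfP' kf cen S s q.ρ₀ q.τ₀ q.g k t Φ z) (h1 : ‖z - cen k‖ ≤ q.g)
    (h2 : Complex.I * t.wt * z / (2 * π) + Complex.I + deriv Φ z = 0) :
    ∃ p : PB, p.shape = t ∧
      CG kf cen S s q.ρ₀ q.τ₀ q.g (kf p.bl p.nc p.wt) p ∧
      VCG cen q.ρ₀ q.τ₀ q.g (kf p.bl p.nc p.wt) p.bl p.wt p.rz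
        (gg kf S s (kf p.bl p.nc p.wt) p) ∧
      vt p.bl p.wt p.rz + vg kf S s (kf p.bl p.nc p.wt) p = qq t.wt Φ z := by
  obtain ⟨p, q1, q2, q3, q4, q5⟩ := hcf
  have ew : p.wt = t.wt := by rw [← pb_wt p, q1]
  have eb : p.bl = t.bl := by rw [← pb_bl p, q1]
  have en : p.nc = t.nc := by rw [← shape_nc p, q1]
  have e1 : kf p.bl p.nc p.wt = k := by rw [ew, eb, en, hk]
  refine ⟨p, q1, ?_, ?_, ?_⟩
  · rw [e1]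
    exact q3
  · rw [e1, eb, ew, q2]
    refine ⟨fun h => absurd h hk0, fun _ => ⟨h1, ?_⟩⟩
    rw [← q5.deriv]
    exact h2
  · rw [e1, eb, ew, q2, ← q4, hb]
    simp [vt, qq]

/-- a small child -/
lemma hv_small2 {a : ℤ} {k : ℕ} {zs F Φ : ℂ → ℂ} (hk0 : k ≠ 0)
    (hg : 3 * q.a₀ + 3 * q.b₀ ≤ q.g) {c : Tb} (hb : c.bl = false)
    (hk : kf c.bl (c.nc + 1) c.wt = k) (ha : a = c.wt)
    (b1 : GoodV q.a₀ q.b₀ q.κ₁ q.c₁ q.C₁ 1 (stp a (XX c)) F)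
    (b2 : ∀ ψ ∈ Rc (3 * q.a₀) (3 * q.b₀), ‖zs ψ - cen k‖ ≤ q.g ∧
      CfP' kf cen S s q.ρ₀ q.τ₀ q.g k c Φ (zs ψ) ∧
        Complex.I * a * zs ψ / (2 * π) + Complex.I + deriv Φ (zs ψ) +
          deriv (fun w => S k ψ w) (zs ψ) = 0 ∧
        F ψ = qq a Φ (zs ψ) + S k ψ (zs ψ) ∧
        HasDerivAt F (deriv (fun w => S k w (zs ψ)) ψ) ψ) : HV kf cen S s q c := by
  refine ⟨F, ?_, fun ψ hψ => ?_⟩
  · rw [stpb_false hb, ← ha]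
    exact b1
  · obtain ⟨c1, c2, c3, c4, c5⟩ := b2 ψ hψ
    have hψ' : ‖ψ‖ ≤ q.g := by
      refine (Complex.norm_le_abs_re_add_abs_im ψ).trans ?_
      have h1 := hψ.1
      have h2 := hψ.2
      linarith
    rw [ha] at c3 c4
    exact cfc_0k' hk0 hk hb c2 hψ' c1 c3 c4 c5

end

lemma leaf_of {c : Tb} (h : c.nc + 1 = 1) : XX c = fun _ _ => 1 := by
  cases c with
  | vx b a => rfl
  | br t c =>
    exfalso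
    have : (Tb.br t c).nc = t.nc + 1 := rfl
    omega

lemma leaf_cf {kf : Bool → ℕ → ℤ → ℕ} {cen : ℕ → ℂ} {S : ℕ → ℂ → ℂ → ℂ} {s : ℂ → ℂ → ℂ}
    {ρ₀ τ₀ g : ℝ} {c : Tb} (h : c.nc + 1 = 1) (k : ℕ) (φ : ℂ) :
    CfP' kf cen S s ρ₀ τ₀ g k c (fun _ => 0) φ := by
  cases c with
  | vx b a => exact cfp_zero' k b a φ
  | br t c =>
    exfalso
    have : (Tb.br t c).nc = t.nc + 1 := rfl
    omega

/-! ### The main theorem -/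

theorem main2 (hVF : S_VF) (hVT : S_VT) (hT : ∀ n a, Ty n a → 1 ≤ n → TOK Rt n a)
    (hRT : S_ROOT) (hGE : S_GEOG) : S_FIN2 Ty Rt := by
  classical
  have hπ := Real.pi_pos
  obtain ⟨ρ₀, τ₀, κ₀, c₀, s, dl, hK⟩ := Pool.Agent.W719.AR.f_KER
  have hρ₀ := hK.hρ.1
  have hτ₀ := hK.hτ.1
  have hc₀ := hK.hc
  have hκ₀ := hK.hκ.1
  obtain ⟨C₀, hC₀⟩ := hK.sbd
  have h00 : (0 : ℂ) ∈ Rc (3 * ρ₀) (3 * τ₀) := by
    refine ⟨?_, ?_⟩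
    · rw [Complex.zero_re, abs_zero]; linarith
    · rw [Complex.zero_im, abs_zero]; linarith
  have hC00 : 0 ≤ C₀ := (norm_nonneg _).trans (hC₀ 0 h00 0 h00)
  obtain ⟨ε₀, hε₀, hε₁, hε₂⟩ : ∃ ε₀ : ℝ, 0 < ε₀ ∧ ε₀ ≤ 1 ∧ ε₀ ≤ c₀ * τ₀ ^ 2 / 16 :=
    ⟨min 1 (c₀ * τ₀ ^ 2 / 16), lt_min one_pos (by positivity), min_le_left _ _, min_le_right _ _⟩
  obtain ⟨p0, p1⟩ := f_PRU ρ₀ τ₀ κ₀ c₀ s dl hK ε₀ hε₀
  obtain ⟨Cs, hEs⟩ := ed_s hK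
  -- the types
  have htype : ∀ k : ℕ, ∃ (z₀ : ℂ) (S : ℂ → ℂ → ℂ), Ty (nk2 k) (ak2 k) → 1 ≤ nk2 k →
      GEOS z₀ S ∧ ∀ g : ℝ, 0 < g →
      ∃ (U : Set ℂ) (P : ℕ → (ℕ → ℂ → ℂ) → (ℂ → ℂ) → Prop) (C : (ℕ → ℂ → ℂ) → (ℂ → ℂ) → Prop)
        (r₂ c₁ C₁ : ℝ), 0 < r₂ ∧ 0 < c₁ ∧ 0 < C₁ ∧
        (KPG (nk2 k) (ak2 k) z₀ g S U P C r₂ c₁ C₁ ∨
          (nk2 k = 1 ∧ LPG (ak2 k) z₀ g S r₂ c₁ C₁)) ∧
        (Rt (nk2 k) (ak2 k) → KPG (nk2 k) (ak2 k) z₀ g S U P C r₂ c₁ C₁ ∧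
          RTG (nk2 k) (ak2 k) z₀ g U P) := by
    intro k
    by_cases hk : Ty (nk2 k) (ak2 k) ∧ 1 ≤ nk2 k
    · obtain ⟨z₀, S, h1, h2⟩ := hT _ _ hk.1 hk.2
      exact ⟨z₀, S, fun _ _ => ⟨h1, h2⟩⟩
    · exact ⟨0, fun _ _ => 0, fun h1 h2 => absurd ⟨h1, h2⟩ hk⟩
  choose cen S hS using htype
  -- the medium vertices
  have hCl : 0 < 8 * (1 + 3 * C₀) / τ₀ ^ 2 := by positivity
  obtain ⟨KM, hKM0, hmed⟩ := kidl hVF hVT hK hε₀ hEs (r₀ := 1 / 10) (by norm_num)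
    (κ₁ := κ₀) (c₁ := c₀ / 2) (C₁ := 8 * (1 + 3 * C₀) / τ₀ ^ 2) hκ₀ (by positivity) hCl le_rfl
    le_rfl
  obtain ⟨KR, hKR0, hroM⟩ := hRT ρ₀ τ₀ κ₀ (c₀ / 2) (8 * (1 + 3 * C₀) / τ₀ ^ 2) hρ₀ hK.hρ.2 hτ₀
    hK.hτ.2 hκ₀ (by positivity) hCl (1 / 10) (by norm_num)
  obtain ⟨K₀, hK₀0, hK₀M, hK₀R⟩ : ∃ K₀ : ℝ, 0 < K₀ ∧ KM ≤ K₀ ∧ KR ≤ K₀ :=
    ⟨max KM KR, lt_max_of_lt_left hKM0, le_max_left _ _, le_max_right _ _⟩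
  obtain ⟨D, hD0, hD⟩ := kf2_lt (Ty := Ty) K₀
  have hadm : ∀ b n a, kf2 Ty K₀ b n a ≠ 0 → Ty (nk2 (kf2 Ty K₀ b n a)) (ak2 (kf2 Ty K₀ b n a)) ∧
      1 ≤ nk2 (kf2 Ty K₀ b n a) := by
    intro b n a hk
    obtain ⟨-, h1, h2, h3, h4⟩ := kf2_spec hk
    rw [h1, h2]
    exact ⟨h3, h4⟩
  -- geometry
  obtain ⟨g, hg, hgeo⟩ := hGE ρ₀ τ₀ κ₀ c₀ s dl hK (kf2 Ty K₀) cen S D (kf2_true Ty K₀) hD
    (fun b n a hk => (hS _ (hadm b n a hk).1 (hadm b n a hk).2).1)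
  -- the packages
  have hhub : ∀ k : ℕ, ∃ (U : Set ℂ) (P : ℕ → (ℕ → ℂ → ℂ) → (ℂ → ℂ) → Prop)
      (C : (ℕ → ℂ → ℂ) → (ℂ → ℂ) → Prop) (r₂ c₁ C₁ : ℝ), 0 < r₂ ∧ 0 < c₁ ∧ 0 < C₁ ∧
      (Ty (nk2 k) (ak2 k) → 1 ≤ nk2 k →
        (KPG (nk2 k) (ak2 k) (cen k) g (S k) U P C r₂ c₁ C₁ ∨
          (nk2 k = 1 ∧ LPG (ak2 k) (cen k) g (S k) r₂ c₁ C₁)) ∧
        (Rt (nk2 k) (ak2 k) → KPG (nk2 k) (ak2 k) (cen k) g (S k) U P C r₂ c₁ C₁ ∧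
          RTG (nk2 k) (ak2 k) (cen k) g U P)) := by
    intro k
    by_cases hk : Ty (nk2 k) (ak2 k) ∧ 1 ≤ nk2 k
    · obtain ⟨U, P, C, r₂, c₁, C₁, h1, h2, h3, h4⟩ := (hS k hk.1 hk.2).2 g hg
      exact ⟨U, P, C, r₂, c₁, C₁, h1, h2, h3, fun _ _ => h4⟩
    · exact ⟨∅, fun _ _ _ => True, fun _ _ => True, 1, 1, 1, one_pos, one_pos, one_pos,
        fun h1 h2 => absurd ⟨h1, h2⟩ hk⟩
  choose U P C r₂ cs Cs' hr₂ hcs hCs hh using hhub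
  -- the small scale
  obtain ⟨e1, he10, he1⟩ := fin_pos (range D) r₂ (fun k _ => hr₂ k)
  obtain ⟨e, he0, he3, heρ, heτ, heg⟩ : ∃ e : ℝ, 0 < e ∧ 3 * e ≤ e1 ∧ e ≤ ρ₀ ∧ e ≤ τ₀ ∧
      3 * e + 3 * e ≤ g := by
    refine ⟨min (e1 / 3) (min (min ρ₀ τ₀) (g / 6)), ?_, ?_, ?_, ?_, ?_⟩
    · exact lt_min (by positivity) (lt_min (lt_min hρ₀ hτ₀) (by positivity))
    · have := min_le_left (e1 / 3) (min (min ρ₀ τ₀) (g / 6))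
      linarith
    · exact (min_le_right _ _).trans ((min_le_left _ _).trans (min_le_left _ _))
    · exact (min_le_right _ _).trans ((min_le_left _ _).trans (min_le_right _ _))
    · have : min (e1 / 3) (min (min ρ₀ τ₀) (g / 6)) ≤ g / 6 :=
        (min_le_right _ _).trans (min_le_right _ _)
      linarith
  have he14 : e ≤ 1 / 4 := heρ.trans hK.hρ.2
  have he3k : ∀ k, k < D → 3 * e ≤ r₂ k := fun k hk => he3.trans (he1 k (mem_range.2 hk))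
  have hstep : ∀ k : ℕ, ∃ κ₁ : ℝ, 0 < κ₁ ∧ (k < D →
      (KPG (nk2 k) (ak2 k) (cen k) g (S k) (U k) (P k) (C k) (r₂ k) (cs k) (Cs' k) →
      ∀ (X : ℕ → ℂ → ℂ) (Φ : ℂ → ℂ), P k (nk2 k - 1) X Φ → ∃ F zs : ℂ → ℂ,
      GoodV e e κ₁ (cs k) (Cs' k) 1 (stp (ak2 k) X) F ∧
      ∀ ψ ∈ Rc (3 * e) (3 * e), ‖zs ψ - cen k‖ ≤ g ∧ zs ψ ∈ U k ∧
        Complex.I * (ak2 k) * zs ψ / (2 * π) + Complex.I + deriv Φ (zs ψ) +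
          deriv (fun w => S k ψ w) (zs ψ) = 0 ∧
        F ψ = qq (ak2 k) Φ (zs ψ) + S k ψ (zs ψ) ∧
        HasDerivAt F (deriv (fun w => S k w (zs ψ)) ψ) ψ) ∧
      (LPG (ak2 k) (cen k) g (S k) (r₂ k) (cs k) (Cs' k) → ∃ F zs : ℂ → ℂ,
      GoodV e e κ₁ (cs k) (Cs' k) 1 (stp (ak2 k) fun _ _ => 1) F ∧
      ∀ ψ ∈ Rc (3 * e) (3 * e), ‖zs ψ - cen k‖ ≤ g ∧
        Complex.I * (ak2 k) * zs ψ / (2 * π) + Complex.I + deriv (fun w => S k ψ w) (zs ψ) = 0 ∧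
        F ψ = qq (ak2 k) (fun _ => 0) (zs ψ) + S k ψ (zs ψ) ∧
        HasDerivAt F (deriv (fun w => S k w (zs ψ)) ψ) ψ)) := by
    intro k
    by_cases hkD : k < D
    · obtain ⟨κa, ha0, ha⟩ : ∃ κ₁ : ℝ, 0 < κ₁ ∧
          (KPG (nk2 k) (ak2 k) (cen k) g (S k) (U k) (P k) (C k) (r₂ k) (cs k) (Cs' k) →
          ∀ (X : ℕ → ℂ → ℂ) (Φ : ℂ → ℂ), P k (nk2 k - 1) X Φ → ∃ F zs : ℂ → ℂ,
          GoodV e e κ₁ (cs k) (Cs' k) 1 (stp (ak2 k) X) F ∧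
          ∀ ψ ∈ Rc (3 * e) (3 * e), ‖zs ψ - cen k‖ ≤ g ∧ zs ψ ∈ U k ∧
            Complex.I * (ak2 k) * zs ψ / (2 * π) + Complex.I + deriv Φ (zs ψ) +
              deriv (fun w => S k ψ w) (zs ψ) = 0 ∧
            F ψ = qq (ak2 k) Φ (zs ψ) + S k ψ (zs ψ) ∧
            HasDerivAt F (deriv (fun w => S k w (zs ψ)) ψ) ψ) := by
        by_cases h : KPG (nk2 k) (ak2 k) (cen k) g (S k) (U k) (P k) (C k) (r₂ k) (cs k) (Cs' k)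
        · obtain ⟨κ₁, h1, h2⟩ := h.step e e he0 le_rfl (he3k k hkD)
          exact ⟨κ₁, h1, fun _ => h2⟩
        · exact ⟨1, one_pos, fun h' => absurd h' h⟩
      obtain ⟨κb, hb0, hb⟩ : ∃ κ₁ : ℝ, 0 < κ₁ ∧
          (LPG (ak2 k) (cen k) g (S k) (r₂ k) (cs k) (Cs' k) → ∃ F zs : ℂ → ℂ,
          GoodV e e κ₁ (cs k) (Cs' k) 1 (stp (ak2 k) fun _ _ => 1) F ∧
          ∀ ψ ∈ Rc (3 * e) (3 * e), ‖zs ψ - cen k‖ ≤ g ∧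
            Complex.I * (ak2 k) * zs ψ / (2 * π) + Complex.I +
              deriv (fun w => S k ψ w) (zs ψ) = 0 ∧
            F ψ = qq (ak2 k) (fun _ => 0) (zs ψ) + S k ψ (zs ψ) ∧
            HasDerivAt F (deriv (fun w => S k w (zs ψ)) ψ) ψ) := by
        by_cases h : LPG (ak2 k) (cen k) g (S k) (r₂ k) (cs k) (Cs' k)
        · obtain ⟨κ₁, h1, h2⟩ := h e e he0 le_rfl (he3k k hkD)
          exact ⟨κ₁, h1, fun _ => h2⟩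
        · exact ⟨1, one_pos, fun h' => absurd h' h⟩
      refine ⟨min κa κb, lt_min ha0 hb0, fun _ => ⟨fun h X Φ hX => ?_, fun h => ?_⟩⟩
      · obtain ⟨F, zs, h1, h2⟩ := ha h X Φ hX
        exact ⟨F, zs, gv_mono h1 (min_le_left _ _) le_rfl le_rfl, h2⟩
      · obtain ⟨F, zs, h1, h2⟩ := hb h
        exact ⟨F, zs, gv_mono h1 (min_le_right _ _) le_rfl le_rfl, h2⟩
    · exact ⟨1, one_pos, fun h1 => absurd h1 hkD⟩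
  choose κk₁ hκk hst using hstep
  obtain ⟨km, hkm0, hkm⟩ := fin_pos (range D) κk₁ (fun k _ => hκk k)
  obtain ⟨cm, hcm0, hcm⟩ := fin_pos (range D) cs (fun k _ => hcs k)
  obtain ⟨CM, hCM0, hCM⟩ := fin_bdd (range D) Cs'
  obtain ⟨c₁, hc₁0, hc₁m, hc₁c⟩ : ∃ c₁ : ℝ, 0 < c₁ ∧ c₁ ≤ cm ∧ c₁ ≤ c₀ / 2 :=
    ⟨min cm (c₀ / 2), lt_min hcm0 (by positivity), min_le_left _ _, min_le_right _ _⟩
  obtain ⟨κs, hκs0, hκsm, hκs₀, hκse⟩ : ∃ κs : ℝ, 0 < κs ∧ κs ≤ km ∧ κs ≤ κ₀ ∧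
      κs / 2 < c₀ / 2 / 2 * e ^ 2 := by
    refine ⟨min km (min κ₀ (c₀ / 4 * e ^ 2)), ?_, min_le_left _ _,
      (min_le_right _ _).trans (min_le_left _ _), ?_⟩
    · exact lt_min hkm0 (lt_min hκ₀ (by positivity))
    · have h1 : min km (min κ₀ (c₀ / 4 * e ^ 2)) ≤ c₀ / 4 * e ^ 2 :=
        (min_le_right _ _).trans (min_le_right _ _)
      have h2 : 0 < c₀ * e ^ 2 := by positivity
      linarith
  obtain ⟨C₁, hC₁0, hC₁M, hC₁c⟩ : ∃ C₁ : ℝ, 0 < C₁ ∧ CM ≤ C₁ ∧ 8 * (1 + 3 * C₀) / τ₀ ^ 2 ≤ C₁ :=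
    ⟨max CM (8 * (1 + 3 * C₀) / τ₀ ^ 2), lt_max_of_lt_left hCM0, le_max_left _ _, le_max_right _ _⟩
  obtain ⟨r₀, hr₀0, hr₀a, hr₀g⟩ : ∃ r₀ : ℝ, 0 < r₀ ∧ r₀ ≤ 1 / 10 ∧ r₀ ≤ g :=
    ⟨min (1 / 10) g, lt_min (by norm_num) hg, min_le_left _ _, min_le_right _ _⟩
  -- the large vertices
  obtain ⟨κe, hκe0, hκe1, hκe2⟩ : ∃ κe : ℝ, 0 < κe ∧ κe ≤ κ₀ ∧ κe < c₀ / 2 * e ^ 2 := by
    refine ⟨min κ₀ (c₀ / 4 * e ^ 2), lt_min hκ₀ (by positivity), min_le_left _ _, ?_⟩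
    have h1 : min κ₀ (c₀ / 4 * e ^ 2) ≤ c₀ / 4 * e ^ 2 := min_le_right _ _
    have h2 : 0 < c₀ * e ^ 2 := by positivity
    linarith
  have hEs2 := ed_restrict hEs he0 heρ he0 heτ le_rfl hκe0 hκe1 hκe2
  obtain ⟨KA, hKA0, hkidA⟩ := kidl hVF hVT hK hε₀ hEs2 hr₀0 hκs0 hc₁0 hC₁0 heρ heτ
  have hkidk : ∀ k : ℕ, ∃ K : ℝ, 0 < K ∧ (k < D →
      KPG (nk2 k) (ak2 k) (cen k) g (S k) (U k) (P k) (C k) (r₂ k) (cs k) (Cs' k) →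
      ∀ (t : ℕ) (X : ℕ → ℂ → ℂ) (F : ℂ → ℂ), GoodV e e κs c₁ C₁ t X F →
      ∀ (b : Bool) (a' : ℤ), (b = false → K ^ 2 ≤ ((t + 1 : ℕ) : ℝ) ^ 2 + (a' : ℝ) ^ 2) →
      ∃ F' zs : ℂ → ℂ, C k (stpb b a' X) F' ∧
        ∀ φ ∈ U k, zs φ ∈ Rc (3 * e) (3 * e) ∧ ‖zs φ‖ ≤ r₀ ∧ (b = true → zs φ = 0) ∧
          (b = false → CPu e e r₀ (zs φ) ∧ Complex.I * a' * zs φ / (2 * π) + Complex.I +
            deriv F (zs φ) + deriv (fun w => S k w φ) (zs φ) = 0) ∧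
          F' φ = vt b a' (zs φ) + F (zs φ) + S k (zs φ) φ ∧
          HasDerivAt F' (deriv (fun w => S k (zs φ) w) φ) φ) := by
    intro k
    by_cases hk : k < D ∧
        KPG (nk2 k) (ak2 k) (cen k) g (S k) (U k) (P k) (C k) (r₂ k) (cs k) (Cs' k)
    · obtain ⟨K, hK0, h1⟩ := hk.2.kid e r₀ κs c₁ C₁ he0 (he3k k hk.1) hr₀0 hκs0 hc₁0 hC₁0
      exact ⟨K, hK0, fun _ _ => h1⟩
    · exact ⟨1, one_pos, fun h1 h2 => absurd ⟨h1, h2⟩ hk⟩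
  choose Kk hKk0 hkidk using hkidk
  obtain ⟨KZ, hKZ0, hKZ⟩ := fin_bdd (range D) Kk
  -- the last step
  obtain ⟨KL, hKL0, hlast⟩ := hRT e e κs c₁ C₁ he0 he14 he0 le_rfl hκs0 hc₁0 hC₁0 r₀ hr₀0
  obtain ⟨K, hKK₀, hKA, hKZ', hKL⟩ : ∃ K : ℝ, K₀ ≤ K ∧ KA ≤ K ∧ KZ ≤ K ∧ KL ≤ K :=
    ⟨max (max K₀ KA) (max KZ KL), (le_max_left _ _).trans (le_max_left _ _),
      (le_max_right _ _).trans (le_max_left _ _), (le_max_left _ _).trans (le_max_right _ _),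
      (le_max_right _ _).trans (le_max_right _ _)⟩
  have hK0 : 0 < K := hK₀0.trans_le hKK₀
  -- the induction
  obtain ⟨q, hq⟩ : ∃ q : CQ, q = ⟨ρ₀, τ₀, κ₀, ε₀, e, e, κs, c₁, C₁, g⟩ := ⟨_, rfl⟩
  have hind := fun t => main_ind2 (Ty := Ty) (kf := kf2 Ty K₀) (K := K)
    (Pv := QV (kf2 Ty K₀) cen S s q) (Pu := QU (kf2 Ty K₀) cen S s q)
    (Hv := HV (kf2 Ty K₀) cen S s q) (Hu := HU (kf2 Ty K₀) cen S s q)
    (Pz := fun k t => KPG (nk2 k) (ak2 k) (cen k) g (S k) (U k) (P k) (C k) (r₂ k) (cs k) (Cs' k) →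
      ∃ Φ : ℂ → ℂ, P k t.nc (XX t) Φ ∧ ∀ φ ∈ U k, CfP' (kf2 Ty K₀) cen S s ρ₀ τ₀ g k t Φ φ)
    (Hz := fun k c => KPG (nk2 k) (ak2 k) (cen k) g (S k) (U k) (P k) (C k) (r₂ k) (cs k) (Cs' k) →
      ∃ F' : ℂ → ℂ, C k (stpb c.bl c.wt (XX c)) F' ∧
        ∀ φ ∈ U k, CfC' (kf2 Ty K₀) cen S s ρ₀ τ₀ g k c F' φ)
    (by rw [hq]; exact fun b a => qv_zero he0 he0 b a)
    (by rw [hq]; exact fun b a => qu_zero p0 b a)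
    (fun k b a h => ⟨fun _ => 0, h.zero, fun φ _ => cfp_zero' k b a φ⟩)
    (by rw [hq]; exact fun t c h1 h2 => qv_succ he0 he0 h1 h2)
    (by rw [hq]; exact fun t c h1 h2 => qu_succ p1 h1 h2)
    (by
      intro k t c h1 h2 h
      obtain ⟨Φ, a1, a2⟩ := h1 h
      obtain ⟨F', b1, b2⟩ := h2 h
      exact ⟨fun φ => Φ φ + F' φ, h.succ _ _ _ _ _ a1 b1,
        fun φ hφ => cfp_succ' (a2 φ hφ) (b2 φ hφ)⟩)
    (by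
      rw [hq]
      exact fun c h1 => hv_of_hu hK hε₁ hε₂ hC₀ he0 he0 heρ heτ hκs₀ hκse hc₁c hC₁c h1)
    (by
      rw [hq]
      intro c h1 h2
      refine hu_big2 (K := KA) hr₀a heρ heτ hkidA (kf2_big hK₀0.le hKK₀ h1)
        (fun hf => (pow_le_pow_left₀ hKA0.le hKA 2).trans (h1 hf)) h2)
    (by
      rw [hq]
      intro c h1 h1' h2 h3
      have h4 := kf2_med h1 h1' (by omega) h2
      have h5 : KM ^ 2 ≤ K₀ ^ 2 := pow_le_pow_left₀ hKM0.le hK₀M 2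
      obtain ⟨F, a1, a2⟩ := h3
      have a1' := gv_of_gu hK hε₁ hε₂ hC₀ a1
      obtain ⟨F', zs, b1, b2⟩ := hmed c.nc (XX c) F a1' c.bl c.wt (fun _ => h5.trans h4)
      refine ⟨F', b1, fun ψ hψ => ?_⟩
      obtain ⟨c1, c2, c3, c4, c5, c6⟩ := b2 ψ hψ
      exact cfc_00' h2 (a2 _ c1) c3 (fun hf => c4 hf) c5 c6)
    (by
      rw [hq]
      rintro k ⟨b, n, a, rfl⟩ hk0 c h1 h2 hk
      have hkD := hD b n a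
      have hKk : Kk (kf2 Ty K₀ b n a) ≤ K := (hKZ _ (mem_range.2 hkD)).trans hKZ'
      obtain ⟨F, a1, a2⟩ := h2
      obtain ⟨F', zs, b1, b2⟩ := hkidk _ hkD hk c.nc (XX c) F a1 c.bl c.wt
        (fun hf => (pow_le_pow_left₀ (hKk0 _).le hKk 2).trans (h1 hf))
      refine ⟨F', b1, fun ψ hψ => ?_⟩
      obtain ⟨c1, c2, c3, c4, c5, c6⟩ := b2 ψ hψ
      exact cfc_k0' hk0 (kf2_big hK₀0.le hKK₀ h1) (a2 _ c1) (c2.trans hr₀g) c3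
        (fun hf => ⟨cpu_mono (c4 hf).1 heρ heτ hr₀a, (c4 hf).2⟩) c5 c6)
    (by
      intro c h1 h1' h2 h3
      obtain ⟨s1, s2, s3, s4, s5⟩ := kf2_spec h2
      have hkD := hD c.bl (c.nc + 1) c.wt
      obtain ⟨hpk, -⟩ := hh _ (hadm _ _ _ h2).1 (hadm _ _ _ h2).2
      have hmono : ∀ {X : ℕ → ℂ → ℂ} {F : ℂ → ℂ},
          GoodV e e (κk₁ (kf2 Ty K₀ c.bl (c.nc + 1) c.wt)) (cs (kf2 Ty K₀ c.bl (c.nc + 1) c.wt))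
            (Cs' (kf2 Ty K₀ c.bl (c.nc + 1) c.wt)) 1 X F → GoodV e e κs c₁ C₁ 1 X F :=
        fun h => gv_mono h (hκsm.trans (hkm _ (mem_range.2 hkD)))
          (hc₁m.trans (hcm _ (mem_range.2 hkD))) ((hCM _ (mem_range.2 hkD)).trans hC₁M)
      rcases hpk with hpk | ⟨hn1, hpk⟩
      · obtain ⟨Φ, a1, a2⟩ := h3 hpk
        have e1 : nk2 (kf2 Ty K₀ c.bl (c.nc + 1) c.wt) - 1 = c.nc := by rw [s2]; omega
        obtain ⟨F, zs, b1, b2⟩ := (hst _ hkD).1 hpk (XX c) Φ (by rw [e1]; exact a1)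
        rw [hq]
        refine hv_small2 (zs := zs) (Φ := Φ) (q := ⟨ρ₀, τ₀, κ₀, ε₀, e, e, κs, c₁, C₁, g⟩)
          h2 heg s1 rfl s3 (hmono b1) fun ψ hψ => ?_
        obtain ⟨c1, c2, c3, c4, c5⟩ := b2 ψ hψ
        exact ⟨c1, a2 _ c2, c3, c4, c5⟩
      · have hc1 : c.nc + 1 = 1 := by rw [← s2]; exact hn1
        obtain ⟨F, zs, b1, b2⟩ := (hst _ hkD).2 hpk
        rw [hq]
        refine hv_small2 (zs := zs) (Φ := fun _ => 0)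
          (q := ⟨ρ₀, τ₀, κ₀, ε₀, e, e, κs, c₁, C₁, g⟩) h2 heg s1 rfl s3
          (by rw [leaf_of hc1]; exact hmono b1) fun ψ hψ => ?_
        obtain ⟨c1, c3, c4, c5⟩ := b2 ψ hψ
        refine ⟨c1, leaf_cf hc1 _ _, ?_, c4, c5⟩
        rw [deriv_const, add_zero]
        exact c3) t
  -- the root
  refine ⟨K, hK0, ?_⟩
  intro t ht hnc
  have hfin : ∀ (p : PB) (v : ℂ), p.shape = t →
      CG (kf2 Ty K₀) cen S s ρ₀ τ₀ g (kf2 Ty K₀ p.bl p.nc p.wt) p →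
      VCG cen ρ₀ τ₀ g (kf2 Ty K₀ p.bl p.nc p.wt) p.bl p.wt p.rz
        (gg (kf2 Ty K₀) S s (kf2 Ty K₀ p.bl p.nc p.wt) p) →
      vt p.bl p.wt p.rz + vg (kf2 Ty K₀) S s (kf2 Ty K₀ p.bl p.nc p.wt) p = v →
      Tendsto (fun N : ℕ => Real.log ‖JT t N‖ / N) atTop (𝓝 v.re) → ∃ V : ℝ,
      IsGreatest {W : ℝ | ∃ y : AB, y.shape = t ∧ y.IsAng ∧ y.vol = W} V ∧
      Tendsto (fun N : ℕ => 2 * π * (Real.log ‖JT t N‖ / N)) atTop (𝓝 V) := by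
    intro p v h1 h2 h3 h4 h5
    have hpn : 1 ≤ p.nc := by rw [← shape_nc p, h1]; exact hnc
    have h6 := hgeo p h2 h3 hpn
    rw [h1, h4] at h6
    exact ⟨_, h6, h5.const_mul _⟩
  rcases ht with ⟨hbig, hok⟩ | ⟨⟨hbl, hty, hrt⟩, hok⟩
  · have h1 := (hind t).1 hok
    obtain ⟨F, a1, a2⟩ := h1
    rw [hq] at a1 a2
    obtain ⟨z, z1, z2, z3, z4, z5⟩ := hlast t.nc (XX t) F hnc a1 t.bl t.wt
      (fun hf => (pow_le_pow_left₀ hKL0.le hKL 2).trans (hbig hf))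
    obtain ⟨p, q1, q2, q3, q4⟩ := rt_02 (q := ⟨ρ₀, τ₀, κ₀, ε₀, e, e, κs, c₁, C₁, g⟩)
      (kf2_big hK₀0.le hKK₀ hbig) (a2 z z1) z3
      (fun hf => ⟨cpu_mono (z4 hf).1 heρ heτ hr₀a, (z4 hf).2⟩)
    exact hfin p _ q1 q2 q3 q4 z5
  · rcases Nat.eq_zero_or_pos (kf2 Ty K₀ t.bl t.nc t.wt) with hk | hk
    · have h1 := (hind t).2.1 hok
      obtain ⟨F, a1, a2⟩ := h1
      rw [hq] at a1 a2
      have h4 := kf2_med hbl hty hnc hk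
      have h5 : KR ^ 2 ≤ K₀ ^ 2 := pow_le_pow_left₀ hKR0.le hK₀R 2
      have a1' := gv_of_gu hK hε₁ hε₂ hC₀ a1
      obtain ⟨z, z1, z2, z3, z4, z5⟩ := hroM t.nc (XX t) F hnc a1' t.bl t.wt
        (fun _ => h5.trans h4)
      obtain ⟨p, q1, q2, q3, q4⟩ := rt_02 (q := ⟨ρ₀, τ₀, κ₀, ε₀, e, e, κs, c₁, C₁, g⟩)
        hk (a2 z z1) z3 z4
      exact hfin p _ q1 q2 q3 q4 z5
    · have hk0 : kf2 Ty K₀ t.bl t.nc t.wt ≠ 0 := hk.ne'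
      obtain ⟨s1, s2, s3, s4, s5⟩ := kf2_spec hk0
      obtain ⟨-, hrt2⟩ := hh _ (hadm _ _ _ hk0).1 (hadm _ _ _ hk0).2
      obtain ⟨hkp, hroot⟩ := hrt2 (by rw [s2, s3]; exact hrt)
      obtain ⟨Φ, a1, a2⟩ := (hind t).2.2 _ ⟨_, _, _, rfl⟩ hk0 hok hkp
      rw [s2, s3] at hroot
      obtain ⟨z, z1, z2, z3, z4⟩ := hroot (XX t) Φ a1
      obtain ⟨p, q1, q2, q3, q4⟩ := rt_k2 (q := ⟨ρ₀, τ₀, κ₀, ε₀, e, e, κs, c₁, C₁, g⟩)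
        hk0 rfl s1 (a2 z z2) z1 z3
      refine hfin p _ q1 q2 q3 q4 ?_
      have hJT : ∀ N, JT t N = upp (1 / N) fun φ => Ea t.wt N φ * XX t N φ * kr N φ := by
        intro N
        unfold JT
        rw [s1]
        congr 1
        funext φ
        unfold Eb
        simp
      simp only [hJT]
      exact z4

end Pool.Agent.N561
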