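import Pool.Agent.N561.V.Main2
import Pool.Agent.N561.V.Mir

/-!
# The packages of the small vertices with `a ≤ 0`, `4 ≤ n - a`
-/

set_option autoImplicit false
set_option maxHeartbeats 1000000

namespace Pool.Agent.N561

open Finset Filter Topology Metric
open Pool.Agent.W711.HT hiding XX
open Pool.Agent.TH563.UV
open Pool.Agent.TH563.V
open scoped Real

/-- the package -/
lemma kpr_of (hSM : S_SMALL) (hKS : S_KIDS) {n : ℕ} {a : ℤ} {z₀ : ℂ} {x₁ x₂ y₁ : ℝ} (hn : 1 ≤ n)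
    (hP : PathD n a z₀ x₁ x₂ y₁) : KPR n a z₀ sg := by
  intro g hg
  obtain ⟨h, ρ, τ, κ, c, C, r₂, c₁, C₁, hr₂, hc₁, hC₁, hk⟩ := kpk_of hSM hn hP hg
  refine ⟨h.U, fun j X Φ => ∃ XL f, PSm h.U h.x₁ h.τ₁ h.ε₁ h.ε₂ j X XL f Φ,
    fun Y Φ => ∃ YL f, PSm h.U h.x₁ h.τ₁ h.ε₁ h.ε₂ 1 Y YL f Φ, r₂, c₁, C₁, ?_, ?_⟩
  · refine ⟨hr₂, hc₁, hC₁, ⟨_, _, psm_zero⟩, ?_, ?_, ?_⟩
    · rintro j X Y Φ Φ' ⟨XL, f, h1⟩ ⟨YL, f', h2⟩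
      exact ⟨_, _, psm_succ h1 h2⟩
    · intro a₀ b₀ hb₀ hba ha₀
      obtain ⟨κ₁, hκ₁, h1⟩ := hk.step a₀ b₀ hb₀ hba ha₀
      exact ⟨κ₁, hκ₁, fun X Φ ⟨XL, f, h2⟩ => h1 X XL f Φ h2⟩
    · intro e r₀ κ₁ c' C' he0 he hr₀ hκ₁ hc' hC'
      have hcp := hk.ed.hc
      obtain ⟨κz, hκz0, hκz1, hκz2⟩ : ∃ κz : ℝ, 0 < κz ∧ κz ≤ κ ∧ κz < c / 2 * e ^ 2 := by
        refine ⟨min κ (c / 4 * e ^ 2), lt_min hk.ed.hκ.1 (by positivity),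
          min_le_left _ _, ?_⟩
        have h1 : min κ (c / 4 * e ^ 2) ≤ c / 4 * e ^ 2 := min_le_right _ _
        have h2 : 0 < c * e ^ 2 := by positivity
        linarith
      have q1 : e ≤ r₂ := by linarith
      have hE2 := ed_restrict hk.ed he0 (q1.trans hk.rρ) he0 (q1.trans hk.rτ) le_rfl hκz0 hκz1
        hκz2
      obtain ⟨K, hK0, h1⟩ := hKS _ _ _ _ _ _ _ _ _ _ hk.x₁.1 hk.x₁.2 hk.τ₁ hk.ε₁ hk.ε₂
        hk.UG hE2 hk.rb r₀ κ₁ c' C' hr₀ hκ₁ hc' hC'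
      refine ⟨K, hK0, fun t X F hX b a' hb => ?_⟩
      obtain ⟨YL, f₀, F', zs, h2, h3⟩ := h1 t X F hX b a' hb
      exact ⟨F', zs, ⟨YL, f₀, h2⟩, h3⟩
  · rintro X Φ ⟨XL, f, h1⟩
    exact hk.root X XL f Φ h1

theorem krk (hPA : S_PATH) (hSM : S_SMALL) (hKS : S_KIDS) (hED : S_EDGE) : S_KRK := by
  intro n a hn ha hna
  obtain ⟨z, x₁, x₂, y₁, hP⟩ := hPA n a hn ha hna
  refine ⟨z, sg, ?_, kpr_of hSM hKS hn hP⟩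
  obtain ⟨g, hg, h⟩ := hED z hP.zG hP.zre
  exact ⟨g, hg, fun ψ φ h1 h2 => ⟨_, h ψ φ h1 h2⟩⟩

/-- small vertices with positive weights -/
theorem posk (hPA : S_PATH) (hSM : S_SMALL) (hKS : S_KIDS) (hMK : S_MIRK) (hMG : S_MIRG)
    (hMZ : S_MIRZ) : S_POSK := by
  intro n a hn ha hna
  obtain ⟨z, x₁, x₂, y₁, hP⟩ := hPA n (-a) hn (by omega) (by omega)
  refine ⟨-(starRingEnd ℂ) z, mir2 sg, ?_, ?_⟩
  · refine hMG z hP.zG hP.zre (hMZ n (-a) z hn (by omega) (by omega) hP.zG hP.zre ?_)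
    exact hP.crit
  · have h1 := hMK n (-a) z sg (kpr_of hSM hKS hn hP)
    rw [neg_neg] at h1
    exact h1

end Pool.Agent.N561
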