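import Pool.Agent.N561.V.Krk
import Pool.Agent.TH563.V.FinalV
import Pool.Agent.N402.VS.Fou
import Pool.Agent.N207.VS.Lapl
import Pool.Agent.N789.VS.LapW
import Pool.Agent.N380.SPoly
import Pool.Agent.N119.VS.Flat
import Pool.Agent.N496.VS.Fin
import Pool.Agent.N218.VS.Sg
import Pool.Agent.N839.VS.Near
import Pool.Agent.N380.SMono
import Pool.Agent.N566.VS.Far
import Pool.Agent.N855.VS.RB
import Pool.Agent.N424.VS.Pert
import Pool.Agent.N424.VS.Hcg
import Pool.Agent.N878.F.Out
import Pool.Agent.N402.VE.Edge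
import Pool.Agent.N424.VS.SmC
import Pool.Agent.N821.VR.Root
import Pool.Agent.W588.HT.LapSum
import Pool.Agent.W583.HTSeq
import Pool.Agent.N702.VS.Path0
import Pool.Agent.N561.A.Side
import Pool.Agent.N561.G.Geo

/-!
# Small vertices: the parts together
-/

set_option autoImplicit false

namespace Pool.Agent.N561

theorem f_vf : Pool.Agent.TH563.V.S_VF := Pool.Agent.TH761.J1737.vf

theorem f_vt : Pool.Agent.TH563.V.S_VT := Pool.Agent.TH563.V.vt_mw

theorem f_sgp : S_SGP := Pool.Agent.N496.VS.sgp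

theorem f_sf : S_SF := Pool.Agent.N218.VS.sf f_sgp

theorem f_flat : S_FLAT := Pool.Agent.N119.VS.flat Pool.Agent.N380.SPoly.poly

theorem f_side : S_SIDE := SD.side f_flat

theorem f_rb : S_RB := Pool.Agent.N855.VS.rb

theorem f_kids : S_KIDS := kids f_vf f_vt f_rb

theorem f_root : S_ROOT := Pool.Agent.N821.VR.root

theorem f_edge : S_EDGE := Pool.Agent.N402.VE.edge f_sgp

theorem f_near : S_NEAR :=
  Pool.Agent.N839.VS.near Pool.Agent.N402.VS.fou Pool.Agent.N207.VS.lapl Pool.Agent.N789.VS.lapw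
    f_flat f_side f_sgp f_sf Pool.Agent.N424.VS.pert Pool.Agent.W588.HT.lapsum0
    Pool.Agent.W583.HT.seq

theorem f_far : S_FAR :=
  Pool.Agent.N566.VS.far Pool.Agent.N380.SMono.mono f_near f_sgp

theorem f_edk : S_EDK := edk f_sgp f_sf f_near f_far

theorem f_small : S_SMALL :=
  Pool.Agent.N424.VS.small f_edk f_rb Pool.Agent.N878.F.out Pool.Agent.N878.F.outb f_sf

theorem f_path : S_PATH := Pool.Agent.N702.VS.path f_sf

theorem f_krk : S_KRK :=
  krk f_path f_small f_kids f_edge

theorem f_geog : S_GEOG := G.geog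

theorem f_fing : S_FING :=
  main f_vf f_vt f_path f_small f_kids f_root f_geog f_edge

theorem f_posk (hMK : S_MIRK) (hMG : S_MIRG) (hMZ : S_MIRZ) : S_POSK :=
  posk f_path f_small f_kids hMK hMG hMZ

end Pool.Agent.N561
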