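import Pool.Agent.N561.V.ArbG
import Pool.Agent.N561.V.FinE

/-!
# Arborescent links with large and small vertices of all types: the growth rate
-/

set_option autoImplicit false

namespace Pool.Agent.N561.ArbG

open Finset Filter Topology
open Pool.Agent.TH563.UV.Arb

/-- the growth rate -/
theorem main : ∃ K : ℕ, ∀ s : Tree, 1 ≤ s.children → Fine K s →
    ∃ V : ℝ, IsGreatest {W : ℝ | ∃ y : AngleTree, y.tree = s ∧ IsAngle y ∧ vol y = W} V ∧
      ∀ t : Tree, (t = s ∨ t = s.mirror) → (∀ N : ℕ, ContinuousAt (jones t N) (root N)) ∧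
      ∀ e f : ℤ,
        Tendsto (fun N : ℕ => 2 * Real.pi * (Real.log ‖kashaev e f t N‖ / N)) atTop (𝓝 V) := by
  obtain ⟨K, hK⟩ := arb f_fine
  exact ⟨K, fun s hc hs => hK s hc (fine_neat K s hs)⟩

end Pool.Agent.N561.ArbG
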