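import Pool.Agent.N561.V.Kids
import Pool.Agent.TH563.V.KidA

/-!
# The step at a large vertex or at a vertex with a circle, growth rate
-/

set_option autoImplicit false
set_option maxHeartbeats 1000000

namespace Pool.Agent.N561

open Finset Filter Topology Metric
open Pool.Agent.W711.HT hiding XX
open Pool.Agent.TH563.UV
open Pool.Agent.TH563.V
open Pool.Agent.TH563.Z hiding gd
open Pool.Agent.W85.HT hiding Rc_mono Rp_diff
open Pool.Agent.W293.HT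
open Pool.Agent.TH219.J139 (Ub Ub_diff Ub_even)
open Pool.Agent.TH929.J29 (UN_diff)
open scoped Real

/-- the step at a large vertex or at a vertex with a circle, to a vertex near `0` -/
theorem kidl (hVF : S_VF) (hVT : S_VT)
    {ρ₀ τ₀ κ₀ c₀ ε₀ : ℝ} {s dl : ℂ → ℂ → ℂ} (hK : KD ρ₀ τ₀ κ₀ c₀ s dl) (hε₀ : 0 < ε₀)
    {a₀ b₀ κe C : ℝ}
    (hE : ED a₀ b₀ κe c₀ C (Rc (3 * ρ₀) (3 * τ₀)) Pool.Agent.W711.HT.ker s) {r₀ : ℝ}
    (hr₀ : 0 < r₀)
    {κ₁ c₁ C₁ : ℝ} (hκ₁ : 0 < κ₁) (hc₁ : 0 < c₁) (hC₁ : 0 < C₁) (haρ : a₀ ≤ ρ₀) (hbτ : b₀ ≤ τ₀) :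
    ∃ K : ℝ, 0 < K ∧ ∀ (t : ℕ) (X : ℕ → ℂ → ℂ) (F : ℂ → ℂ),
      GoodV a₀ b₀ κ₁ c₁ C₁ t X F →
      ∀ (b : Bool) (a : ℤ), (b = false → K ^ 2 ≤ ((t + 1 : ℕ) : ℝ) ^ 2 + (a : ℝ) ^ 2) →
      ∃ (F' zs : ℂ → ℂ),
        GoodU ρ₀ τ₀ κ₀ ε₀ s 1 (stpb b a X) F' ∧
        ∀ ψ ∈ Rc (3 * ρ₀) (3 * τ₀), zs ψ ∈ Rc (3 * a₀) (3 * b₀) ∧ ‖zs ψ‖ ≤ r₀ ∧
          (b = true → zs ψ = 0) ∧
          (b = false → CPu a₀ b₀ r₀ (zs ψ) ∧ Complex.I * a * zs ψ / (2 * π) + Complex.I +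
            deriv F (zs ψ) + deriv (fun w => s w ψ) (zs ψ) = 0) ∧
          F' ψ = vt b a (zs ψ) + F (zs ψ) + s (zs ψ) ψ ∧
          HasDerivAt F' (deriv (fun w => s (zs ψ) w) ψ) ψ := by
  have ha₀ := hE.hρ.1
  have hb₀ := hE.hτ.1
  have hκe := hE.hκ.1
  have hρ0 := hK.hρ.1
  have hτ0 := hK.hτ.1
  have hκ0 := hK.hκ.1
  have hκb := hK.hκ.2
  have hbet : 0 < bet := hκ0.trans_le hκb
  obtain ⟨e₁, he₁⟩ : ∃ e₁ : ℝ, e₁ = min (κ₀ / 16) (ε₀ / 2) := ⟨_, rfl⟩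
  have he₁0 : 0 < e₁ := by
    rw [he₁]
    exact lt_min (by positivity) (by positivity)
  have he₁b : e₁ ≤ κ₀ / 16 := by rw [he₁]; exact min_le_left _ _
  have he₁c : e₁ ≤ ε₀ / 2 := by rw [he₁]; exact min_le_right _ _
  obtain ⟨K, hK0, hcp⟩ := hVF a₀ b₀ κe c₀ C _ _ _ hE κ₁ c₁ C₁ hκ₁ hc₁ hC₁ r₀ e₁ hr₀ he₁0
  refine ⟨K, hK0, ?_⟩
  intro t X F hX b a hbig
  have hB : XB X (F 0).re := xb_gv ha₀ hb₀ hκ₁.le hc₁.le hC₁.le hX
  have hKK : Kc (2 * ρ₀) (2 * τ₀) ⊆ Rc (3 * ρ₀) (3 * τ₀) := by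
    intro w hw
    rw [Kc_mem] at hw
    exact ⟨by linarith [hw.1], by linarith [hw.2]⟩
  have hRK : Rc (2 * ρ₀) (2 * τ₀) ⊆ Kc (2 * ρ₀) (2 * τ₀) := by
    intro w hw
    rw [Kc_mem]
    exact ⟨hw.1.le, hw.2.le⟩
  have h00 : (0 : ℂ) ∈ Rc (3 * ρ₀) (3 * τ₀) := zero_mem_Rc (by linarith) (by linarith)
  have hsubc : Rc (3 * a₀) (3 * b₀) ⊆ Rc (3 * ρ₀) (3 * τ₀) := Rc_mono (by linarith) (by linarith)
  have hneg : ∀ ψ ∈ Rc (3 * ρ₀) (3 * τ₀), -ψ ∈ Rc (3 * ρ₀) (3 * τ₀) := by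
    intro ψ hψ
    refine ⟨?_, ?_⟩
    · rw [Complex.neg_re, abs_neg]; exact hψ.1
    · rw [Complex.neg_im, abs_neg]; exact hψ.2
  -- `s` is even in the second variable
  have hs2 : ∀ w ∈ Rc (3 * ρ₀) (3 * τ₀), ∀ ψ ∈ Rc (3 * ρ₀) (3 * τ₀), s w (-ψ) = s w ψ := by
    intro w hw ψ hψ
    rw [hK.sym w hw _ (hneg ψ hψ), hK.ev ψ hψ w hw, hK.sym ψ hψ w hw]
  cases b with
  | false =>
    rw [stpb_f]
    obtain ⟨st1, st2⟩ := Pool.Agent.W398.HT.t_STPE a X hX.an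
    obtain ⟨F', zs, hF1, hz1, hF2, ⟨rr, hrr, huni⟩, hF3, hmw⟩ := hcp t X F hX a (hbig rfl)
    have hstk := stp_stk a X
    have hlow := (Complex.abs_re_le_norm _).trans (hF2 0 h00)
    rw [hK.zero, Complex.sub_re, Complex.sub_re, Complex.ofReal_re] at hlow
    have hlow' := (abs_le.1 hlow).1
    have hpos := hX.pos
    refine ⟨F', zs, ⟨st1, st2, ?_, hF1, ?_, ?_, ?_, ?_⟩, ?_⟩
    · linarith
    · intro ψ hψ
      obtain ⟨p1, p2, p3, p4, p5⟩ := hF3 ψ hψ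
      obtain ⟨q1, q2, q3, q4, q5⟩ := hF3 (-ψ) (hneg ψ hψ)
      have hz : zs (-ψ) = zs ψ := by
        refine (huni ψ hψ).2 _ (huni (-ψ) (hneg ψ hψ)).1 ?_
        rw [← q3]
        congr 1
        have e1 : (fun w => s w ψ) =ᶠ[𝓝 (zs (-ψ))] fun w => s w (-ψ) := by
          have hm : zs (-ψ) ∈ Rc (3 * ρ₀) (3 * τ₀) :=
            hsubc (Rc_mono (by linarith) (by linarith) q1.mem)
          filter_upwards [(isOpen_Rc _ _).mem_nhds hm] with w hw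
          rw [hs2 w hw ψ hψ]
        exact e1.deriv_eq
      have hm : zs ψ ∈ Rc (3 * ρ₀) (3 * τ₀) :=
        hsubc (Rc_mono (by linarith) (by linarith) p1.mem)
      rw [q4, p4, hz, hs2 _ hm ψ hψ]
    · intro ψ hψ
      have h1 := hF2 ψ hψ
      have h2 := hF2 0 h00
      have e : F' ψ - F' 0 - ((1 : ℕ) : ℂ) * (s 0 ψ - s 0 0) =
          (F' ψ - F 0 - s 0 ψ) - (F' 0 - F 0 - s 0 0) := by
        push_cast
        ring
      rw [e]
      refine (norm_sub_le _ _).trans ?_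
      push_cast
      linarith
    · rw [hstk]
      exact mw_sub (hmw _ (Kc_compact _ _) hKK) hRK
    · filter_upwards [gla hK a hX.an hB (v := (F' 0).re) (by linarith)] with N h1 x y hx hx' hy
      refine (h1 x y hx hx' hy).trans (le_of_eq ?_)
      push_cast
      rw [one_mul]
    · intro ψ hψ
      obtain ⟨p1, p2, p3, p4, p5⟩ := hF3 ψ hψ
      refine ⟨Rc_mono (by linarith) (by linarith) p1.mem, p1.sm, fun h => absurd h (by simp),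
        fun _ => ⟨p1, p3⟩, ?_, p5⟩
      rw [p4]
      simp [vt, qq]
  | true =>
    rw [stpb_t]
    have hXd : ∀ N, Differentiable ℂ (fun ψ => UN N ψ * X N ψ) :=
      fun N => (UN_diff N).mul (hX.an N)
    obtain ⟨st1, st2⟩ := Pool.Agent.W398.HT.t_STPE a (fun N ψ => UN N ψ * X N ψ) hXd
    have hstk := stp_stk a (fun N ψ => UN N ψ * X N ψ)
    have hB' : XB (fun N ψ => UN N ψ * X N ψ) (F 0).re := xb_ub true hB
    have hmw := hVT a₀ b₀ κe c₀ C _ _ _ hE κ₁ c₁ C₁ hκ₁ hc₁ hC₁ t X F hX a _ (Kc_compact _ _)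
      hKK
    have hsd : DifferentiableOn ℂ (fun φ => s 0 φ) (Rc (3 * ρ₀) (3 * τ₀)) := by
      have h1 : DifferentiableOn ℂ (fun w : ℂ => ((0 : ℂ), w)) (Rc (3 * ρ₀) (3 * τ₀)) :=
        ((differentiable_const _).prodMk differentiable_id).differentiableOn
      exact hK.san.comp h1 (fun w hw => ⟨h00, hw⟩)
    have hre0 : (F 0 + π * Complex.I + s 0 0).re = (F 0).re + 2 * bet := by
      rw [hK.zero, Complex.add_re, Complex.add_re, Complex.ofReal_re]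
      simp
    have hpos := hX.pos
    refine ⟨fun φ => F 0 + π * Complex.I + s 0 φ, fun _ => 0, ⟨st1, st2, ?_, ?_, ?_, ?_, ?_, ?_⟩,
      ?_⟩
    · show 0 ≤ (F 0 + π * Complex.I + s 0 0).re
      rw [hre0]
      linarith
    · exact (differentiableOn_const _).add hsd
    · intro ψ hψ
      show F 0 + π * Complex.I + s 0 (-ψ) = F 0 + π * Complex.I + s 0 ψ
      rw [hs2 0 h00 ψ hψ]
    · intro ψ hψ
      have e : F 0 + π * Complex.I + s 0 ψ - (F 0 + π * Complex.I + s 0 0) -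
          ((1 : ℕ) : ℂ) * (s 0 ψ - s 0 0) = 0 := by
        push_cast
        ring
      show ‖F 0 + π * Complex.I + s 0 ψ - (F 0 + π * Complex.I + s 0 0) -
          ((1 : ℕ) : ℂ) * (s 0 ψ - s 0 0)‖ ≤ _
      rw [e, norm_zero]
      positivity
    · rw [hstk]
      exact mw_sub hmw hRK
    · filter_upwards [gla hK a hXd hB' (v := (F 0 + π * Complex.I + s 0 0).re)
        (by rw [hre0]; linarith)] with N h1 x y hx hx' hy
      refine (h1 x y hx hx' hy).trans (le_of_eq ?_)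
      push_cast
      rw [one_mul]
    · intro ψ hψ
      refine ⟨zero_mem_Rc (by linarith) (by linarith), by rw [norm_zero]; exact hr₀.le,
        fun _ => rfl, fun h => absurd h (by simp), ?_, ?_⟩
      · show F 0 + π * Complex.I + s 0 ψ = vt true a 0 + F 0 + s 0 ψ
        simp only [vt, if_true]
        ring
      · have h1 : HasDerivAt (fun w => s 0 w) (deriv (fun w => s 0 w) ψ) ψ :=
          (hsd.differentiableAt ((isOpen_Rc _ _).mem_nhds hψ)).hasDerivAt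
        exact h1.const_add _

end Pool.Agent.N561
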