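import Pool.Agent.N561.V.Ext

/-!
# Arborescent links with large and small vertices: the definitions of the hand-ins

Weighted planar trees as in `Pool.Agent.TH563.UV.Arb`.
-/

set_option autoImplicit false

namespace Pool.Agent.N561.Arb

open Finset Filter Topology
open Pool.Agent.TH563.UV.Arb

/-- A vertex with `n` neighbours and weight `a`, without crossing circle, is small if `a ≤ 0` and
`n + |a| ≥ 4`, or `a = 0` and `n = 3`. -/
def Small (n : ℕ) (a : ℤ) : Prop := (a ≤ 0 ∧ 4 ≤ (n : ℤ) + |a|) ∨ (n = 3 ∧ a = 0)

/-- Every vertex other than the root is large or small, and of two neighbouring vertices at least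
one is large; `g` is the statement that the root is large. -/
def FineBelow (K : ℕ) : Prop → Tree → Prop
  | _, .single _ _ => True
  | g, .join t c => FineBelow K g t ∧
      FineBelow K (Tree.Big K c.circle (c.children + 1) c.weight) c ∧
      (Tree.Big K c.circle (c.children + 1) c.weight ∨
        (g ∧ c.circle = false ∧ Small (c.children + 1) c.weight))

/-- Every vertex is large or small, and of two neighbouring vertices at least one is large. -/
def Fine (K : ℕ) (t : Tree) : Prop :=
  (Tree.Big K t.circle t.children t.weight ∨ (t.circle = false ∧ Small t.children t.weight)) ∧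
    FineBelow K (Tree.Big K t.circle t.children t.weight) t

lemma fineBelow_neat {Ty : ℕ → ℤ → Prop} (h : ∀ n a, Small n a → Ty n a) (K : ℕ) (t : Tree) :
    ∀ g : Prop, FineBelow K g t → NeatBelow Ty K g t := by
  induction t with
  | single b a => intro g _; trivial
  | join t c iht ihc =>
    rintro g ⟨h1, h2, h3⟩
    refine ⟨iht g h1, ihc _ h2, ?_⟩
    rcases h3 with h3 | ⟨h3, h4, h5⟩
    · exact Or.inl h3
    · exact Or.inr ⟨h3, h4, h _ _ h5⟩

lemma fine_neat {Ty Rt : ℕ → ℤ → Prop} (h : ∀ n a, Small n a → Ty n a)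
    (h' : ∀ n a, Small n a → Rt n a) (K : ℕ) (t : Tree) (ht : Fine K t) : Neat Ty Rt K t := by
  obtain ⟨h1, h2⟩ := ht
  refine ⟨?_, fineBelow_neat h K t _ h2⟩
  rcases h1 with h1 | ⟨h1, h3⟩
  · exact Or.inl h1
  · exact Or.inr ⟨h1, h _ _ h3, h' _ _ h3⟩

end Pool.Agent.N561.Arb
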