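import Pool.Agent.N561.V.Ext

/-!
# Arborescent links with large and small vertices of all types: the definitions of the hand-ins

Weighted planar trees as in `Pool.Agent.TH563.UV.Arb`.
-/

set_option autoImplicit false

namespace Pool.Agent.N561.ArbG

open Finset Filter Topology
open Pool.Agent.TH563.UV.Arb

/-- A vertex with `n` neighbours and weight `a`, without crossing circle, is small if `a ≤ 0` and
`n + |a| ≥ 4`, or `a > 0` and `n + a ≥ 5`, or `a = 0` and `n = 3`. -/
def Small (n : ℕ) (a : ℤ) : Prop :=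
  (a ≤ 0 ∧ 4 ≤ (n : ℤ) + |a|) ∨ (0 < a ∧ 5 ≤ (n : ℤ) + a) ∨ (n = 3 ∧ a = 0)

/-- A clasp is a vertex with one neighbour and weight `-2`, without crossing circle. -/
def Clasp (n : ℕ) (a : ℤ) : Prop := n = 1 ∧ a = -2

/-- Every vertex other than the root is large, or small, or a clasp, and of two neighbouring
vertices at least one is large; `g` is the statement that the root is large. -/
def FineBelow (K : ℕ) : Prop → Tree → Prop
  | _, .single _ _ => True
  | g, .join t c => FineBelow K g t ∧
      FineBelow K (Tree.Big K c.circle (c.children + 1) c.weight) c ∧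
      (Tree.Big K c.circle (c.children + 1) c.weight ∨
        (g ∧ c.circle = false ∧
          (Small (c.children + 1) c.weight ∨ Clasp (c.children + 1) c.weight)))

/-- Every vertex is large, or small, or (if it is not the root) a clasp, and of two neighbouring
vertices at least one is large. -/
def Fine (K : ℕ) (t : Tree) : Prop :=
  (Tree.Big K t.circle t.children t.weight ∨ (t.circle = false ∧ Small t.children t.weight)) ∧
    FineBelow K (Tree.Big K t.circle t.children t.weight) t

lemma tyE_of_small {n : ℕ} {a : ℤ} (h : Small n a) : TyE n a := by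
  rcases h with ⟨h1, h2⟩ | ⟨h1, h2⟩ | h
  · rw [abs_of_nonpos h1] at h2
    exact Or.inl ⟨h1, by linarith⟩
  · exact Or.inr (Or.inr (Or.inr ⟨h1, h2⟩))
  · exact Or.inr (Or.inl h)

lemma rtE_of_small {n : ℕ} {a : ℤ} (h : Small n a) : RtE n a := by
  rintro ⟨rfl, rfl⟩
  rcases h with ⟨h1, h2⟩ | ⟨h1, h2⟩ | ⟨h1, h2⟩
  · rw [abs_of_nonpos h1] at h2
    norm_num at h2
  · norm_num at h1
  · norm_num at h1

lemma tyE_of_clasp {n : ℕ} {a : ℤ} (h : Clasp n a) : TyE n a := Or.inr (Or.inr (Or.inl h))

lemma fineBelow_neat (K : ℕ) (t : Tree) :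
    ∀ g : Prop, FineBelow K g t → NeatBelow TyE K g t := by
  induction t with
  | single b a => intro g _; trivial
  | join t c iht ihc =>
    rintro g ⟨h1, h2, h3⟩
    refine ⟨iht g h1, ihc _ h2, ?_⟩
    rcases h3 with h3 | ⟨h3, h4, h5 | h5⟩
    · exact Or.inl h3
    · exact Or.inr ⟨h3, h4, tyE_of_small h5⟩
    · exact Or.inr ⟨h3, h4, tyE_of_clasp h5⟩

lemma fine_neat (K : ℕ) (t : Tree) (ht : Fine K t) : Neat TyE RtE K t := by
  obtain ⟨h1, h2⟩ := ht
  refine ⟨?_, fineBelow_neat K t _ h2⟩
  rcases h1 with h1 | ⟨h1, h3⟩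
  · exact Or.inl h1
  · exact Or.inr ⟨h1, tyE_of_small h3, rtE_of_small h3⟩

end Pool.Agent.N561.ArbG
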