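import Pool.Agent.N561.A.Stm2
import Pool.Agent.TH563.V.Defs
import Pool.Agent.TH609.J368

/-!
# Small vertices: configurations and statements

Weighted trees with crossing circles whose vertices are large, encircled, or small, no two small
vertices being adjacent.  The kind `kf b n a` of a vertex is `0` if its variable is near `0`; the
variable of a vertex of the kind `k ≠ 0` is near `cen k`.  An edge between a vertex of the kind `k`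
and another vertex has the potential `S k` near `(0, cen k)`, all other edges have the potential
`s` near `(0, 0)`.
-/

set_option autoImplicit false

namespace Pool.Agent.N561

open Finset Filter Topology Metric
open Pool.Agent.W711.HT hiding XX
open Pool.Agent.TH563.UV
open Pool.Agent.TH563.V
open Pool.Agent.W719.AR (Fl)
open Pool.Agent.W864.AR (t1 t2)
open Pool.Agent.TH609.Z (ex)
open Pool.Agent.TH609.UV (fe)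
open scoped Real

/-! ### Critical configurations -/

section

variable (kf : Bool → ℕ → ℤ → ℕ) (cen : ℕ → ℂ) (S : ℕ → ℂ → ℂ → ℂ) (s : ℂ → ℂ → ℂ)

/-- the sum of the derivatives, in the variable of the root, of the potentials of the edges at the
root; `k` is the kind of the root -/
noncomputable def gg (k : ℕ) : PB → ℂ
  | .vx _ _ _ => 0
  | .br t c => gg k t + deriv (fun w => pt S s k (kf c.bl (c.nc + 1) c.wt) c.rz w) t.rz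

/-- the value without the term of the root -/
noncomputable def vg (k : ℕ) : PB → ℂ
  | .vx _ _ _ => 0
  | .br t c => vg k t + (vt c.bl c.wt c.rz + vg (kf c.bl (c.nc + 1) c.wt) c +
      pt S s k (kf c.bl (c.nc + 1) c.wt) c.rz t.rz)

/-- the condition at a vertex; `G` is the derivative of the sum of the potentials of the edges -/
def VCG (ρ τ g : ℝ) (k : ℕ) (b : Bool) (a : ℤ) (z G : ℂ) : Prop :=
  (k = 0 → VC ρ τ b a z G) ∧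
  (k ≠ 0 → ‖z - cen k‖ ≤ g ∧ Complex.I * a * z / (2 * π) + Complex.I + G = 0)

/-- the conditions at the edges and at the vertices other than the root -/
def CG (ρ τ g : ℝ) (k : ℕ) : PB → Prop
  | .vx _ _ _ => True
  | .br t c => CG ρ τ g k t ∧ CG ρ τ g (kf c.bl (c.nc + 1) c.wt) c ∧
      VCG cen ρ τ g (kf c.bl (c.nc + 1) c.wt) c.bl c.wt c.rz
        (gg kf S s (kf c.bl (c.nc + 1) c.wt) c +
          deriv (fun w => pt S s k (kf c.bl (c.nc + 1) c.wt) w t.rz) c.rz) ∧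
      (k ≠ 0 → kf c.bl (c.nc + 1) c.wt = 0 ∧ ‖c.rz‖ ≤ g) ∧
      (kf c.bl (c.nc + 1) c.wt ≠ 0 → k = 0 ∧ ‖t.rz‖ ≤ g)

end

/-! ### Geometry -/

/-- the conditions at one side of an edge -/
structure SW (ψ u : ℂ) : Prop where
  im1 : 0 < (t1 (ex u) (ex ψ)).im
  im2 : 0 < (t2 (ex u) (ex ψ)).im

/-- the relations between the angles at an edge (the conclusion of `shp`) -/
def SR (ψ ψ' u : ℂ) : Prop :=
  (fe ψ u).Pos ∧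
  (fe ψ u).b + (fe ψ u).c' + ((fe ψ' u).b + (fe ψ' u).c') = 2 * π ∧
  2 * (fe ψ u).c + ((fe ψ' u).a + (fe ψ' u).b') = π - ψ.re ∧
  2 * (fe ψ u).a' + ((fe ψ' u).a + (fe ψ' u).b') = π + ψ.re ∧
  (fe ψ u).tw = ψ.re ∧ (fe ψ u).cr = (Lg u ψ).im

/-- the conditions at an edge -/
structure HW (ψ ψ' u : ℂ) : Prop where
  sd : SW ψ u
  sd' : SW ψ' u
  den : 2 + Complex.cos ψ + Complex.cos ψ' ≠ 0
  eq : Complex.cos u = (1 - Complex.cos ψ * Complex.cos ψ') /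
    (2 + Complex.cos ψ + Complex.cos ψ')
  sr : SR ψ ψ' u
  sr' : SR ψ' ψ u

/-- everything that is needed at an edge (as `EF` of TH858/J1745) -/
structure EFW (f : ℂ → ℂ → ℂ) (z' z δ : ℂ) : Prop where
  hg : HW z' z (2 * π * δ)
  d1 : deriv (fun w => f w z) z' = -(1 / (2 * π)) * Lg (2 * π * δ) z'
  d2 : deriv (fun w => f z' w) z = -(1 / (2 * π)) * Lg (2 * π * δ) z
  val : 2 * π * (f z' z).re = hv z' z (2 * π * δ) + z'.im * (Lg (2 * π * δ) z').im +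
    z.im * (Lg (2 * π * δ) z).im

/-- job G2: the edges between a large and a small vertex -/
def S_EDGE : Prop := ∀ φ₀ ∈ GG, 0 ≤ φ₀.re → ∃ g : ℝ, 0 < g ∧ ∀ ψ φ : ℂ, ‖ψ‖ ≤ g →
  ‖φ - φ₀‖ ≤ g → EFW sg ψ φ (dst ψ φ)

/-- job G1: the value at a critical configuration is the maximal volume of the angle structures
(as `S_GEOV`, general kinds) -/
def S_GEOG : Prop := ∀ (ρ τ κ c : ℝ) (s dl : ℂ → ℂ → ℂ), KD ρ τ κ c s dl →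
  ∀ (kf : Bool → ℕ → ℤ → ℕ) (cen : ℕ → ℂ) (S : ℕ → ℂ → ℂ → ℂ) (D : ℕ),
  (∀ n a, kf true n a = 0) → (∀ b n a, kf b n a < D) →
  (∀ b n a, kf b n a ≠ 0 → ∃ g : ℝ, 0 < g ∧ ∀ ψ φ : ℂ, ‖ψ‖ ≤ g → ‖φ - cen (kf b n a)‖ ≤ g →
    ∃ δ : ℂ, EFW (S (kf b n a)) ψ φ δ) →
  ∃ g : ℝ, 0 < g ∧ ∀ p : PB, CG kf cen S s ρ τ g (kf p.bl p.nc p.wt) p →
    VCG cen ρ τ g (kf p.bl p.nc p.wt) p.bl p.wt p.rz (gg kf S s (kf p.bl p.nc p.wt) p) →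
    1 ≤ p.nc →
    IsGreatest {W : ℝ | ∃ y : AB, y.shape = p.shape ∧ y.IsAng ∧ y.vol = W}
      (2 * π * (vt p.bl p.wt p.rz + vg kf S s (kf p.bl p.nc p.wt) p).re)

/-! ### The steps -/

/-- the edges at a small vertex: `k0 N ψ φ` is about `exp (N sg(ψ, φ))` for `ψ` near `0`, `φ ∈ U` -/
def S_EDK : Prop := ∀ Q : Set ℂ, IsCompact Q → Q ⊆ GG → ∀ g : ℝ, 0 < g →
  ∃ (U : Set ℂ) (ρ τ κ c C : ℝ), Q ⊆ U ∧ U ⊆ GG ∧ 3 * ρ ≤ g ∧ ED ρ τ κ c C U k0 sg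

/-- bound near the real axis at a small vertex -/
def RBk (x₁ τ₁ ε₂ : ℝ) : Prop := ∀ᶠ N : ℕ in atTop, ∀ x y x' y' : ℝ, x₁ ≤ |x| → |x| ≤ π →
  |y| ≤ τ₁ → |x'| ≤ π → |y'| ≤ 1 / N →
  ‖k0 N (x' + y' * Complex.I) (x + y * Complex.I)‖ ≤ Real.exp (N * (sx x₁ + ε₂ / 2))

/-- job H: the step at a small vertex, as a child and as the root -/
def S_SMALL : Prop := ∀ (n : ℕ) (a : ℤ) (z₀ : ℂ) (x₁ x₂ y₁ : ℝ), 1 ≤ n →
  PathD n a z₀ x₁ x₂ y₁ → ∀ g : ℝ, 0 < g →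
  ∃ (U : Set ℂ) (τ₁ ε₁ ε₂ ρ τ κ c C : ℝ), 0 < τ₁ ∧ 0 < ε₁ ∧ 0 < ε₂ ∧ U ⊆ GG ∧ z₀ ∈ U ∧
  ED ρ τ κ c C U k0 sg ∧ RBk x₁ τ₁ ε₂ ∧
  (∃ r₂ c₁ C₁ : ℝ, 0 < r₂ ∧ r₂ ≤ ρ ∧ r₂ ≤ τ ∧ 0 < c₁ ∧ 0 < C₁ ∧ ∀ a₀ b₀ : ℝ, 0 < b₀ → b₀ ≤ a₀ →
    3 * a₀ ≤ r₂ → ∃ κ₁ : ℝ, 0 < κ₁ ∧ ∀ (X XL : ℕ → ℂ → ℂ) (f : ℂ) (Φ : ℂ → ℂ),
    PSm U x₁ τ₁ ε₁ ε₂ (n - 1) X XL f Φ → ∃ F zs : ℂ → ℂ,
      GoodV a₀ b₀ κ₁ c₁ C₁ 1 (stp a X) F ∧
      ∀ ψ ∈ Rc (3 * a₀) (3 * b₀), ‖zs ψ - z₀‖ ≤ g ∧ zs ψ ∈ U ∧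
        Complex.I * a * zs ψ / (2 * π) + Complex.I + deriv Φ (zs ψ) +
          deriv (fun w => sg ψ w) (zs ψ) = 0 ∧
        F ψ = qq a Φ (zs ψ) + sg ψ (zs ψ) ∧
        HasDerivAt F (deriv (fun w => sg w (zs ψ)) ψ) ψ) ∧
  ∀ (X XL : ℕ → ℂ → ℂ) (f : ℂ) (Φ : ℂ → ℂ), PSm U x₁ τ₁ ε₁ ε₂ n X XL f Φ →
    ∃ z : ℂ, ‖z - z₀‖ ≤ g ∧ z ∈ U ∧ Complex.I * a * z / (2 * π) + Complex.I + deriv Φ z = 0 ∧
      Tendsto (fun N : ℕ => Real.log ‖upp (1 / N) fun φ => Ea a N φ * X N φ * kr N φ‖ / N) atTop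
        (𝓝 (qq a Φ z).re)

/-- job K: a large or encircled child of a small vertex -/
def S_KIDS : Prop := ∀ (U : Set ℂ) (x₁ τ₁ ε₁ ε₂ ρ τ κ c C : ℝ), 0 < x₁ → x₁ < π → 0 < τ₁ →
  0 < ε₁ → 0 < ε₂ → U ⊆ GG → ED ρ τ κ c C U k0 sg → RBk x₁ τ₁ ε₂ → ∀ r₀ κ₁ c₁ C₁ : ℝ, 0 < r₀ →
  0 < κ₁ → 0 < c₁ → 0 < C₁ →
  ∃ K : ℝ, 0 < K ∧ ∀ (t : ℕ) (X : ℕ → ℂ → ℂ) (F : ℂ → ℂ), GoodV ρ τ κ₁ c₁ C₁ t X F →
    ∀ (b : Bool) (a : ℤ), (b = false → K ^ 2 ≤ ((t + 1 : ℕ) : ℝ) ^ 2 + (a : ℝ) ^ 2) →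
    ∃ (YL : ℕ → ℂ → ℂ) (f₀ : ℂ) (F' zs : ℂ → ℂ),
      PSm U x₁ τ₁ ε₁ ε₂ 1 (stpb b a X) YL f₀ F' ∧
      ∀ φ ∈ U, zs φ ∈ Rc (3 * ρ) (3 * τ) ∧ ‖zs φ‖ ≤ r₀ ∧ (b = true → zs φ = 0) ∧
        (b = false → CPu ρ τ r₀ (zs φ) ∧ Complex.I * a * zs φ / (2 * π) + Complex.I +
          deriv F (zs φ) + deriv (fun w => sg w φ) (zs φ) = 0) ∧
        F' φ = vt b a (zs φ) + F (zs φ) + sg (zs φ) φ ∧
        HasDerivAt F' (deriv (fun w => sg (zs φ) w) φ) φ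

/-- job R: the last step at a large vertex or a vertex with a circle, growth rate -/
def S_ROOT : Prop := ∀ ρ τ κ c C : ℝ, 0 < ρ → ρ ≤ 1 / 4 → 0 < τ → τ ≤ ρ → 0 < κ → 0 < c → 0 < C →
  ∀ r₀ : ℝ, 0 < r₀ → ∃ K : ℝ, 0 < K ∧ ∀ (t : ℕ) (X : ℕ → ℂ → ℂ) (F : ℂ → ℂ), 1 ≤ t →
    GoodV ρ τ κ c C t X F → ∀ (b : Bool) (a : ℤ),
    (b = false → K ^ 2 ≤ (t : ℝ) ^ 2 + (a : ℝ) ^ 2) → ∃ z : ℂ, z ∈ Rc (3 * ρ) (3 * τ) ∧
      ‖z‖ ≤ r₀ ∧ (b = true → z = 0) ∧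
      (b = false → CPu ρ τ r₀ z ∧ Complex.I * a * z / (2 * π) + Complex.I + deriv F z = 0) ∧
      Tendsto (fun N : ℕ => Real.log ‖upp (1 / N) fun ψ => Eb b a N ψ * X N ψ * kr N ψ‖ / N)
        atTop (𝓝 (vt b a z + F z).re)

/-! ### The main statements -/

/-- the small vertices -/
def IsSm (b : Bool) (n : ℕ) (a : ℤ) : Prop := b = false ∧ a ≤ 0 ∧ 4 ≤ (n : ℤ) - a

/-- the vertices other than the root are big or small; every edge has a big end.  `g` says that the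
root is used as a big vertex -/
def OkS (K : ℝ) : Bool → Tb → Prop
  | _, .vx _ _ => True
  | g, .br t c => OkS K g t ∧ ((Tb.BigV K c.bl (c.nc + 1) c.wt ∧ OkS K true c) ∨
      (g = true ∧ IsSm c.bl (c.nc + 1) c.wt ∧ OkS K false c))

/-- all vertices are big or small; every edge has a big end -/
def OkR (K : ℝ) (t : Tb) : Prop :=
  (Tb.BigV K t.bl t.nc t.wt ∧ OkS K true t) ∨ (IsSm t.bl t.nc t.wt ∧ OkS K false t)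

/-- the growth rate is the maximal volume of the angle structures -/
def S_FING : Prop := ∃ K : ℝ, 0 < K ∧ ∀ t : Tb, OkR K t → 1 ≤ t.nc → ∃ V : ℝ,
  IsGreatest {W : ℝ | ∃ y : AB, y.shape = t ∧ y.IsAng ∧ y.vol = W} V ∧
  Tendsto (fun N : ℕ => 2 * π * (Real.log ‖JT t N‖ / N)) atTop (𝓝 V)

end Pool.Agent.N561
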