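import Pool.Agent.N561.V.Defs
import Pool.Agent.TH558.J365

/-!
# Small vertices: the edges
-/

set_option autoImplicit false

namespace Pool.Agent.N561

open Finset Filter Topology Metric
open Pool.Agent.W711.HT hiding XX
open Pool.Agent.TH563.UV
open Pool.Agent.TH563.V
open scoped Real

lemma rp_diff (N d : ℕ) : Differentiable ℂ (Rp N d) := by
  unfold Rp
  fun_prop

lemma k0_diff (N : ℕ) (p : ℂ) : Differentiable ℂ (fun w => k0 N w p) := by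
  unfold k0
  have := rp_diff N
  fun_prop

lemma k0_symm (N : ℕ) (w p : ℂ) : k0 N w p = k0 N p w := by
  unfold k0
  refine Finset.sum_congr rfl fun d _ => ?_
  rw [mul_comm (Rp N d w)]

lemma rc_mono' {a b c d : ℝ} (h1 : a ≤ c) (h2 : b ≤ d) : Rc a b ⊆ Rc c d :=
  fun _ hz => ⟨hz.1.trans_le h1, hz.2.trans_le h2⟩

lemma rc_open (a b : ℝ) : IsOpen (Rc a b) := by
  have h1 : Continuous fun z : ℂ => |z.re| := by fun_prop
  have h2 : Continuous fun z : ℂ => |z.im| := by fun_prop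
  exact (isOpen_lt h1 continuous_const).inter (isOpen_lt h2 continuous_const)

lemma fin_pos {α : Type} (s : Finset α) (f : α → ℝ) (h : ∀ x ∈ s, 0 < f x) :
    ∃ ρ : ℝ, 0 < ρ ∧ ∀ x ∈ s, ρ ≤ f x := by
  classical
  induction s using Finset.induction_on with
  | empty => exact ⟨1, one_pos, by simp⟩
  | insert a s ha ih =>
    obtain ⟨ρ, h1, h2⟩ := ih fun x hx => h x (Finset.mem_insert_of_mem hx)
    refine ⟨min ρ (f a), lt_min h1 (h a (Finset.mem_insert_self a s)), fun x hx => ?_⟩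
    rcases Finset.mem_insert.1 hx with rfl | hx
    · exact min_le_right _ _
    · exact (min_le_left _ _).trans (h2 x hx)

lemma fin_bdd {α : Type} (s : Finset α) (f : α → ℝ) : ∃ C : ℝ, 0 < C ∧ ∀ x ∈ s, f x ≤ C := by
  classical
  induction s using Finset.induction_on with
  | empty => exact ⟨1, one_pos, by simp⟩
  | insert a s ha ih =>
    obtain ⟨ρ, h1, h2⟩ := ih
    refine ⟨max ρ (f a), lt_max_of_lt_left h1, fun x hx => ?_⟩
    rcases Finset.mem_insert.1 hx with rfl | hx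
    · exact le_max_right _ _
    · exact (h2 x hx).trans (le_max_left _ _)

/-- the edges at a small vertex -/
theorem edk (hG : S_SGP) (hS : S_SF) (hN : S_NEAR) (hF : S_FAR) : S_EDK := by
  intro Q hQ hQG g hg
  have hbet : 0 < bet := Pool.Agent.TH563.Z.J365.bet_pos
  -- the first covering
  choose! r₁ c₁ C₁ h₁ using hG
  choose! r₂ h₂ using hN
  obtain ⟨R, hR⟩ : ∃ R : ℂ → ℝ, R = fun x => min (r₁ x) (r₂ x) := ⟨_, rfl⟩
  have hR0 : ∀ x ∈ GG, 0 < R x := by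
    intro x hx
    rw [hR]
    exact lt_min (h₁ x hx).hr.1 (h₂ x hx).1
  obtain ⟨t, htQ, ht⟩ := hQ.elim_nhds_subcover (fun x => ball x (R x))
    (fun x hx => ball_mem_nhds _ (hR0 x (hQG hx)))
  have htG : ∀ x ∈ t, x ∈ GG := fun x hx => hQG (htQ x hx)
  obtain ⟨U₁, hU₁⟩ : ∃ U₁ : Set ℂ, U₁ = ⋃ x ∈ t, ball x (R x) := ⟨_, rfl⟩
  rw [← hU₁] at ht
  have hU₁o : IsOpen U₁ := by
    rw [hU₁]
    exact isOpen_biUnion fun x _ => isOpen_ball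
  obtain ⟨ρ₀, hρ₀, hρ₀t⟩ := fin_pos t R fun x hx => hR0 x (htG x hx)
  obtain ⟨c, hc, hct⟩ := fin_pos t c₁ fun x hx => (h₁ x (htG x hx)).hc
  obtain ⟨C, hC, hCt⟩ := fin_bdd t C₁
  obtain ⟨ρ, hρ⟩ : ∃ ρ : ℝ, ρ = min (1 / 4) (min (ρ₀ / 3) (g / 3)) := ⟨_, rfl⟩
  have hρ0 : 0 < ρ := by
    rw [hρ]
    exact lt_min (by norm_num) (lt_min (by positivity) (by positivity))
  have hρ1 : ρ ≤ 1 / 4 := by rw [hρ]; exact min_le_left _ _
  have hρ2 : 3 * ρ ≤ ρ₀ := by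
    have : ρ ≤ ρ₀ / 3 := by rw [hρ]; exact (min_le_right _ _).trans (min_le_left _ _)
    linarith
  have hρ3 : 3 * ρ ≤ g := by
    have : ρ ≤ g / 3 := by rw [hρ]; exact (min_le_right _ _).trans (min_le_right _ _)
    linarith
  have hmem : ∀ p ∈ U₁, ∃ x ∈ t, p ∈ ball x (R x) := by
    intro p hp
    rw [hU₁] at hp
    simpa using hp
  have hb1 : ∀ x, ball x (R x) ⊆ ball x (r₁ x) := fun x =>
    ball_subset_ball (by rw [hR]; exact min_le_left _ _)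
  have hb2 : ∀ x, ball x (R x) ⊆ ball x (r₂ x) := fun x =>
    ball_subset_ball (by rw [hR]; exact min_le_right _ _)
  have hc1 : ∀ x ∈ t, Rc (3 * ρ) (3 * ρ) ⊆ Rc (r₁ x) (r₁ x) := fun x hx => by
    have h := hρ₀t x hx
    rw [hR] at h
    have h' : 3 * ρ ≤ r₁ x := hρ2.trans (h.trans (min_le_left _ _))
    exact rc_mono' h' h'
  have hc2 : ∀ x ∈ t, Rc (3 * ρ) (3 * ρ) ⊆ Rc (r₂ x) (r₂ x) := fun x hx => by
    have h := hρ₀t x hx
    rw [hR] at h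
    have h' : 3 * ρ ≤ r₂ x := hρ2.trans (h.trans (min_le_right _ _))
    exact rc_mono' h' h'
  -- the second covering
  have hfar : ∀ y : ℂ, ∃ κ r : ℝ, y ∈ Q → (0 < κ ∧ 0 < r ∧ ball y r ⊆ U₁ ∧
      ∀ᶠ N : ℕ in atTop, ∀ x y' : ℝ, ρ ≤ |x| → |x| ≤ π → |y'| ≤ 1 / N → ∀ φ ∈ ball y r,
        ‖k0 N (x + y' * Complex.I) φ‖ ≤ Real.exp (N * ((sg 0 φ).re - κ))) := by
    intro y
    by_cases hy : y ∈ Q
    · obtain ⟨κ, r, hκ, hr, -, hev⟩ := hF y (hQG hy) ρ hρ0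
      obtain ⟨r', hr', hsub⟩ := Metric.isOpen_iff.1 hU₁o y (ht hy)
      refine ⟨κ, min r r', fun _ => ⟨hκ, lt_min hr hr',
        (ball_subset_ball (min_le_right _ _)).trans hsub, ?_⟩⟩
      filter_upwards [hev] with N h x y' h1 h2 h3 φ hφ
      exact h x y' h1 h2 h3 φ (ball_subset_ball (min_le_left _ _) hφ)
    · exact ⟨0, 0, fun h => absurd h hy⟩
  choose κ₃ r₃ h₃ using hfar
  obtain ⟨t', htQ', ht'⟩ := hQ.elim_nhds_subcover (fun x => ball x (r₃ x))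
    (fun x hx => ball_mem_nhds _ (h₃ x hx).2.1)
  obtain ⟨κ₀, hκ₀, hκt⟩ := fin_pos t' κ₃ fun x hx => (h₃ x (htQ' x hx)).1
  obtain ⟨U, hU⟩ : ∃ U : Set ℂ, U = ⋃ x ∈ t', ball x (r₃ x) := ⟨_, rfl⟩
  rw [← hU] at ht'
  have hmem' : ∀ p ∈ U, ∃ x ∈ t', p ∈ ball x (r₃ x) := by
    intro p hp
    rw [hU] at hp
    simpa using hp
  have hUU : U ⊆ U₁ := by
    intro p hp
    obtain ⟨x, hx, hpx⟩ := hmem' p hp
    exact (h₃ x (htQ' x hx)).2.2.1 hpx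
  have hUG : U ⊆ GG := by
    intro p hp
    obtain ⟨x, hx, hpx⟩ := hmem p (hUU hp)
    exact (h₁ x (htG x hx)).sub (hb1 x hpx)
  refine ⟨U, ρ, ρ, min κ₀ bet, c, C, ht', hUG, hρ3, ⟨⟨hρ0, hρ1⟩, ⟨hρ0, le_rfl⟩,
    ⟨lt_min hκ₀ hbet, min_le_right _ _⟩, hc, hC, ?_, fun N p _ => k0_diff N p, ?_, ?_, ?_, ?_,
    fun p hp => hS.2.2.2.2 p (hUG hp), ?_, ?_⟩⟩
  · rw [hU]
    exact isOpen_biUnion fun x _ => isOpen_ball
  · rintro ⟨ψ, φ⟩ ⟨h1, h2⟩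
    obtain ⟨x, hx, hpx⟩ := hmem φ (hUU h2)
    have h3 := (h₁ x (htG x hx)).san
    have h4 : Rc (r₁ x) (r₁ x) ×ˢ ball x (r₁ x) ∈ 𝓝 ((ψ, φ) : ℂ × ℂ) :=
      ((rc_open _ _).prod isOpen_ball).mem_nhds ⟨hc1 x hx h1, hb1 x hpx⟩
    exact (h3.differentiableAt h4).differentiableWithinAt
  · intro ψ hψ p hp
    obtain ⟨x, hx, hpx⟩ := hmem p (hUU hp)
    exact ((h₁ x (htG x hx)).sbd ψ (hc1 x hx hψ) p (hb1 x hpx)).trans (hCt x hx)
  · intro ψ hψ p hp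
    obtain ⟨x, hx, hpx⟩ := hmem p (hUU hp)
    exact (h₁ x (htG x hx)).ev ψ (hc1 x hx hψ) p (hb1 x hpx)
  · intro ψ hψ p hp
    obtain ⟨x, hx, hpx⟩ := hmem p (hUU hp)
    have h := (h₁ x (htG x hx)).conc ψ (hc1 x hx hψ) p (hb1 x hpx)
    have := hct x hx
    linarith
  · intro ε hε
    have h : ∀ᶠ N : ℕ in atTop, ∀ x ∈ t, ∀ ψ ∈ Rc (r₂ x) (r₂ x), ∀ φ ∈ ball x (r₂ x),
        k0 N ψ φ ≠ 0 ∧ |Real.log ‖k0 N ψ φ‖ - N * (sg ψ φ).re| ≤ ε * N :=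
      (Filter.eventually_all_finset t).2 fun x hx => (h₂ x (htG x hx)).2.2 ε hε
    filter_upwards [h] with N hN ψ hψ p hp
    obtain ⟨x, hx, hpx⟩ := hmem p (hUU hp)
    exact hN x hx ψ (hc2 x hx hψ) p (hb2 x hpx)
  · have h : ∀ᶠ N : ℕ in atTop, ∀ y ∈ t', ∀ x y' : ℝ, ρ ≤ |x| → |x| ≤ π → |y'| ≤ 1 / N →
        ∀ φ ∈ ball y (r₃ y),
        ‖k0 N (x + y' * Complex.I) φ‖ ≤ Real.exp (N * ((sg 0 φ).re - κ₃ y)) :=
      (Filter.eventually_all_finset t').2 fun y hy => (h₃ y (htQ' y hy)).2.2.2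
    filter_upwards [h] with N hN x y' h1 h2 h3 p hp
    obtain ⟨y, hy, hpy⟩ := hmem' p hp
    refine (hN y hy x y' h1 h2 h3 p hpy).trans (Real.exp_le_exp.2 ?_)
    apply mul_le_mul_of_nonneg_left _ (Nat.cast_nonneg N)
    have h4 := hκt y hy
    have h5 := min_le_left κ₀ bet
    linarith

end Pool.Agent.N561
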