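import Pool.Agent.N561.V.KidL
import Pool.Agent.TH563.V.Ind

/-!
# Small vertices: the induction over the tree
-/

set_option autoImplicit false
set_option maxHeartbeats 1000000

namespace Pool.Agent.N561

open Finset Filter Topology Metric
open Pool.Agent.W711.HT hiding XX
open Pool.Agent.TH563.UV
open Pool.Agent.TH563.V
open Pool.Agent.TH563.Z (shape_nc)
open scoped Real

/-! ### Configurations -/

section

variable (kf : Bool → ℕ → ℤ → ℕ) (cen : ℕ → ℂ) (S : ℕ → ℂ → ℂ → ℂ) (s : ℂ → ℂ → ℂ)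
  (ρ₀ τ₀ g : ℝ)

/-- the kind of the root of a subtree -/
def kg (q : PB) : ℕ := kf q.bl (q.nc + 1) q.wt

/-- the conditions at a child `q`; `k`, `ψ` belong to the parent -/
def CCg (k : ℕ) (q : PB) (ψ : ℂ) : Prop :=
  CG kf cen S s ρ₀ τ₀ g (kg kf q) q ∧
    VCG cen ρ₀ τ₀ g (kg kf q) q.bl q.wt q.rz
      (gg kf S s (kg kf q) q + deriv (fun w => pt S s k (kg kf q) w ψ) q.rz) ∧
    (k ≠ 0 → kg kf q = 0 ∧ ‖q.rz‖ ≤ g) ∧ (kg kf q ≠ 0 → k = 0 ∧ ‖ψ‖ ≤ g)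

/-- the value of a child -/
noncomputable def cvg (k : ℕ) (q : PB) (ψ : ℂ) : ℂ :=
  vt q.bl q.wt q.rz + vg kf S s (kg kf q) q + pt S s k (kg kf q) q.rz ψ

/-- configurations of a product -/
def CfP' (k : ℕ) (t : Tb) (F : ℂ → ℂ) (ψ : ℂ) : Prop :=
  ∃ p : PB, p.shape = t ∧ p.rz = ψ ∧ CG kf cen S s ρ₀ τ₀ g k p ∧ F ψ = vg kf S s k p ∧
    HasDerivAt F (gg kf S s k p) ψ

/-- configurations of a child -/
def CfC' (k : ℕ) (c : Tb) (F' : ℂ → ℂ) (ψ : ℂ) : Prop :=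
  ∃ q : PB, q.shape = c ∧ CCg kf cen S s ρ₀ τ₀ g k q ψ ∧ F' ψ = cvg kf S s k q ψ ∧
    HasDerivAt F' (deriv (fun w => pt S s k (kg kf q) q.rz w) ψ) ψ

variable {kf cen S s ρ₀ τ₀ g}

lemma cfp_zero' (k : ℕ) (b : Bool) (a : ℤ) (ψ : ℂ) :
    CfP' kf cen S s ρ₀ τ₀ g k (.vx b a) (fun _ => 0) ψ :=
  ⟨.vx b a ψ, rfl, rfl, trivial, rfl, by simpa [gg] using hasDerivAt_const ψ (0 : ℂ)⟩

lemma cfp_succ' {k : ℕ} {t c : Tb} {F F' : ℂ → ℂ} {ψ : ℂ}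
    (h1 : CfP' kf cen S s ρ₀ τ₀ g k t F ψ) (h2 : CfC' kf cen S s ρ₀ τ₀ g k c F' ψ) :
    CfP' kf cen S s ρ₀ τ₀ g k (.br t c) (fun ψ => F ψ + F' ψ) ψ := by
  obtain ⟨p, p1, p2, p3, p4, p5⟩ := h1
  obtain ⟨q, q1, ⟨q2, q3, q4, q5⟩, q6, q7⟩ := h2
  refine ⟨.br p q, by simp [PB.shape, p1, q1], p2, ⟨p3, q2, ?_, ?_, ?_⟩, ?_, ?_⟩
  · rw [p2]
    exact q3
  · exact q4
  · rw [p2]
    exact q5
  · show F ψ + F' ψ = vg kf S s k p + (vt q.bl q.wt q.rz + vg kf S s (kg kf q) q +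
      pt S s k (kg kf q) q.rz p.rz)
    rw [p2, p4, q6]
    rfl
  · show HasDerivAt (fun ψ => F ψ + F' ψ) (gg kf S s k p +
      deriv (fun w => pt S s k (kg kf q) q.rz w) p.rz) ψ
    rw [p2]
    exact p5.add q7

lemma kg_of {q : PB} {c : Tb} (h : q.shape = c) : kg kf q = kf c.bl (c.nc + 1) c.wt := by
  unfold kg
  rw [← h, shape_nc, pb_wt, pb_bl]

/-- child: a vertex near `0`; the parent is near `0` -/
lemma cfc_00' {c : Tb} (hk : kf c.bl (c.nc + 1) c.wt = 0) {F F' : ℂ → ℂ} {ψ z : ℂ}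
    (h : CfP' kf cen S s ρ₀ τ₀ g 0 c F z)
    (h1 : c.bl = true → z = 0)
    (h2 : c.bl = false → CPu ρ₀ τ₀ (1 / 10) z ∧ Complex.I * c.wt * z / (2 * π) + Complex.I +
      deriv F z + deriv (fun w => s w ψ) z = 0)
    (h3 : F' ψ = vt c.bl c.wt z + F z + s z ψ)
    (h4 : HasDerivAt F' (deriv (fun w => s z w) ψ) ψ) : CfC' kf cen S s ρ₀ τ₀ g 0 c F' ψ := by
  obtain ⟨q, q1, q2, q3, q4, q5⟩ := h
  have e1 : kg kf q = 0 := by rw [kg_of q1, hk]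
  have ew : q.wt = c.wt := by rw [← pb_wt q, q1]
  have eb : q.bl = c.bl := by rw [← pb_bl q, q1]
  refine ⟨q, q1, ⟨?_, ⟨fun _ => ⟨?_, ?_⟩, ?_⟩, ?_, ?_⟩, ?_, ?_⟩
  · rw [e1]
    exact q3
  · intro hb
    rw [q2]
    exact h1 (eb ▸ hb)
  · intro hb
    obtain ⟨a1, a2⟩ := h2 (eb ▸ hb)
    rw [q2]
    refine ⟨a1, ?_⟩
    rw [e1, ew, ← q5.deriv]
    have e2 : (fun w => pt S s 0 0 w ψ) = fun w => s w ψ := by
      funext w
      simp [pt]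
    rw [e2, ← add_assoc]
    exact a2
  · intro h
    exact absurd e1 h
  · intro h
    exact absurd rfl h
  · intro h
    exact absurd e1 h
  · unfold cvg
    rw [e1, q2, ew, eb, ← q4, h3]
    simp [pt]
  · rw [e1, q2]
    have e2 : (fun w => pt S s 0 0 z w) = fun w => s z w := by
      funext w
      simp [pt]
    rw [e2]
    exact h4

/-- child: a vertex near `0`; the parent is small -/
lemma cfc_k0' {k : ℕ} (hk0 : k ≠ 0) {c : Tb} (hk : kf c.bl (c.nc + 1) c.wt = 0) {F F' : ℂ → ℂ}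
    {ψ z : ℂ} (h : CfP' kf cen S s ρ₀ τ₀ g 0 c F z) (hz : ‖z‖ ≤ g)
    (h1 : c.bl = true → z = 0)
    (h2 : c.bl = false → CPu ρ₀ τ₀ (1 / 10) z ∧ Complex.I * c.wt * z / (2 * π) + Complex.I +
      deriv F z + deriv (fun w => S k w ψ) z = 0)
    (h3 : F' ψ = vt c.bl c.wt z + F z + S k z ψ)
    (h4 : HasDerivAt F' (deriv (fun w => S k z w) ψ) ψ) : CfC' kf cen S s ρ₀ τ₀ g k c F' ψ := by
  obtain ⟨q, q1, q2, q3, q4, q5⟩ := h
  have e1 : kg kf q = 0 := by rw [kg_of q1, hk]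
  have ew : q.wt = c.wt := by rw [← pb_wt q, q1]
  have eb : q.bl = c.bl := by rw [← pb_bl q, q1]
  refine ⟨q, q1, ⟨?_, ⟨fun _ => ⟨?_, ?_⟩, ?_⟩, ?_, ?_⟩, ?_, ?_⟩
  · rw [e1]
    exact q3
  · intro hb
    rw [q2]
    exact h1 (eb ▸ hb)
  · intro hb
    obtain ⟨a1, a2⟩ := h2 (eb ▸ hb)
    rw [q2]
    refine ⟨a1, ?_⟩
    rw [e1, ew, ← q5.deriv]
    have e2 : (fun w => pt S s k 0 w ψ) = fun w => S k w ψ := by
      funext w
      simp [pt, hk0]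
    rw [e2, ← add_assoc]
    exact a2
  · intro h
    exact absurd e1 h
  · intro _
    exact ⟨e1, by rw [q2]; exact hz⟩
  · intro h
    exact absurd e1 h
  · unfold cvg
    rw [e1, q2, ew, eb, ← q4, h3]
    simp [pt, hk0]
  · rw [e1, q2]
    have e2 : (fun w => pt S s k 0 z w) = fun w => S k z w := by
      funext w
      simp [pt, hk0]
    rw [e2]
    exact h4

/-- child: a small vertex; the parent is near `0` -/
lemma cfc_0k' {k : ℕ} (hk0 : k ≠ 0) {c : Tb} (hk : kf c.bl (c.nc + 1) c.wt = k)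
    (hb : c.bl = false) {Φ F' : ℂ → ℂ}
    {ψ z : ℂ} (h : CfP' kf cen S s ρ₀ τ₀ g k c Φ z) (hψ : ‖ψ‖ ≤ g)
    (hz : ‖z - cen k‖ ≤ g)
    (h2 : Complex.I * c.wt * z / (2 * π) + Complex.I + deriv Φ z +
      deriv (fun w => S k ψ w) z = 0)
    (h3 : F' ψ = qq c.wt Φ z + S k ψ z)
    (h4 : HasDerivAt F' (deriv (fun w => S k w z) ψ) ψ) : CfC' kf cen S s ρ₀ τ₀ g 0 c F' ψ := by
  obtain ⟨q, q1, q2, q3, q4, q5⟩ := h
  have e1 : kg kf q = k := by rw [kg_of q1, hk]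
  have ew : q.wt = c.wt := by rw [← pb_wt q, q1]
  have eb : q.bl = false := by rw [← pb_bl q, q1, hb]
  refine ⟨q, q1, ⟨?_, ⟨?_, fun _ => ⟨?_, ?_⟩⟩, ?_, ?_⟩, ?_, ?_⟩
  · rw [e1]
    exact q3
  · intro h
    exact absurd h (by rw [e1]; exact hk0)
  · rw [e1, q2]
    exact hz
  · rw [e1, q2, ew, ← q5.deriv]
    have e2 : (fun w => pt S s 0 k w ψ) = fun w => S k ψ w := by
      funext w
      simp [pt, hk0]
    rw [e2, ← add_assoc]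
    exact h2
  · intro h
    exact absurd rfl h
  · intro _
    exact ⟨rfl, hψ⟩
  · unfold cvg
    rw [e1, q2, ew, eb, ← q4, h3]
    simp [pt, hk0, vt, qq]
  · rw [e1, q2]
    have e2 : (fun w => pt S s 0 k z w) = fun w => S k w z := by
      funext w
      simp [pt, hk0]
    rw [e2]
    exact h4

end

/-! ### Products over the neighbours of a small vertex -/

lemma psm_zero {U : Set ℂ} {x₁ τ₁ ε₁ ε₂ : ℝ} :
    PSm U x₁ τ₁ ε₁ ε₂ 0 (fun _ _ => 1) (fun _ _ => 1) 0 (fun _ => 0) := by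
  refine ⟨fun N => differentiable_const _, fun N => differentiable_const _, by simp,
    differentiableOn_const _, fun φ _ => by simp, ?_, ?_, ?_⟩
  · intro V _ _ ε hε
    refine Eventually.of_forall fun N z _ => ⟨one_ne_zero, ?_⟩
    have h1 : (0 : ℝ) ≤ ε * N := mul_nonneg hε.le (Nat.cast_nonneg N)
    simpa using h1
  · refine Eventually.of_forall fun N x y _ _ _ => ?_
    simp
  · intro ε hε
    have hbet : 0 < bet := Pool.Agent.TH563.Z.J365.bet_pos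
    refine Eventually.of_forall fun N x y _ _ => ?_
    have hN : (0 : ℝ) ≤ N := Nat.cast_nonneg N
    have h1 : (1 : ℝ) ≤ Real.exp (N * ε) := Real.one_le_exp (by positivity)
    refine ⟨?_, ?_, ?_⟩
    · simpa using h1
    · simpa using h1
    · simp only [sub_self, norm_zero]
      positivity

lemma psm_succ {U : Set ℂ} {x₁ τ₁ ε₁ ε₂ : ℝ} {j : ℕ} {X XL Y YL : ℕ → ℂ → ℂ} {f f' : ℂ}
    {Φ Φ' : ℂ → ℂ} (hX : PSm U x₁ τ₁ ε₁ ε₂ j X XL f Φ) (hY : PSm U x₁ τ₁ ε₁ ε₂ 1 Y YL f' Φ') :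
    PSm U x₁ τ₁ ε₁ ε₂ (j + 1) (fun N φ => X N φ * Y N φ) (fun N φ => XL N φ * YL N φ) (f + f')
      (fun φ => Φ φ + Φ' φ) := by
  have hbet : 0 < bet := Pool.Agent.TH563.Z.J365.bet_pos
  refine ⟨fun N => (hX.an N).mul (hY.an N), fun N => (hX.anL N).mul (hY.anL N), ?_,
    hX.Fan.add hY.Fan, ?_, ?_, ?_, ?_⟩
  · rw [Complex.add_re]
    exact add_nonneg hX.pos hY.pos
  · intro φ hφ
    have h1 := hX.cl φ hφ
    have h2 := hY.cl φ hφ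
    have e : Φ φ + Φ' φ - (f + f') - ((j + 1 : ℕ) : ℂ) * sg 0 φ =
        (Φ φ - f - j * sg 0 φ) + (Φ' φ - f' - ((1 : ℕ) : ℂ) * sg 0 φ) := by
      push_cast
      ring
    rw [e]
    refine (norm_add_le _ _).trans ((add_le_add h1 h2).trans (le_of_eq ?_))
    push_cast
    ring
  · intro V hV hVc ε hε
    filter_upwards [hX.mw V hV hVc (ε / 2) (by positivity),
      hY.mw V hV hVc (ε / 2) (by positivity)] with N h1 h2 z hz
    obtain ⟨k1, k2⟩ := h1 z hz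
    obtain ⟨k3, k4⟩ := h2 z hz
    refine ⟨mul_ne_zero k1 k3, ?_⟩
    rw [norm_mul, Real.log_mul (norm_ne_zero_iff.2 k1) (norm_ne_zero_iff.2 k3), Complex.add_re]
    rw [abs_le] at k2 k4 ⊢
    constructor
    · linarith [k2.1, k4.1]
    · linarith [k2.2, k4.2]
  · filter_upwards [hX.rb, hY.rb] with N h1 h2 x y hx hx' hy
    rw [norm_mul, Complex.add_re]
    refine (mul_le_mul (h1 x y hx hx' hy) (h2 x y hx hx' hy) (norm_nonneg _)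
      (Real.exp_pos _).le).trans ?_
    rw [← Real.exp_add]
    apply Real.exp_le_exp.2
    apply le_of_eq
    push_cast
    ring
  · intro ε hε
    filter_upwards [hX.gl (ε / 3) (by positivity), hY.gl (ε / 3) (by positivity),
      Pool.Agent.TH563.Z.ev_mul 2 (V := (f + f').re + (((j + 1 : ℕ) : ℝ) - 1) * (2 * bet) + ε)
        (A := (f + f').re + (((j + 1 : ℕ) : ℝ) - 1) * (2 * bet) + 2 * ε / 3) (κ := ε / 3)
        (by positivity) (by linarith)] with N h1 h2 h3 x y hx hy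
    have hN : (0 : ℝ) ≤ N := Nat.cast_nonneg N
    obtain ⟨a1, a2, a3⟩ := h1 x y hx hy
    obtain ⟨b1, b2, b3⟩ := h2 x y hx hy
    have hNe : 0 ≤ N * (ε / 3) := by positivity
    refine ⟨?_, ?_, ?_⟩
    · rw [norm_mul]
      refine (mul_le_mul a1 b1 (norm_nonneg _) (Real.exp_pos _).le).trans ?_
      rw [← Real.exp_add]
      apply Real.exp_le_exp.2
      rw [Complex.add_re]
      push_cast
      linarith
    · rw [norm_mul]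
      refine (mul_le_mul a2 b2 (norm_nonneg _) (Real.exp_pos _).le).trans ?_
      rw [← Real.exp_add]
      apply Real.exp_le_exp.2
      rw [Complex.add_re]
      push_cast
      linarith
    · refine le_trans ?_ h3
      have e : X N (x + y * Complex.I) * Y N (x + y * Complex.I) -
          XL N (x + y * Complex.I) * YL N (x + y * Complex.I) =
          X N (x + y * Complex.I) * (Y N (x + y * Complex.I) - YL N (x + y * Complex.I)) +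
          (X N (x + y * Complex.I) - XL N (x + y * Complex.I)) * YL N (x + y * Complex.I) := by
        ring
      rw [e, two_mul]
      refine (norm_add_le _ _).trans (add_le_add ?_ ?_)
      · rw [norm_mul]
        refine (mul_le_mul a1 b3 (norm_nonneg _) (Real.exp_pos _).le).trans ?_
        rw [← Real.exp_add]
        apply Real.exp_le_exp.2
        rw [Complex.add_re]
        push_cast
        linarith
      · rw [norm_mul]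
        refine (mul_le_mul a3 b2 (norm_nonneg _) (Real.exp_pos _).le).trans ?_
        rw [← Real.exp_add]
        apply Real.exp_le_exp.2
        rw [Complex.add_re]
        push_cast
        linarith

/-! ### The induction -/

/-- the constants of the two scales -/
structure CQ where
  (ρ₀ τ₀ κ₀ ε₀ a₀ b₀ κ₁ c₁ C₁ g : ℝ)

/-- the data of a kind -/
structure KQ where
  U : Set ℂ
  (x₁ τ₁ ε₁ ε₂ : ℝ)

section

variable (kf : Bool → ℕ → ℤ → ℕ) (cen : ℕ → ℂ) (S : ℕ → ℂ → ℂ → ℂ) (s : ℂ → ℂ → ℂ) (q : CQ)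
  (h : ℕ → KQ)

/-- product over the children of a root near `0`, small scale -/
def QV (t : Tb) : Prop := ∃ F : ℂ → ℂ,
  GoodV q.a₀ q.b₀ q.κ₁ q.c₁ q.C₁ t.nc (XX t) F ∧
  ∀ ψ ∈ Rc (3 * q.a₀) (3 * q.b₀), CfP' kf cen S s q.ρ₀ q.τ₀ q.g 0 t F ψ

/-- product over the children of a root near `0`, large scale -/
def QU (t : Tb) : Prop := ∃ F : ℂ → ℂ,
  GoodU q.ρ₀ q.τ₀ q.κ₀ q.ε₀ s t.nc (XX t) F ∧
  ∀ ψ ∈ Rc (3 * q.ρ₀) (3 * q.τ₀), CfP' kf cen S s q.ρ₀ q.τ₀ q.g 0 t F ψ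

/-- product over the children of a small vertex -/
def QZ (k : ℕ) (t : Tb) : Prop := ∃ (XL : ℕ → ℂ → ℂ) (f : ℂ) (Φ : ℂ → ℂ),
  PSm (h k).U (h k).x₁ (h k).τ₁ (h k).ε₁ (h k).ε₂ t.nc (XX t) XL f Φ ∧
  ∀ φ ∈ (h k).U, CfP' kf cen S s q.ρ₀ q.τ₀ q.g k t Φ φ

/-- child of a root near `0`, small scale -/
def HV (c : Tb) : Prop := ∃ F' : ℂ → ℂ,
  GoodV q.a₀ q.b₀ q.κ₁ q.c₁ q.C₁ 1 (stpb c.bl c.wt (XX c)) F' ∧
  ∀ ψ ∈ Rc (3 * q.a₀) (3 * q.b₀), CfC' kf cen S s q.ρ₀ q.τ₀ q.g 0 c F' ψ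

/-- child of a root near `0`, large scale -/
def HU (c : Tb) : Prop := ∃ F' : ℂ → ℂ,
  GoodU q.ρ₀ q.τ₀ q.κ₀ q.ε₀ s 1 (stpb c.bl c.wt (XX c)) F' ∧
  ∀ ψ ∈ Rc (3 * q.ρ₀) (3 * q.τ₀), CfC' kf cen S s q.ρ₀ q.τ₀ q.g 0 c F' ψ

/-- child of a small vertex -/
def HZ (k : ℕ) (c : Tb) : Prop := ∃ (YL : ℕ → ℂ → ℂ) (f₀ : ℂ) (F' : ℂ → ℂ),
  PSm (h k).U (h k).x₁ (h k).τ₁ (h k).ε₁ (h k).ε₂ 1 (stpb c.bl c.wt (XX c)) YL f₀ F' ∧
  ∀ φ ∈ (h k).U, CfC' kf cen S s q.ρ₀ q.τ₀ q.g k c F' φ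

variable {kf cen S s q h}

lemma qv_zero (ha : 0 < q.a₀) (hb : 0 < q.b₀) (b : Bool) (a : ℤ) :
    QV kf cen S s q (.vx b a) :=
  ⟨fun _ => 0, gv_one ha hb, fun ψ _ => cfp_zero' 0 b a ψ⟩

lemma qv_succ (ha : 0 < q.a₀) (hb : 0 < q.b₀) {t c : Tb} (h1 : QV kf cen S s q t)
    (h2 : HV kf cen S s q c) : QV kf cen S s q (.br t c) := by
  obtain ⟨F, a1, a3⟩ := h1
  obtain ⟨F', b1, b3⟩ := h2
  exact ⟨fun ψ => F ψ + F' ψ, gv_mul ha hb a1 b1, fun ψ hψ => cfp_succ' (a3 ψ hψ) (b3 ψ hψ)⟩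

lemma qu_zero (h0 : GoodU q.ρ₀ q.τ₀ q.κ₀ q.ε₀ s 0 (fun _ _ => 1) (fun _ => 0)) (b : Bool)
    (a : ℤ) : QU kf cen S s q (.vx b a) :=
  ⟨fun _ => 0, h0, fun ψ _ => cfp_zero' 0 b a ψ⟩

lemma qu_succ (hp : ∀ (t : ℕ) (X Y : ℕ → ℂ → ℂ) (F G : ℂ → ℂ),
      GoodU q.ρ₀ q.τ₀ q.κ₀ q.ε₀ s t X F → GoodU q.ρ₀ q.τ₀ q.κ₀ q.ε₀ s 1 Y G →
      GoodU q.ρ₀ q.τ₀ q.κ₀ q.ε₀ s (t + 1) (fun N ψ => X N ψ * Y N ψ) (fun ψ => F ψ + G ψ))
    {t c : Tb} (h1 : QU kf cen S s q t)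
    (h2 : HU kf cen S s q c) : QU kf cen S s q (.br t c) := by
  obtain ⟨F, a1, a3⟩ := h1
  obtain ⟨F', b1, b3⟩ := h2
  exact ⟨fun ψ => F ψ + F' ψ, hp _ _ _ _ _ a1 b1, fun ψ hψ => cfp_succ' (a3 ψ hψ) (b3 ψ hψ)⟩

lemma qz_zero (k : ℕ) (b : Bool) (a : ℤ) : QZ kf cen S s q h k (.vx b a) :=
  ⟨fun _ _ => 1, 0, fun _ => 0, psm_zero, fun φ _ => cfp_zero' k b a φ⟩

lemma qz_succ {k : ℕ} {t c : Tb} (h1 : QZ kf cen S s q h k t)
    (h2 : HZ kf cen S s q h k c) : QZ kf cen S s q h k (.br t c) := by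
  obtain ⟨XL, f, Φ, a1, a3⟩ := h1
  obtain ⟨YL, f₀, F', b1, b3⟩ := h2
  exact ⟨_, f + f₀, fun φ => Φ φ + F' φ, psm_succ a1 b1,
    fun ψ hψ => cfp_succ' (a3 ψ hψ) (b3 ψ hψ)⟩

/-- from the large to the small scale -/
lemma hv_of_hu {c₀ C₀ : ℝ} {dl : ℂ → ℂ → ℂ} (hK : KD q.ρ₀ q.τ₀ q.κ₀ c₀ s dl)
    (hε₁ : q.ε₀ ≤ 1) (hε₂ : q.ε₀ ≤ c₀ * q.τ₀ ^ 2 / 16)
    (hC₀ : ∀ ψ ∈ Rc (3 * q.ρ₀) (3 * q.τ₀), ∀ ψ' ∈ Rc (3 * q.ρ₀) (3 * q.τ₀), ‖s ψ ψ'‖ ≤ C₀)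
    (ha : 0 < q.a₀) (hb : 0 < q.b₀) (ha₁ : q.a₀ ≤ q.ρ₀) (hb₁ : q.b₀ ≤ q.τ₀)
    (hκ : q.κ₁ ≤ q.κ₀) (hκ' : q.κ₁ / 2 < c₀ / 2 / 2 * q.a₀ ^ 2) (hc : q.c₁ ≤ c₀ / 2)
    (hC : 8 * (1 + 3 * C₀) / q.τ₀ ^ 2 ≤ q.C₁) {c : Tb}
    (h1 : HU kf cen S s q c) : HV kf cen S s q c := by
  obtain ⟨F', b1, b3⟩ := h1
  have hρ0 := hK.hρ.1
  have hτ0 := hK.hτ.1
  have hc0 := hK.hc
  have h00 : (0 : ℂ) ∈ Rc (3 * q.ρ₀) (3 * q.τ₀) := by
    refine ⟨?_, ?_⟩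
    · rw [Complex.zero_re, abs_zero]; linarith
    · rw [Complex.zero_im, abs_zero]; linarith
  have hC00 : 0 ≤ C₀ := (norm_nonneg _).trans (hC₀ 0 h00 0 h00)
  have e1 := gv_of_gu hK hε₁ hε₂ hC₀ b1
  have e2 := gv_restrict hρ0 hτ0 (by positivity) (by positivity) e1 ha ha₁ hb hb₁ hκ hκ'
  refine ⟨F', gv_mono e2 le_rfl hc hC, ?_⟩
  intro ψ hψ
  exact b3 ψ (rc_mono' (by linarith) (by linarith) hψ)

end

/-- the induction -/
theorem main_ind' {kf : Bool → ℕ → ℤ → ℕ} {cen : ℕ → ℂ} {S : ℕ → ℂ → ℂ → ℂ} {s : ℂ → ℂ → ℂ}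
    {q : CQ} {h : ℕ → KQ} {K : ℝ}
    (v0 : ∀ b a, QV kf cen S s q (.vx b a)) (u0 : ∀ b a, QU kf cen S s q (.vx b a))
    (z0 : ∀ k b a, QZ kf cen S s q h k (.vx b a))
    (v1 : ∀ t c, QV kf cen S s q t → HV kf cen S s q c → QV kf cen S s q (.br t c))
    (u1 : ∀ t c, QU kf cen S s q t → HU kf cen S s q c → QU kf cen S s q (.br t c))
    (z1 : ∀ k t c, QZ kf cen S s q h k t → HZ kf cen S s q h k c →
      QZ kf cen S s q h k (.br t c))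
    (uv : ∀ c, HU kf cen S s q c → HV kf cen S s q c)
    (ub : ∀ c : Tb, Tb.BigV K c.bl (c.nc + 1) c.wt → QV kf cen S s q c → HU kf cen S s q c)
    (uh : ∀ c : Tb, IsSm c.bl (c.nc + 1) c.wt → kf c.bl (c.nc + 1) c.wt = 0 →
      QU kf cen S s q c → HU kf cen S s q c)
    (kb : ∀ k, (∃ b n a, kf b n a = k) → k ≠ 0 → ∀ c : Tb, Tb.BigV K c.bl (c.nc + 1) c.wt →
      QV kf cen S s q c → HZ kf cen S s q h k c)
    (vh : ∀ c : Tb, IsSm c.bl (c.nc + 1) c.wt → kf c.bl (c.nc + 1) c.wt ≠ 0 →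
      QZ kf cen S s q h (kf c.bl (c.nc + 1) c.wt) c → HV kf cen S s q c) (t : Tb) :
    (OkS K true t → QV kf cen S s q t) ∧ (OkS K false t → QU kf cen S s q t) ∧
      ∀ k, (∃ b n a, kf b n a = k) → k ≠ 0 → OkS K false t → QZ kf cen S s q h k t := by
  induction t with
  | vx b a => exact ⟨fun _ => v0 b a, fun _ => u0 b a, fun k _ _ _ => z0 k b a⟩
  | br t c iht ihc =>
    refine ⟨?_, ?_, ?_⟩
    · rintro ⟨h1, h2⟩
      refine v1 t c (iht.1 h1) ?_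
      rcases h2 with ⟨h3, h4⟩ | ⟨-, h4, h5⟩
      · exact uv c (ub c h3 (ihc.1 h4))
      · by_cases h6 : kf c.bl (c.nc + 1) c.wt = 0
        · exact uv c (uh c h4 h6 (ihc.2.1 h5))
        · exact vh c h4 h6 (ihc.2.2 _ ⟨_, _, _, rfl⟩ h6 h5)
    · rintro ⟨h1, h2⟩
      refine u1 t c (iht.2.1 h1) ?_
      rcases h2 with ⟨h3, h4⟩ | ⟨h3, -, -⟩
      · exact ub c h3 (ihc.1 h4)
      · exact absurd h3 (by simp)
    · rintro k hk hk0 ⟨h1, h2⟩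
      refine z1 k t c (iht.2.2 k hk hk0 h1) ?_
      rcases h2 with ⟨h3, h4⟩ | ⟨h3, -, -⟩
      · exact kb k hk hk0 c h3 (ihc.1 h4)
      · exact absurd h3 (by simp)

end Pool.Agent.N561
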