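import Pool.Agent.N561.V.Kids
import Pool.Agent.N561.V.KidL
import Pool.Agent.N561.V.Edk
import Pool.Agent.N561.V.Ind
import Pool.Agent.TH563.V.MainV

/-!
# Small vertices: proof of the main theorem
-/

set_option autoImplicit false
set_option maxHeartbeats 1000000

namespace Pool.Agent.N561

open Finset Filter Topology Metric
open Pool.Agent.W711.HT hiding XX
open Pool.Agent.TH563.UV
open Pool.Agent.TH563.V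
open Pool.Agent.TH563.Z (shape_nc kd_kappa)
open Pool.Agent.W293.HT
open scoped Real

/-! ### The kinds -/

/-- the valence of a kind -/
def nk (k : ℕ) : ℕ := (Nat.unpair (k - 1)).1

/-- the weight of a kind -/
def ak (k : ℕ) : ℤ := -((Nat.unpair (k - 1)).2 : ℤ)

/-- the kinds which occur -/
def Adm (k : ℕ) : Prop := 1 ≤ nk k ∧ ak k ≤ 0 ∧ 4 ≤ (nk k : ℤ) - ak k

open Classical in
/-- the kind of a vertex -/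
noncomputable def kf (K₀ : ℝ) (b : Bool) (n : ℕ) (a : ℤ) : ℕ :=
  if IsSm b n a ∧ 1 ≤ n ∧ (n : ℝ) ^ 2 + (a : ℝ) ^ 2 < K₀ ^ 2 then Nat.pair n a.natAbs + 1 else 0

lemma kf_true (K₀ : ℝ) (n : ℕ) (a : ℤ) : kf K₀ true n a = 0 := by
  unfold kf
  rw [if_neg]
  rintro ⟨⟨h, -⟩, -⟩
  exact absurd h (by simp)

lemma kf_spec {K₀ : ℝ} {b : Bool} {n : ℕ} {a : ℤ} (h : kf K₀ b n a ≠ 0) :
    b = false ∧ nk (kf K₀ b n a) = n ∧ ak (kf K₀ b n a) = a ∧ Adm (kf K₀ b n a) := by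
  unfold kf at h ⊢
  split_ifs at h ⊢ with h1
  · obtain ⟨⟨h2, h3, h4⟩, h5, -⟩ := h1
    have e1 : nk (Nat.pair n a.natAbs + 1) = n := by
      unfold nk
      rw [Nat.add_sub_cancel, Nat.unpair_pair]
    have e2 : ak (Nat.pair n a.natAbs + 1) = a := by
      unfold ak
      rw [Nat.add_sub_cancel, Nat.unpair_pair]
      show -((a.natAbs : ℕ) : ℤ) = a
      omega
    refine ⟨h2, e1, e2, ?_⟩
    unfold Adm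
    rw [e1, e2]
    exact ⟨h5, h3, h4⟩
  · exact absurd rfl h

lemma kf_lt (K₀ : ℝ) : ∃ D : ℕ, 0 < D ∧ ∀ b n a, kf K₀ b n a < D := by
  obtain ⟨M, hM⟩ := exists_nat_gt |K₀|
  refine ⟨(M + 1) ^ 2 + 1, by positivity, fun b n a => ?_⟩
  unfold kf
  split_ifs with h
  · obtain ⟨-, -, h⟩ := h
    have hM2 : K₀ ^ 2 ≤ (M : ℝ) ^ 2 := by
      rw [← sq_abs K₀]
      exact pow_le_pow_left₀ (abs_nonneg _) hM.le 2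
    have h1 : (n : ℝ) ^ 2 < (M : ℝ) ^ 2 := by
      have := sq_nonneg (a : ℝ)
      linarith
    have h2 : ((a.natAbs : ℕ) : ℝ) ^ 2 < (M : ℝ) ^ 2 := by
      have e : ((a.natAbs : ℕ) : ℝ) ^ 2 = (a : ℝ) ^ 2 := by
        have e1 := Int.natAbs_sq a
        have e2 : (((a.natAbs : ℤ) ^ 2 : ℤ) : ℝ) = ((a ^ 2 : ℤ) : ℝ) := by rw [e1]
        push_cast at e2
        simp
      rw [e]
      have := sq_nonneg (n : ℝ)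
      linarith
    have h3 : n < M := by
      have := lt_of_pow_lt_pow_left₀ 2 (Nat.cast_nonneg M) h1
      exact_mod_cast this
    have h4 : a.natAbs < M := by
      have := lt_of_pow_lt_pow_left₀ 2 (Nat.cast_nonneg M) h2
      exact_mod_cast this
    have h5 := Nat.pair_lt_max_add_one_sq n a.natAbs
    have h6 : max n a.natAbs + 1 ≤ M + 1 := by
      have := max_lt h3 h4
      omega
    have h7 : (max n a.natAbs + 1) ^ 2 ≤ (M + 1) ^ 2 := Nat.pow_le_pow_left h6 2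
    omega
  · positivity

lemma kf_big {K₀ K : ℝ} (h0 : 0 ≤ K₀) (hK : K₀ ≤ K) {b : Bool} {n : ℕ} {a : ℤ}
    (h : Tb.BigV K b n a) : kf K₀ b n a = 0 := by
  unfold kf
  rw [if_neg]
  rintro ⟨⟨h2, -⟩, -, h3⟩
  have h4 := h h2
  have h5 : K₀ ^ 2 ≤ K ^ 2 := pow_le_pow_left₀ h0 hK 2
  linarith

lemma kf_med {K₀ : ℝ} {b : Bool} {n : ℕ} {a : ℤ} (hs : IsSm b n a) (hn : 1 ≤ n)
    (h : kf K₀ b n a = 0) : K₀ ^ 2 ≤ (n : ℝ) ^ 2 + (a : ℝ) ^ 2 := by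
  unfold kf at h
  split_ifs at h with h1
  by_contra h2
  exact h1 ⟨hs, hn, not_le.1 h2⟩

/-! ### The data of a kind -/

/-- everything that is needed for the small vertices of valence `n` and weight `a` -/
structure KPk (n : ℕ) (a : ℤ) (z₀ : ℂ) (g : ℝ) (h : KQ) (ρ τ κ c C r₂ c₁ C₁ : ℝ) : Prop where
  x₁ : 0 < h.x₁ ∧ h.x₁ < π
  τ₁ : 0 < h.τ₁
  ε₁ : 0 < h.ε₁
  ε₂ : 0 < h.ε₂
  UG : h.U ⊆ GG
  ed : ED ρ τ κ c C h.U k0 sg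
  rb : RBk h.x₁ h.τ₁ h.ε₂
  rρ : r₂ ≤ ρ
  rτ : r₂ ≤ τ
  step : ∀ a₀ b₀ : ℝ, 0 < b₀ → b₀ ≤ a₀ →
    3 * a₀ ≤ r₂ → ∃ κ₁ : ℝ, 0 < κ₁ ∧ ∀ (X XL : ℕ → ℂ → ℂ) (f : ℂ) (Φ : ℂ → ℂ),
    PSm h.U h.x₁ h.τ₁ h.ε₁ h.ε₂ (n - 1) X XL f Φ → ∃ F zs : ℂ → ℂ,
      GoodV a₀ b₀ κ₁ c₁ C₁ 1 (stp a X) F ∧
      ∀ ψ ∈ Rc (3 * a₀) (3 * b₀), ‖zs ψ - z₀‖ ≤ g ∧ zs ψ ∈ h.U ∧
        Complex.I * a * zs ψ / (2 * π) + Complex.I + deriv Φ (zs ψ) +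
          deriv (fun w => sg ψ w) (zs ψ) = 0 ∧
        F ψ = qq a Φ (zs ψ) + sg ψ (zs ψ) ∧
        HasDerivAt F (deriv (fun w => sg w (zs ψ)) ψ) ψ
  root : ∀ (X XL : ℕ → ℂ → ℂ) (f : ℂ) (Φ : ℂ → ℂ), PSm h.U h.x₁ h.τ₁ h.ε₁ h.ε₂ n X XL f Φ →
    ∃ z : ℂ, ‖z - z₀‖ ≤ g ∧ z ∈ h.U ∧ Complex.I * a * z / (2 * π) + Complex.I + deriv Φ z = 0 ∧
      Tendsto (fun N : ℕ => Real.log ‖upp (1 / N) fun φ => Ea a N φ * X N φ * kr N φ‖ / N) atTop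
        (𝓝 (qq a Φ z).re)

lemma kpk_of (hSM : S_SMALL) {n : ℕ} {a : ℤ} {z₀ : ℂ} {x₁ x₂ y₁ : ℝ} (hn : 1 ≤ n)
    (hP : PathD n a z₀ x₁ x₂ y₁) {g : ℝ} (hg : 0 < g) :
    ∃ (h : KQ) (ρ τ κ c C r₂ c₁ C₁ : ℝ), 0 < r₂ ∧ 0 < c₁ ∧ 0 < C₁ ∧
      KPk n a z₀ g h ρ τ κ c C r₂ c₁ C₁ := by
  obtain ⟨U, τ₁, ε₁, ε₂, ρ, τ, κ, c, C, h1, h2, h3, h4, h5, h6, h7,
    ⟨r₂, c₁, C₁, h8, h9, h10, h11, h12, h13⟩, h14⟩ := hSM n a z₀ x₁ x₂ y₁ hn hP g hg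
  obtain ⟨o1, o2, o3, o4, o5⟩ := hP.ord
  have hx : 0 < x₁ := by linarith [hP.zre]
  have hx' : x₁ < π := by linarith [Real.pi_gt_three]
  exact ⟨⟨U, x₁, τ₁, ε₁, ε₂⟩, ρ, τ, κ, c, C, r₂, c₁, C₁, h8, h11, h12,
    ⟨⟨hx, hx'⟩, h1, h2, h3, h4, h6, h7, h9, h10, h13, h14⟩⟩

lemma stpb_false {b : Bool} (hb : b = false) (a : ℤ) (X : ℕ → ℂ → ℂ) :
    stpb b a X = stp a X := by
  subst hb
  funext N ψ
  unfold stpb stp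
  congr 1
  funext w
  unfold Eb
  simp

lemma cpu_mono {ρ τ r ρ' τ' r' : ℝ} {z : ℂ} (h : CPu ρ τ r z) (h1 : ρ ≤ ρ') (h2 : τ ≤ τ')
    (h3 : r ≤ r') : CPu ρ' τ' r' z :=
  ⟨rc_mono' h1 h2 h.mem, h.im, h.sm.trans h3⟩

section

variable {kf : Bool → ℕ → ℤ → ℕ} {cen : ℕ → ℂ} {s : ℂ → ℂ → ℂ} {q : CQ} {h : ℕ → KQ}

/-- a large child or a child with a circle of a vertex near `0` -/
lemma hu_big {K r₀ : ℝ} (hr₀ : r₀ ≤ 1 / 10) (ha : q.a₀ ≤ q.ρ₀) (hb : q.b₀ ≤ q.τ₀)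
    (hkid : ∀ (t : ℕ) (X : ℕ → ℂ → ℂ) (F : ℂ → ℂ),
      GoodV q.a₀ q.b₀ q.κ₁ q.c₁ q.C₁ t X F →
      ∀ (b : Bool) (a : ℤ), (b = false → K ^ 2 ≤ ((t + 1 : ℕ) : ℝ) ^ 2 + (a : ℝ) ^ 2) →
      ∃ (F' zs : ℂ → ℂ),
        GoodU q.ρ₀ q.τ₀ q.κ₀ q.ε₀ s 1 (stpb b a X) F' ∧
        ∀ ψ ∈ Rc (3 * q.ρ₀) (3 * q.τ₀), zs ψ ∈ Rc (3 * q.a₀) (3 * q.b₀) ∧ ‖zs ψ‖ ≤ r₀ ∧
          (b = true → zs ψ = 0) ∧
          (b = false → CPu q.a₀ q.b₀ r₀ (zs ψ) ∧ Complex.I * a * zs ψ / (2 * π) + Complex.I +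
            deriv F (zs ψ) + deriv (fun w => s w ψ) (zs ψ) = 0) ∧
          F' ψ = vt b a (zs ψ) + F (zs ψ) + s (zs ψ) ψ ∧
          HasDerivAt F' (deriv (fun w => s (zs ψ) w) ψ) ψ) {c : Tb}
    (hk : kf c.bl (c.nc + 1) c.wt = 0)
    (hbig : Tb.BigV K c.bl (c.nc + 1) c.wt) (hv : QV kf cen (fun _ => sg) s q c) :
    HU kf cen (fun _ => sg) s q c := by
  obtain ⟨F, a1, a2⟩ := hv
  obtain ⟨F', zs, b1, b2⟩ := hkid c.nc (XX c) F a1 c.bl c.wt hbig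
  refine ⟨F', b1, fun ψ hψ => ?_⟩
  obtain ⟨c1, c2, c3, c4, c5, c6⟩ := b2 ψ hψ
  exact cfc_00' hk (a2 _ c1) c3 (fun hf => ⟨cpu_mono (c4 hf).1 ha hb hr₀, (c4 hf).2⟩) c5 c6

/-- a large child or a child with a circle of a small vertex -/
lemma hz_big {K r₀ : ℝ} {k : ℕ} (hk0 : k ≠ 0) (hr₀ : r₀ ≤ 1 / 10) (hr₀g : r₀ ≤ q.g)
    (ha : q.a₀ ≤ q.ρ₀) (hb : q.b₀ ≤ q.τ₀)
    (hkid : ∀ (t : ℕ) (X : ℕ → ℂ → ℂ) (F : ℂ → ℂ),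
      GoodV q.a₀ q.b₀ q.κ₁ q.c₁ q.C₁ t X F →
      ∀ (b : Bool) (a : ℤ), (b = false → K ^ 2 ≤ ((t + 1 : ℕ) : ℝ) ^ 2 + (a : ℝ) ^ 2) →
      ∃ (YL : ℕ → ℂ → ℂ) (f₀ : ℂ) (F' zs : ℂ → ℂ),
        PSm (h k).U (h k).x₁ (h k).τ₁ (h k).ε₁ (h k).ε₂ 1 (stpb b a X) YL f₀ F' ∧
        ∀ φ ∈ (h k).U, zs φ ∈ Rc (3 * q.a₀) (3 * q.b₀) ∧ ‖zs φ‖ ≤ r₀ ∧ (b = true → zs φ = 0) ∧
          (b = false → CPu q.a₀ q.b₀ r₀ (zs φ) ∧ Complex.I * a * zs φ / (2 * π) + Complex.I +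
            deriv F (zs φ) + deriv (fun w => sg w φ) (zs φ) = 0) ∧
          F' φ = vt b a (zs φ) + F (zs φ) + sg (zs φ) φ ∧
          HasDerivAt F' (deriv (fun w => sg (zs φ) w) φ) φ) {c : Tb}
    (hk : kf c.bl (c.nc + 1) c.wt = 0)
    (hbig : Tb.BigV K c.bl (c.nc + 1) c.wt) (hv : QV kf cen (fun _ => sg) s q c) :
    HZ kf cen (fun _ => sg) s q h k c := by
  obtain ⟨F, a1, a2⟩ := hv
  obtain ⟨YL, f₀, F', zs, b1, b2⟩ := hkid c.nc (XX c) F a1 c.bl c.wt hbig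
  refine ⟨YL, f₀, F', b1, fun ψ hψ => ?_⟩
  obtain ⟨c1, c2, c3, c4, c5, c6⟩ := b2 ψ hψ
  exact cfc_k0' hk0 hk (a2 _ c1) (c2.trans hr₀g) c3
    (fun hf => ⟨cpu_mono (c4 hf).1 ha hb hr₀, (c4 hf).2⟩) c5 c6

/-- a small child -/
lemma hv_small {n : ℕ} {a : ℤ} {k : ℕ} (hk0 : k ≠ 0)
    (hg : 3 * q.a₀ + 3 * q.b₀ ≤ q.g)
    (hst : ∀ (X XL : ℕ → ℂ → ℂ) (f : ℂ) (Φ : ℂ → ℂ),
      PSm (h k).U (h k).x₁ (h k).τ₁ (h k).ε₁ (h k).ε₂ (n - 1) X XL f Φ → ∃ F zs : ℂ → ℂ,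
      GoodV q.a₀ q.b₀ q.κ₁ q.c₁ q.C₁ 1 (stp a X) F ∧
      ∀ ψ ∈ Rc (3 * q.a₀) (3 * q.b₀), ‖zs ψ - cen k‖ ≤ q.g ∧ zs ψ ∈ (h k).U ∧
        Complex.I * a * zs ψ / (2 * π) + Complex.I + deriv Φ (zs ψ) +
          deriv (fun w => sg ψ w) (zs ψ) = 0 ∧
        F ψ = qq a Φ (zs ψ) + sg ψ (zs ψ) ∧
        HasDerivAt F (deriv (fun w => sg w (zs ψ)) ψ) ψ) {c : Tb} (hb : c.bl = false)
    (hk : kf c.bl (c.nc + 1) c.wt = k) (hn : n = c.nc + 1) (ha : a = c.wt)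
    (hz : QZ kf cen (fun _ => sg) s q h k c) : HV kf cen (fun _ => sg) s q c := by
  obtain ⟨XL, f, Φ, a1, a2⟩ := hz
  have e1 : n - 1 = c.nc := by omega
  rw [← e1] at a1
  obtain ⟨F, zs, b1, b2⟩ := hst (XX c) XL f Φ a1
  refine ⟨F, ?_, fun ψ hψ => ?_⟩
  · rw [stpb_false hb, ← ha]
    exact b1
  · obtain ⟨c1, c2, c3, c4, c5⟩ := b2 ψ hψ
    have hψ' : ‖ψ‖ ≤ q.g := by
      refine (Complex.norm_le_abs_re_add_abs_im ψ).trans ?_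
      have h1 := hψ.1
      have h2 := hψ.2
      linarith
    rw [ha] at c3 c4
    exact cfc_0k' hk0 hk hb (a2 _ c2) hψ' c1 c3 c4 c5

/-- the root is near `0` -/
lemma rt_0 {t : Tb} (hk : kf t.bl t.nc t.wt = 0) {F : ℂ → ℂ} {z : ℂ}
    (hcf : CfP' kf cen (fun _ => sg) s q.ρ₀ q.τ₀ q.g 0 t F z) (h1 : t.bl = true → z = 0)
    (h2 : t.bl = false → CPu q.ρ₀ q.τ₀ (1 / 10) z ∧
      Complex.I * t.wt * z / (2 * π) + Complex.I + deriv F z = 0) :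
    ∃ p : PB, p.shape = t ∧
      CG kf cen (fun _ => sg) s q.ρ₀ q.τ₀ q.g (kf p.bl p.nc p.wt) p ∧
      VCG cen q.ρ₀ q.τ₀ q.g (kf p.bl p.nc p.wt) p.bl p.wt p.rz
        (gg kf (fun _ => sg) s (kf p.bl p.nc p.wt) p) ∧
      vt p.bl p.wt p.rz + vg kf (fun _ => sg) s (kf p.bl p.nc p.wt) p = vt t.bl t.wt z + F z := by
  obtain ⟨p, q1, q2, q3, q4, q5⟩ := hcf
  have ew : p.wt = t.wt := by rw [← pb_wt p, q1]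
  have eb : p.bl = t.bl := by rw [← pb_bl p, q1]
  have en : p.nc = t.nc := by rw [← shape_nc p, q1]
  have e1 : kf p.bl p.nc p.wt = 0 := by rw [ew, eb, en, hk]
  refine ⟨p, q1, ?_, ?_, ?_⟩
  · rw [e1]
    exact q3
  · rw [e1, eb, ew, q2]
    refine ⟨fun _ => ⟨h1, fun hb => ⟨(h2 hb).1, ?_⟩⟩, fun h => absurd rfl h⟩
    rw [← q5.deriv]
    exact (h2 hb).2
  · rw [e1, eb, ew, q2, ← q4]

/-- the root is small -/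
lemma rt_k {t : Tb} {k : ℕ} (hk0 : k ≠ 0) (hk : kf t.bl t.nc t.wt = k) (hb : t.bl = false)
    {Φ : ℂ → ℂ} {z : ℂ}
    (hcf : CfP' kf cen (fun _ => sg) s q.ρ₀ q.τ₀ q.g k t Φ z) (h1 : ‖z - cen k‖ ≤ q.g)
    (h2 : Complex.I * t.wt * z / (2 * π) + Complex.I + deriv Φ z = 0) :
    ∃ p : PB, p.shape = t ∧
      CG kf cen (fun _ => sg) s q.ρ₀ q.τ₀ q.g (kf p.bl p.nc p.wt) p ∧
      VCG cen q.ρ₀ q.τ₀ q.g (kf p.bl p.nc p.wt) p.bl p.wt p.rz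
        (gg kf (fun _ => sg) s (kf p.bl p.nc p.wt) p) ∧
      vt p.bl p.wt p.rz + vg kf (fun _ => sg) s (kf p.bl p.nc p.wt) p = qq t.wt Φ z := by
  obtain ⟨p, q1, q2, q3, q4, q5⟩ := hcf
  have ew : p.wt = t.wt := by rw [← pb_wt p, q1]
  have eb : p.bl = t.bl := by rw [← pb_bl p, q1]
  have en : p.nc = t.nc := by rw [← shape_nc p, q1]
  have e1 : kf p.bl p.nc p.wt = k := by rw [ew, eb, en, hk]
  refine ⟨p, q1, ?_, ?_, ?_⟩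
  · rw [e1]
    exact q3
  · rw [e1, eb, ew, q2]
    refine ⟨fun h => absurd h hk0, fun _ => ⟨h1, ?_⟩⟩
    rw [← q5.deriv]
    exact h2
  · rw [e1, eb, ew, q2, ← q4, hb]
    simp [vt, qq]

end

/-! ### The main theorem -/

theorem main (hVF : S_VF) (hVT : S_VT) (hPA : S_PATH) (hSM : S_SMALL) (hKS : S_KIDS)
    (hRT : S_ROOT) (hGE : S_GEOG) (hED : S_EDGE) : S_FING := by
  have hπ := Real.pi_pos
  obtain ⟨ρ₀, τ₀, κ₀, c₀, s, dl, hK⟩ := Pool.Agent.W719.AR.f_KER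
  have hρ₀ := hK.hρ.1
  have hτ₀ := hK.hτ.1
  have hc₀ := hK.hc
  have hκ₀ := hK.hκ.1
  obtain ⟨C₀, hC₀⟩ := hK.sbd
  have h00 : (0 : ℂ) ∈ Rc (3 * ρ₀) (3 * τ₀) := by
    refine ⟨?_, ?_⟩
    · rw [Complex.zero_re, abs_zero]; linarith
    · rw [Complex.zero_im, abs_zero]; linarith
  have hC00 : 0 ≤ C₀ := (norm_nonneg _).trans (hC₀ 0 h00 0 h00)
  obtain ⟨ε₀, hε₀, hε₁, hε₂⟩ : ∃ ε₀ : ℝ, 0 < ε₀ ∧ ε₀ ≤ 1 ∧ ε₀ ≤ c₀ * τ₀ ^ 2 / 16 :=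
    ⟨min 1 (c₀ * τ₀ ^ 2 / 16), lt_min one_pos (by positivity), min_le_left _ _, min_le_right _ _⟩
  obtain ⟨p0, p1⟩ := f_PRU ρ₀ τ₀ κ₀ c₀ s dl hK ε₀ hε₀
  obtain ⟨Cs, hEs⟩ := ed_s hK
  -- the paths of the small vertices
  have hpath : ∀ k : ℕ, ∃ (z : ℂ) (x₁ x₂ y₁ : ℝ), Adm k → PathD (nk k) (ak k) z x₁ x₂ y₁ := by
    intro k
    by_cases hk : Adm k
    · obtain ⟨z, x₁, x₂, y₁, hP⟩ := hPA (nk k) (ak k) hk.1 hk.2.1 hk.2.2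
      exact ⟨z, x₁, x₂, y₁, fun _ => hP⟩
    · exact ⟨0, 0, 0, 0, fun h => absurd h hk⟩
  choose cen px₁ px₂ py₁ hP using hpath
  -- the medium vertices
  have hCl : 0 < 8 * (1 + 3 * C₀) / τ₀ ^ 2 := by positivity
  obtain ⟨KM, hKM0, hmed⟩ := kidl hVF hVT hK hε₀ hEs (r₀ := 1 / 10) (by norm_num)
    (κ₁ := κ₀) (c₁ := c₀ / 2) (C₁ := 8 * (1 + 3 * C₀) / τ₀ ^ 2) hκ₀ (by positivity) hCl le_rfl
    le_rfl
  obtain ⟨KR, hKR0, hroM⟩ := hRT ρ₀ τ₀ κ₀ (c₀ / 2) (8 * (1 + 3 * C₀) / τ₀ ^ 2) hρ₀ hK.hρ.2 hτ₀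
    hK.hτ.2 hκ₀ (by positivity) hCl (1 / 10) (by norm_num)
  obtain ⟨K₀, hK₀0, hK₀M, hK₀R⟩ : ∃ K₀ : ℝ, 0 < K₀ ∧ KM ≤ K₀ ∧ KR ≤ K₀ :=
    ⟨max KM KR, lt_max_of_lt_left hKM0, le_max_left _ _, le_max_right _ _⟩
  obtain ⟨D, hD0, hD⟩ := kf_lt K₀
  -- geometry
  obtain ⟨g, hg, hgeo⟩ := hGE ρ₀ τ₀ κ₀ c₀ s dl hK (kf K₀) cen (fun _ => sg) D (kf_true K₀) hD
    (by
      intro b n a hk
      obtain ⟨-, -, -, hadm⟩ := kf_spec hk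
      have hPk := hP _ hadm
      obtain ⟨g, hg, h⟩ := hED _ hPk.zG hPk.zre
      exact ⟨g, hg, fun ψ φ h1 h2 => ⟨_, h ψ φ h1 h2⟩⟩)
  -- the constants of the small vertices
  have hhub : ∀ k : ℕ, ∃ (h : KQ) (ρ τ κ c C r₂ c₁ C₁ : ℝ), 0 < r₂ ∧ 0 < c₁ ∧ 0 < C₁ ∧
      (Adm k → KPk (nk k) (ak k) (cen k) g h ρ τ κ c C r₂ c₁ C₁) := by
    intro k
    by_cases hk : Adm k
    · obtain ⟨h, ρ, τ, κ, c, C, r₂, c₁, C₁, h1, h2, h3, h4⟩ := kpk_of hSM hk.1 (hP k hk) hg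
      exact ⟨h, ρ, τ, κ, c, C, r₂, c₁, C₁, h1, h2, h3, fun _ => h4⟩
    · exact ⟨⟨∅, 0, 0, 0, 0⟩, 0, 0, 0, 0, 0, 1, 1, 1, one_pos, one_pos, one_pos,
        fun h => absurd h hk⟩
  choose h ρk τk κk ck Ck r₂ cs Cs' hr₂ hcs hCs hh using hhub
  -- the small scale
  obtain ⟨e1, he10, he1⟩ := fin_pos (range D) r₂ (fun k _ => hr₂ k)
  obtain ⟨e, he0, he3, heρ, heτ, heg⟩ : ∃ e : ℝ, 0 < e ∧ 3 * e ≤ e1 ∧ e ≤ ρ₀ ∧ e ≤ τ₀ ∧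
      3 * e + 3 * e ≤ g := by
    refine ⟨min (e1 / 3) (min (min ρ₀ τ₀) (g / 6)), ?_, ?_, ?_, ?_, ?_⟩
    · exact lt_min (by positivity) (lt_min (lt_min hρ₀ hτ₀) (by positivity))
    · have := min_le_left (e1 / 3) (min (min ρ₀ τ₀) (g / 6))
      linarith
    · exact (min_le_right _ _).trans ((min_le_left _ _).trans (min_le_left _ _))
    · exact (min_le_right _ _).trans ((min_le_left _ _).trans (min_le_right _ _))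
    · have : min (e1 / 3) (min (min ρ₀ τ₀) (g / 6)) ≤ g / 6 :=
        (min_le_right _ _).trans (min_le_right _ _)
      linarith
  have he14 : e ≤ 1 / 4 := heρ.trans hK.hρ.2
  have hstep : ∀ k : ℕ, ∃ κ₁ : ℝ, 0 < κ₁ ∧ (k < D → Adm k →
      ∀ (X XL : ℕ → ℂ → ℂ) (f : ℂ) (Φ : ℂ → ℂ),
      PSm (h k).U (h k).x₁ (h k).τ₁ (h k).ε₁ (h k).ε₂ (nk k - 1) X XL f Φ → ∃ F zs : ℂ → ℂ,
      GoodV e e κ₁ (cs k) (Cs' k) 1 (stp (ak k) X) F ∧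
      ∀ ψ ∈ Rc (3 * e) (3 * e), ‖zs ψ - cen k‖ ≤ g ∧ zs ψ ∈ (h k).U ∧
        Complex.I * (ak k) * zs ψ / (2 * π) + Complex.I + deriv Φ (zs ψ) +
          deriv (fun w => sg ψ w) (zs ψ) = 0 ∧
        F ψ = qq (ak k) Φ (zs ψ) + sg ψ (zs ψ) ∧
        HasDerivAt F (deriv (fun w => sg w (zs ψ)) ψ) ψ) := by
    intro k
    by_cases hk : k < D ∧ Adm k
    · obtain ⟨κ₁, h1, h2⟩ := (hh k hk.2).step e e he0 le_rfl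
        (he3.trans (he1 k (mem_range.2 hk.1)))
      exact ⟨κ₁, h1, fun _ _ => h2⟩
    · exact ⟨1, one_pos, fun h1 h2 => absurd ⟨h1, h2⟩ hk⟩
  choose κk₁ hκk hst using hstep
  obtain ⟨km, hkm0, hkm⟩ := fin_pos (range D) κk₁ (fun k _ => hκk k)
  obtain ⟨cm, hcm0, hcm⟩ := fin_pos (range D) cs (fun k _ => hcs k)
  obtain ⟨CM, hCM0, hCM⟩ := fin_bdd (range D) Cs'
  obtain ⟨c₁, hc₁0, hc₁m, hc₁c⟩ : ∃ c₁ : ℝ, 0 < c₁ ∧ c₁ ≤ cm ∧ c₁ ≤ c₀ / 2 :=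
    ⟨min cm (c₀ / 2), lt_min hcm0 (by positivity), min_le_left _ _, min_le_right _ _⟩
  obtain ⟨κs, hκs0, hκsm, hκs₀, hκse⟩ : ∃ κs : ℝ, 0 < κs ∧ κs ≤ km ∧ κs ≤ κ₀ ∧
      κs / 2 < c₀ / 2 / 2 * e ^ 2 := by
    refine ⟨min km (min κ₀ (c₀ / 4 * e ^ 2)), ?_, min_le_left _ _,
      (min_le_right _ _).trans (min_le_left _ _), ?_⟩
    · exact lt_min hkm0 (lt_min hκ₀ (by positivity))
    · have h1 : min km (min κ₀ (c₀ / 4 * e ^ 2)) ≤ c₀ / 4 * e ^ 2 :=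
        (min_le_right _ _).trans (min_le_right _ _)
      have h2 : 0 < c₀ * e ^ 2 := by positivity
      linarith
  obtain ⟨C₁, hC₁0, hC₁M, hC₁c⟩ : ∃ C₁ : ℝ, 0 < C₁ ∧ CM ≤ C₁ ∧ 8 * (1 + 3 * C₀) / τ₀ ^ 2 ≤ C₁ :=
    ⟨max CM (8 * (1 + 3 * C₀) / τ₀ ^ 2), lt_max_of_lt_left hCM0, le_max_left _ _, le_max_right _ _⟩
  obtain ⟨r₀, hr₀0, hr₀a, hr₀g⟩ : ∃ r₀ : ℝ, 0 < r₀ ∧ r₀ ≤ 1 / 10 ∧ r₀ ≤ g :=
    ⟨min (1 / 10) g, lt_min (by norm_num) hg, min_le_left _ _, min_le_right _ _⟩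
  -- the large vertices
  obtain ⟨κe, hκe0, hκe1, hκe2⟩ : ∃ κe : ℝ, 0 < κe ∧ κe ≤ κ₀ ∧ κe < c₀ / 2 * e ^ 2 := by
    refine ⟨min κ₀ (c₀ / 4 * e ^ 2), lt_min hκ₀ (by positivity), min_le_left _ _, ?_⟩
    have h1 : min κ₀ (c₀ / 4 * e ^ 2) ≤ c₀ / 4 * e ^ 2 := min_le_right _ _
    have h2 : 0 < c₀ * e ^ 2 := by positivity
    linarith
  have hEs2 := ed_restrict hEs he0 heρ he0 heτ le_rfl hκe0 hκe1 hκe2
  obtain ⟨KA, hKA0, hkidA⟩ := kidl hVF hVT hK hε₀ hEs2 hr₀0 hκs0 hc₁0 hC₁0 heρ heτ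
  have hkidk : ∀ k : ℕ, ∃ K : ℝ, 0 < K ∧ (k < D → Adm k → ∀ (t : ℕ) (X : ℕ → ℂ → ℂ) (F : ℂ → ℂ),
      GoodV e e κs c₁ C₁ t X F →
      ∀ (b : Bool) (a : ℤ), (b = false → K ^ 2 ≤ ((t + 1 : ℕ) : ℝ) ^ 2 + (a : ℝ) ^ 2) →
      ∃ (YL : ℕ → ℂ → ℂ) (f₀ : ℂ) (F' zs : ℂ → ℂ),
        PSm (h k).U (h k).x₁ (h k).τ₁ (h k).ε₁ (h k).ε₂ 1 (stpb b a X) YL f₀ F' ∧
        ∀ φ ∈ (h k).U, zs φ ∈ Rc (3 * e) (3 * e) ∧ ‖zs φ‖ ≤ r₀ ∧ (b = true → zs φ = 0) ∧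
          (b = false → CPu e e r₀ (zs φ) ∧ Complex.I * a * zs φ / (2 * π) + Complex.I +
            deriv F (zs φ) + deriv (fun w => sg w φ) (zs φ) = 0) ∧
          F' φ = vt b a (zs φ) + F (zs φ) + sg (zs φ) φ ∧
          HasDerivAt F' (deriv (fun w => sg (zs φ) w) φ) φ) := by
    intro k
    by_cases hk : k < D ∧ Adm k
    · have hkk := hh k hk.2
      have hcp := hkk.ed.hc
      obtain ⟨κz, hκz0, hκz1, hκz2⟩ : ∃ κz : ℝ, 0 < κz ∧ κz ≤ κk k ∧ κz < ck k / 2 * e ^ 2 := by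
        refine ⟨min (κk k) (ck k / 4 * e ^ 2), lt_min hkk.ed.hκ.1 (by positivity),
          min_le_left _ _, ?_⟩
        have h1 : min (κk k) (ck k / 4 * e ^ 2) ≤ ck k / 4 * e ^ 2 := min_le_right _ _
        have h2 : 0 < ck k * e ^ 2 := by positivity
        linarith
      have q1 : e ≤ r₂ k := by
        have := he1 k (mem_range.2 hk.1)
        linarith
      have hE2 := ed_restrict hkk.ed he0 (q1.trans hkk.rρ) he0 (q1.trans hkk.rτ) le_rfl hκz0 hκz1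
        hκz2
      obtain ⟨K, hK0, h1⟩ := hKS _ _ _ _ _ _ _ _ _ _ hkk.x₁.1 hkk.x₁.2 hkk.τ₁ hkk.ε₁ hkk.ε₂
        hkk.UG hE2 hkk.rb r₀ κs c₁ C₁ hr₀0 hκs0 hc₁0 hC₁0
      exact ⟨K, hK0, fun _ _ => h1⟩
    · exact ⟨1, one_pos, fun h1 h2 => absurd ⟨h1, h2⟩ hk⟩
  choose Kk hKk0 hkidk using hkidk
  obtain ⟨KZ, hKZ0, hKZ⟩ := fin_bdd (range D) Kk
  -- the last step
  obtain ⟨KL, hKL0, hlast⟩ := hRT e e κs c₁ C₁ he0 he14 he0 le_rfl hκs0 hc₁0 hC₁0 r₀ hr₀0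
  obtain ⟨K, hKK₀, hKA, hKZ', hKL⟩ : ∃ K : ℝ, K₀ ≤ K ∧ KA ≤ K ∧ KZ ≤ K ∧ KL ≤ K :=
    ⟨max (max K₀ KA) (max KZ KL), (le_max_left _ _).trans (le_max_left _ _),
      (le_max_right _ _).trans (le_max_left _ _), (le_max_left _ _).trans (le_max_right _ _),
      (le_max_right _ _).trans (le_max_right _ _)⟩
  have hK0 : 0 < K := hK₀0.trans_le hKK₀
  -- the induction
  obtain ⟨q, hq⟩ : ∃ q : CQ, q = ⟨ρ₀, τ₀, κ₀, ε₀, e, e, κs, c₁, C₁, g⟩ := ⟨_, rfl⟩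
  have hadm : ∀ b n a, kf K₀ b n a ≠ 0 → Adm (kf K₀ b n a) := fun b n a hk => (kf_spec hk).2.2.2
  have hind := fun t => main_ind' (kf := kf K₀) (cen := cen) (S := fun _ => sg) (s := s) (q := q)
    (h := h) (K := K)
    (by rw [hq]; exact fun b a => qv_zero he0 he0 b a)
    (by rw [hq]; exact fun b a => qu_zero p0 b a)
    (fun k b a => qz_zero k b a)
    (by rw [hq]; exact fun t c h1 h2 => qv_succ he0 he0 h1 h2)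
    (by rw [hq]; exact fun t c h1 h2 => qu_succ p1 h1 h2)
    (fun k t c h1 h2 => qz_succ h1 h2)
    (by
      rw [hq]
      exact fun c h1 => hv_of_hu hK hε₁ hε₂ hC₀ he0 he0 heρ heτ hκs₀ hκse hc₁c hC₁c h1)
    (by
      rw [hq]
      intro c h1 h2
      refine hu_big (K := KA) hr₀a heρ heτ hkidA (kf_big hK₀0.le hKK₀ h1)
        (fun hf => (pow_le_pow_left₀ hKA0.le hKA 2).trans (h1 hf)) h2)
    (by
      rw [hq]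
      intro c h1 h2 h3
      have h4 := kf_med h1 (by omega) h2
      have h5 : KM ^ 2 ≤ K₀ ^ 2 := pow_le_pow_left₀ hKM0.le hK₀M 2
      obtain ⟨F, a1, a2⟩ := h3
      have a1' := gv_of_gu hK hε₁ hε₂ hC₀ a1
      obtain ⟨F', zs, b1, b2⟩ := hmed c.nc (XX c) F a1' c.bl c.wt (fun _ => h5.trans h4)
      refine ⟨F', b1, fun ψ hψ => ?_⟩
      obtain ⟨c1, c2, c3, c4, c5, c6⟩ := b2 ψ hψ
      exact cfc_00' h2 (a2 _ c1) c3 (fun hf => c4 hf) c5 c6)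
    (by
      rw [hq]
      rintro k ⟨b, n, a, rfl⟩ hk0 c h1 h2
      have hkD := hD b n a
      have hKk : Kk (kf K₀ b n a) ≤ K := (hKZ _ (mem_range.2 hkD)).trans hKZ'
      exact hz_big (K := Kk (kf K₀ b n a)) hk0 hr₀a hr₀g heρ heτ
        (hkidk _ hkD (hadm b n a hk0)) (kf_big hK₀0.le hKK₀ h1)
        (fun hf => (pow_le_pow_left₀ (hKk0 _).le hKk 2).trans (h1 hf)) h2)
    (by
      rw [hq]
      intro c h1 h2 h3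
      obtain ⟨s1, s2, s3, s4⟩ := kf_spec h2
      have hkD := hD c.bl (c.nc + 1) c.wt
      refine hv_small (n := nk (kf K₀ c.bl (c.nc + 1) c.wt)) (a := ak (kf K₀ c.bl (c.nc + 1) c.wt))
        h2 heg ?_ s1 rfl s2 s3 h3
      intro X XL f Φ hX
      obtain ⟨F, zs, b1, b2⟩ := hst _ hkD s4 X XL f Φ hX
      exact ⟨F, zs, gv_mono b1 (hκsm.trans (hkm _ (mem_range.2 hkD)))
        (hc₁m.trans (hcm _ (mem_range.2 hkD))) ((hCM _ (mem_range.2 hkD)).trans hC₁M), b2⟩) t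
  -- the root
  refine ⟨K, hK0, ?_⟩
  intro t ht hnc
  have hfin : ∀ (p : PB) (v : ℂ), p.shape = t →
      CG (kf K₀) cen (fun _ => sg) s ρ₀ τ₀ g (kf K₀ p.bl p.nc p.wt) p →
      VCG cen ρ₀ τ₀ g (kf K₀ p.bl p.nc p.wt) p.bl p.wt p.rz
        (gg (kf K₀) (fun _ => sg) s (kf K₀ p.bl p.nc p.wt) p) →
      vt p.bl p.wt p.rz + vg (kf K₀) (fun _ => sg) s (kf K₀ p.bl p.nc p.wt) p = v →
      Tendsto (fun N : ℕ => Real.log ‖JT t N‖ / N) atTop (𝓝 v.re) → ∃ V : ℝ,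
      IsGreatest {W : ℝ | ∃ y : AB, y.shape = t ∧ y.IsAng ∧ y.vol = W} V ∧
      Tendsto (fun N : ℕ => 2 * π * (Real.log ‖JT t N‖ / N)) atTop (𝓝 V) := by
    intro p v h1 h2 h3 h4 h5
    have hpn : 1 ≤ p.nc := by rw [← shape_nc p, h1]; exact hnc
    have h6 := hgeo p h2 h3 hpn
    rw [h1, h4] at h6
    exact ⟨_, h6, h5.const_mul _⟩
  rcases ht with ⟨hbig, hok⟩ | ⟨hsm, hok⟩
  · have h1 := (hind t).1 hok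
    obtain ⟨F, a1, a2⟩ := h1
    rw [hq] at a1 a2
    obtain ⟨z, z1, z2, z3, z4, z5⟩ := hlast t.nc (XX t) F hnc a1 t.bl t.wt
      (fun hf => (pow_le_pow_left₀ hKL0.le hKL 2).trans (hbig hf))
    obtain ⟨p, q1, q2, q3, q4⟩ := rt_0 (q := ⟨ρ₀, τ₀, κ₀, ε₀, e, e, κs, c₁, C₁, g⟩)
      (kf_big hK₀0.le hKK₀ hbig) (a2 z z1) z3
      (fun hf => ⟨cpu_mono (z4 hf).1 heρ heτ hr₀a, (z4 hf).2⟩)
    exact hfin p _ q1 q2 q3 q4 z5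
  · rcases Nat.eq_zero_or_pos (kf K₀ t.bl t.nc t.wt) with hk | hk
    · have h1 := (hind t).2.1 hok
      obtain ⟨F, a1, a2⟩ := h1
      rw [hq] at a1 a2
      have h4 := kf_med hsm hnc hk
      have h5 : KR ^ 2 ≤ K₀ ^ 2 := pow_le_pow_left₀ hKR0.le hK₀R 2
      have a1' := gv_of_gu hK hε₁ hε₂ hC₀ a1
      obtain ⟨z, z1, z2, z3, z4, z5⟩ := hroM t.nc (XX t) F hnc a1' t.bl t.wt
        (fun _ => h5.trans h4)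
      obtain ⟨p, q1, q2, q3, q4⟩ := rt_0 (q := ⟨ρ₀, τ₀, κ₀, ε₀, e, e, κs, c₁, C₁, g⟩)
        hk (a2 z z1) z3 z4
      exact hfin p _ q1 q2 q3 q4 z5
    · have hk0 : kf K₀ t.bl t.nc t.wt ≠ 0 := hk.ne'
      obtain ⟨s1, s2, s3, s4⟩ := kf_spec hk0
      have h1 := (hind t).2.2 _ ⟨_, _, _, rfl⟩ hk0 hok
      obtain ⟨XL, f, Φ, a1, a2⟩ := h1
      rw [hq] at a2
      have hroot := (hh _ s4).root
      rw [s2, s3] at hroot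
      obtain ⟨z, z1, z2, z3, z4⟩ := hroot (XX t) XL f Φ a1
      obtain ⟨p, q1, q2, q3, q4⟩ := rt_k (q := ⟨ρ₀, τ₀, κ₀, ε₀, e, e, κs, c₁, C₁, g⟩)
        hk0 rfl s1 (a2 z z2) z1 z3
      refine hfin p _ q1 q2 q3 q4 ?_
      have hJT : ∀ N, JT t N = upp (1 / N) fun φ => Ea t.wt N φ * XX t N φ * kr N φ := by
        intro N
        unfold JT
        rw [s1]
        congr 1
        funext φ
        unfold Eb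
        simp
      simp only [hJT]
      exact z4

end Pool.Agent.N561
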